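import Pool.Agent.X205.AW.Big

/-!
Hulls, and the main theorem.
-/

open Filter Topology ComplexConjugate

namespace Pool.Agent.X205.AW

variable {A : Type*} [CStarAlgebra A]

theorem hull (hA : IsAWStar A) {s1 s2 : A} (hs : Prop2 s1 s2) {p m1 m2 : A} (T : A)
    (hp : IsStarProjection p) (h1 : star m1 * m1 = p) (h2 : star m2 * m2 = p)
    (g1 : p * m1 = m1) (o : star m1 * m2 = 0) (o' : star m2 * m1 = 0) (g2 : p * m2 = m2) :
    ∃ e0 v : A, IsStarProjection e0 ∧ e0 * p = p ∧ star v * v = e0 ∧ p * v = v ∧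
      (1 - e0) * (T * e0) = 0 := by
  have pp := mm hp
  have ps := ss hp
  have m2p : m2 * p = m2 := iso_right hp h2
  have m1p : m1 * p = m1 := iso_right hp h1
  obtain ⟨t, t0, ts⟩ : ∃ t : ℕ → A, t 0 = m1 ∧ ∀ n, t (n + 1) = m2 * t n :=
    ⟨fun n => Nat.rec m1 (fun _ x => m2 * x) n, rfl, fun _ => rfl⟩
  have pt : ∀ n, p * t n = t n := by
    intro n
    cases n with
    | zero => rw [t0, g1]
    | succ n => rw [ts, ← mul_assoc, g2]
  have tp : ∀ n, t n * p = t n := by
    intro n
    induction n with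
    | zero => rw [t0, m1p]
    | succ n ih => rw [ts, mul_assoc, ih]
  have stp : ∀ n, star (t n) * p = star (t n) := fun n => by
    have := congrArg star (pt n); rwa [star_mul, ps] at this
  have pst : ∀ n, p * star (t n) = star (t n) := fun n => by
    have := congrArg star (tp n); rwa [star_mul, ps] at this
  have tt : ∀ n, star (t n) * t n = p := by
    intro n
    induction n with
    | zero => rw [t0, h1]
    | succ n ih => rw [ts, star_mul, mul_assoc, ← mul_assoc (star m2), h2, pt, ih]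
  have tort : ∀ n m, n ≠ m → star (t n) * t m = 0 := by
    intro n
    induction n with
    | zero =>
      intro m hm
      cases m with
      | zero => exact absurd rfl hm
      | succ m => rw [t0, ts, ← mul_assoc, o, zero_mul]
    | succ n ih =>
      intro m hm
      cases m with
      | zero => rw [t0, ts, star_mul, mul_assoc, o', mul_zero]
      | succ m =>
        rw [ts, ts, star_mul, mul_assoc, ← mul_assoc (star m2), h2, pt]
        exact ih m (fun h => hm (by rw [h]))
  obtain ⟨K, hK⟩ : ∃ K : ℝ, K = 1 / (2 * (1 + ‖T‖)) := ⟨_, rfl⟩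
  have nT := norm_nonneg T
  have K0 : 0 < K := by rw [hK]; positivity
  have KT : K * ‖T‖ ≤ 1 / 2 := by
    rw [hK, div_mul_eq_mul_div, one_mul, div_le_div_iff₀ (by positivity) (by norm_num)]
    linarith
  have hsum : Summable (fun n : ℕ => (K ^ n) • (T ^ n * p * star (t n))) := by
    refine Summable.of_norm_bounded (g := fun n : ℕ => (1 / 2 : ℝ) ^ n)
      (summable_geometric_of_lt_one (by norm_num) (by norm_num)) (fun n => ?_)
    rw [norm_smul, norm_pow, Real.norm_eq_abs, abs_of_pos K0]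
    have h3 : ‖T ^ n * p * star (t n)‖ ≤ ‖T‖ ^ n := by
      have h4 : ‖star (t n)‖ ≤ 1 := by rw [norm_star]; exact iso_norm hp (tt n)
      have h5 : ‖T ^ n * p‖ ≤ ‖T‖ ^ n := by
        rcases Nat.eq_zero_or_pos n with h | h
        · rw [h, pow_zero, pow_zero, one_mul]; exact proj_norm_le hp
        · calc ‖T ^ n * p‖ ≤ ‖T ^ n‖ * ‖p‖ := norm_mul_le _ _
            _ ≤ ‖T‖ ^ n * 1 := mul_le_mul (norm_pow_le' T h) (proj_norm_le hp)
                (norm_nonneg _) (by positivity)
            _ = _ := mul_one _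
      calc ‖T ^ n * p * star (t n)‖ ≤ ‖T ^ n * p‖ * ‖star (t n)‖ := norm_mul_le _ _
        _ ≤ ‖T‖ ^ n * 1 := mul_le_mul h5 h4 (norm_nonneg _) (by positivity)
        _ = _ := mul_one _
    calc K ^ n * ‖T ^ n * p * star (t n)‖ ≤ K ^ n * ‖T‖ ^ n :=
          mul_le_mul_of_nonneg_left h3 (by positivity)
      _ = (K * ‖T‖) ^ n := by rw [mul_pow]
      _ ≤ (1 / 2) ^ n := pow_le_pow_left₀ (by positivity) KT n
  obtain ⟨r, hr⟩ := hsum
  have rt : ∀ m, r * t m = (K ^ m) • (T ^ m * p) := by
    intro m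
    have h3 := hr.mul_right (t m)
    have h4 := hasSum_single (f := fun n : ℕ => (K ^ n) • (T ^ n * p * star (t n)) * t m) m
      (fun n hn => by
        show (K ^ n) • (T ^ n * p * star (t n)) * t m = 0
        rw [smul_mul_assoc, mul_assoc, tort n m hn, mul_zero, smul_zero])
    rw [h3.unique h4]
    show (K ^ m) • (T ^ m * p * star (t m)) * t m = _
    rw [smul_mul_assoc, mul_assoc, tt, mul_assoc, pp]
  have zr : ∀ z, z * r = 0 → ∀ m, z * (T ^ m * p) = 0 := by
    intro z hz m
    have h3 : z * (r * t m) = 0 := by rw [← mul_assoc, hz, zero_mul]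
    rw [rt, mul_smul_comm] at h3
    rcases smul_eq_zero.1 h3 with h4 | h4
    · exact absurd h4 (by positivity)
    · exact h4
  have zr' : ∀ z, (∀ m, z * (T ^ m * p) = 0) → z * r = 0 := by
    intro z hz
    have h3 := hr.mul_left z
    have h4 : ∀ n : ℕ, z * ((K ^ n) • (T ^ n * p * star (t n))) = 0 := fun n => by
      rw [mul_smul_comm, ← mul_assoc, hz, zero_mul, smul_zero]
    simp only [h4] at h3
    exact h3.unique hasSum_zero
  have rp : r * (1 - p) = 0 := by
    have h3 := hr.mul_right (1 - p)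
    have h4 : ∀ n : ℕ, (K ^ n) • (T ^ n * p * star (t n)) * (1 - p) = 0 := fun n => by
      rw [smul_mul_assoc, mul_assoc, mul_sub, mul_one, stp, sub_self, mul_zero, smul_zero]
    simp only [h4] at h3
    exact h3.unique hasSum_zero
  obtain ⟨ρ, lam, hρ, hl, _, lr, hρz, hlz, w, hw, hw'⟩ := range_proj hA hs r
  have k1 : (1 - lam) * r = 0 := by rw [sub_mul, one_mul, lr, sub_self]
  have k2 := zr _ k1
  have k3 : ((1 - lam) * T) * r = 0 := zr' _ (fun m => by
    have := k2 (m + 1)
    rw [pow_succ'] at this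
    rw [← this]; noncomm_ring)
  have k4 := hlz _ k3
  have wp : IsStarProjection (star w * w) := by rw [hw]; exact hρ
  have wr : w * ρ = w := by rw [← hw]; exact pi_mul wp
  have rsw : ρ * star w = star w := by
    have := congrArg star wr; rwa [star_mul, ss hρ] at this
  have ρp : ρ * (1 - p) = 0 := hρz _ rp
  have ρp' : p * ρ = ρ := by
    have h3 : ρ * p = ρ := by rw [mul_sub, mul_one, sub_eq_zero] at ρp; exact ρp.symm
    have := congrArg star h3; rwa [star_mul, ss hρ, ps] at this
  refine ⟨lam, star w, hl, ?_, by rw [star_star, hw'], ?_, ?_⟩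
  · have := k2 0
    rw [pow_zero, one_mul, sub_mul, one_mul, sub_eq_zero] at this
    exact this.symm
  · rw [← rsw, ← mul_assoc, ρp']
  · rw [← mul_assoc]; exact k4

theorem clean_one (hA : IsAWStar A) (hF : IsFactor A) {s1 s2 : A} (hs : Prop2 s1 s2) (T : A) :
    CC 1 T := by
  obtain ⟨R, hR⟩ : ∃ R : ℝ, R = ‖T‖ + 1 := ⟨_, rfl⟩
  have R1 : 1 ≤ R := by have := norm_nonneg T; linarith
  obtain ⟨ε, hε⟩ : ∃ ε : ℝ, ε = 1 / (2048 * R ^ 3) := ⟨_, rfl⟩
  have ε0 : 0 < ε := by rw [hε]; positivity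
  have hεR : 2048 * R ^ 3 * ε ≤ 1 := by
    rw [hε]
    have : 2048 * R ^ 3 ≠ 0 := by positivity
    rw [mul_one_div_cancel this]
  obtain ⟨x, hx⟩ : ∃ x, x = T * T - T := ⟨_, rfl⟩
  obtain ⟨p, k, hp, ks, pk, hk, _, hn, _⟩ := cut1 hA x (t := ε ^ 2) (by positivity)
  have hn' : ‖x * (1 - p)‖ ≤ ε := (le_abs_self _).trans (abs_le_of_sq_le_sq hn ε0.le)
  by_cases hf : FinP p
  · exact near_clean hA hF hs (.one A) hp hf (one_mul _) (mul_one _) hR.ge
      (by rw [← hx]; exact hn') hεR
  unfold FinP at hf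
  push Not at hf
  obtain ⟨v0, hv0, pv0, hne0⟩ := hf
  obtain ⟨m1, m2, a1, a2, g1, g2, o, o'⟩ := halving hA hF hp hv0 pv0 hne0
  have p0 : p ≠ 0 := by
    intro h
    rw [h, zero_mul] at pv0
    exact hne0 (by rw [← pv0, h, zero_mul])
  obtain ⟨e0, v, he, ep, hv, pv, hT⟩ := hull hA hs T hp a1 a2 g1 o o' g2
  have ee := mm he
  have es := ss he
  have pp := mm hp
  have pe : p * e0 = p := by
    have := congrArg star ep; rwa [star_mul, es, ss hp] at this
  have ev : e0 * v = v := by rw [← pv, ← mul_assoc, ep]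
  have ve : v * e0 = v := iso_right he hv
  have hTe : e0 * T * e0 = T * e0 := by
    rw [sub_mul, one_mul, sub_eq_zero, ← mul_assoc] at hT; exact hT.symm
  -- the big corner
  have hD : Dbl e0 (m1 * v) (m2 * v) := by
    refine ⟨he, ?_, ?_, ?_, ?_, ?_, ?_⟩
    · intro h; rw [h, zero_mul] at ep; exact p0 ep.symm
    · rw [star_mul, mul_assoc, ← mul_assoc (star m1), a1, pv, hv]
    · rw [star_mul, mul_assoc, ← mul_assoc (star m2), a2, pv, hv]
    · rw [← mul_assoc, ← g1, ← mul_assoc, ep]
    · rw [← mul_assoc, ← g2, ← mul_assoc, ep]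
    · rw [star_mul, mul_assoc, ← mul_assoc (star m1), o, zero_mul, mul_zero]
  have c0 : CC e0 (e0 * T * e0) := by
    refine big_clean hA hF hs hD (a := star v * k * star x) (b := v)
      (by rw [← mul_assoc, ← mul_assoc, ee]) (by rw [mul_assoc, ee]) ev ve ?_
    have e1 : e0 * T * e0 * (e0 * T * e0) - e0 * T * e0 = x * e0 := by
      have e2 : T * e0 * (T * e0) = T * T * e0 := by
        calc T * e0 * (T * e0) = T * (e0 * T * e0) := by noncomm_ring
          _ = T * T * e0 := by rw [hTe]; noncomm_ring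
      rw [hTe, e2, hx]; noncomm_ring
    rw [e1]
    calc star v * k * star x * (x * e0) * v = star v * (k * (star x * x)) * (e0 * v) := by
          noncomm_ring
      _ = star v * (p * v) := by rw [hk, ev, mul_assoc]
      _ = e0 := by rw [pv, hv]
  -- the near corner
  have hf : IsStarProjection (1 - e0) := by
    have := proj_sub he (.one A) (mul_one e0); exact this
  have ff := mm hf
  have fe : (1 - e0) * e0 = 0 := by rw [sub_mul, one_mul, ee, sub_self]
  have ef : e0 * (1 - e0) = 0 := by rw [mul_sub, mul_one, ee, sub_self]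
  have pf : (1 - p) * (1 - e0) = 1 - e0 := by
    rw [sub_mul, one_mul, mul_sub, mul_one, pe, sub_self, sub_zero]
  obtain ⟨f, hfd⟩ : ∃ f, f = 1 - e0 := ⟨_, rfl⟩
  rw [← hfd] at hf ff fe ef pf hT
  have fTf : f * T * f = f * T := by
    have : f * T * f = f * T - f * (T * e0) := by rw [hfd]; noncomm_ring
    rw [this, hT, sub_zero]
  have fn := proj_norm_le hf
  have c1 : CC f (f * T * f) := by
    refine near_clean hA hF hs (p := 0) (R := R) (ε := ε) hf (.zero A) ?_
      (by rw [← mul_assoc, ← mul_assoc, ff]) (by rw [mul_assoc, ff]) ?_ ?_ hεR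
    · intro v' hv' hv''
      rw [zero_mul] at hv''
      rw [← hv'', zero_mul]
    · rw [hR]
      have : ‖f * T * f‖ ≤ ‖T‖ := by
        calc ‖f * T * f‖ ≤ ‖f‖ * ‖T‖ * ‖f‖ := (norm_mul_le _ _).trans
              (mul_le_mul_of_nonneg_right (norm_mul_le _ _) (norm_nonneg _))
          _ ≤ 1 * ‖T‖ * 1 := by
              refine mul_le_mul ?_ fn (norm_nonneg _) (by positivity)
              exact mul_le_mul_of_nonneg_right fn (norm_nonneg _)
          _ = _ := by ring
      linarith
    · have e1 : (f * T * f * (f * T * f) - f * T * f) * (f - 0) = f * (x * (1 - p)) * f := by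
        have e2 : f * T * f * (f * T * f) = f * (T * T) * f := by
          calc f * T * f * (f * T * f) = f * T * (f * f) * T * f := by noncomm_ring
            _ = (f * T * f) * T * f := by rw [ff]
            _ = f * (T * T) * f := by rw [fTf]; noncomm_ring
        rw [e2, sub_zero, hx]
        calc (f * (T * T) * f - f * T * f) * f = f * (T * T - T) * (f * f) := by noncomm_ring
          _ = f * (T * T - T) * ((1 - p) * f) := by rw [ff, pf]
          _ = _ := by noncomm_ring
      rw [e1]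
      calc ‖f * (x * (1 - p)) * f‖ ≤ ‖f‖ * ‖x * (1 - p)‖ * ‖f‖ := (norm_mul_le _ _).trans
              (mul_le_mul_of_nonneg_right (norm_mul_le _ _) (norm_nonneg _))
          _ ≤ 1 * ‖x * (1 - p)‖ * 1 := by
              refine mul_le_mul ?_ fn (norm_nonneg _) (by positivity)
              exact mul_le_mul_of_nonneg_right fn (norm_nonneg _)
          _ ≤ ε := by rw [one_mul, mul_one]; exact hn'
  obtain ⟨P1, hP, fP, Pf, _, _, W1, fW, Wf, hW, hW'⟩ := c1
  refine HN (g := 1) (e := f) (f := e0) (P1 := P1) (W1 := W1) ff ee fe ef (by rw [hfd]; abel)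
    (one_mul _) (mul_one _) hP fP Pf fW Wf hW hW' ?_
  have e1 : e0 * T * W1 * T * e0 = 0 := by
    calc e0 * T * W1 * T * e0 = e0 * T * (W1 * f) * T * e0 := by rw [Wf]
      _ = e0 * T * W1 * (f * (T * e0)) := by noncomm_ring
      _ = 0 := by rw [hT, mul_zero]
  rw [e1, sub_zero]; exact c0

theorem main (hA : IsAWStar A) (hF : IsFactor A) (h : ¬ IsFiniteProj (1 : A)) :
    IsCleanRing A := by
  unfold IsFiniteProj at h
  push Not at h
  obtain ⟨f, hf, ⟨v, hv, hv'⟩, _, hne⟩ := h
  obtain ⟨s1, s2, a1, a2, _, _, o, o'⟩ := halving hA hF (.one A) hv (one_mul v) (by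
    rw [hv']; exact hne)
  intro T
  obtain ⟨P, hP, _, _, _, _, W, _, _, h1, h2⟩ := clean_one hA hF ⟨a1, a2, o, o'⟩ T
  exact ⟨T - P, P, ⟨⟨T - P, W, h1, h2⟩, rfl⟩, hP, by abel⟩

end Pool.Agent.X205.AW
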