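import Pool.Agent.X205.AW.CaseA

/-!
Large elements of properly infinite corners are clean.
-/

open Filter Topology ComplexConjugate

namespace Pool.Agent.X205.AW

variable {A : Type*} [CStarAlgebra A]

theorem BL.null_left' {g : A} (hne : g ≠ 0) {p q : ℕ → A} (hb : ∀ n, ‖p n‖ ≤ 1) {w w' : A} {c : ℂ}
    (h1 : Tendsto (fun n => w * p n) atTop (𝓝 0)) (h' : BL g p q w' w c) : c = 0 := by
  have h2 : Tendsto (fun n => star (w' * p n) * (w * p n)) atTop (𝓝 0) := by
    rw [tendsto_zero_iff_norm_tendsto_zero]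
    have h3 : Tendsto (fun n => ‖w'‖ * ‖w * p n‖) atTop (𝓝 0) := by
      have := h1.norm.const_mul ‖w'‖
      simpa using this
    refine squeeze_zero (fun n => norm_nonneg _) (fun n => ?_) h3
    calc ‖star (w' * p n) * (w * p n)‖ ≤ ‖star (w' * p n)‖ * ‖w * p n‖ := norm_mul_le _ _
      _ ≤ ‖w'‖ * ‖w * p n‖ := by
          refine mul_le_mul_of_nonneg_right ?_ (norm_nonneg _)
          rw [norm_star]
          calc ‖w' * p n‖ ≤ ‖w'‖ * ‖p n‖ := norm_mul_le _ _
            _ ≤ ‖w'‖ * 1 := mul_le_mul_of_nonneg_left (hb n) (norm_nonneg _)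
            _ = _ := mul_one _
  have h3 := tendsto_nhds_unique h'.pp h2
  rcases smul_eq_zero.1 h3 with h4 | h4
  · exact h4
  · exact absurd h4 hne

theorem BL.real {g : A} (hg : IsStarProjection g) (hne : g ≠ 0) {p q : ℕ → A} {w : A} {c : ℂ}
    (h : BL g p q w w c) : conj c = c := (h.symm hg).uniq hne h

theorem null_of_D {g : A} (hg : IsStarProjection g) {p q : ℕ → A} {w w' : A}
    {c11 c12 c22 : ℂ} (h11 : BL g p q w w c11) (h12 : BL g p q w w' c12)
    (h22 : BL g p q w' w' c22) (hc : c11 ≠ 0) (hD : c11 * c22 - c12 * conj c12 = 0) :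
    Tendsto (fun n => (w' - (c12 / c11) • w) * p n) atTop (𝓝 0) := by
  have h1 := h12.comb (c12 / c11) h11
  have h2 := h22.comb (c12 / c11) (h12.symm hg)
  have h3 := h2.comb' hg (c12 / c11) h1
  have e1 : c22 - c12 / c11 * conj c12 - conj (c12 / c11) * (c12 - c12 / c11 * c11) = 0 := by
    have e2 : c12 - c12 / c11 * c11 = 0 := by field_simp; ring
    have e3 : c22 - c12 / c11 * conj c12 = (c11 * c22 - c12 * conj c12) / c11 := by field_simp
    rw [e2, e3, hD]; simp
  rw [e1] at h3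
  exact h3.null

theorem caseB' (hA : IsAWStar A) {s1 s2 : A} (hs : Prop2 s1 s2)
    {g T b : A} (hg : IsStarProjection g) (hne : g ≠ 0) (gT : g * T = T) (Tg : T * g = T)
    (gb : g * b = b) (bg : b * g = b)
    {p q : ℕ → A} (hp : ∀ n, star (p n) * p n = g) (gp : ∀ n, g * p n = p n)
    (hq : ∀ n, star (q n) * q n = g) (gq : ∀ n, g * q n = q n)
    {c00 c01 c02 c11 c12 c22 : ℂ} (b00 : BL g p q b b c00) (b01 : BL g p q b (T * b) c01)
    (b02 : BL g p q b (T * (T * b)) c02) (b11 : BL g p q (T * b) (T * b) c11)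
    (b12 : BL g p q (T * b) (T * (T * b)) c12)
    (b22 : BL g p q (T * (T * b)) (T * (T * b)) c22)
    (h00 : c00 ≠ 0) (h11 : c11 ≠ 0) (hD1 : c00 * c11 - c01 * conj c01 ≠ 0)
    (hD2 : c11 * c22 - c12 * conj c12 ≠ 0) : CC g T := by
  have r11 := b11.real hg hne
  have b10 := b01.symm hg
  have b20 := b02.symm hg
  have b21 := b12.symm hg
  obtain ⟨μ, hμ⟩ : ∃ μ : ℂ, μ = conj c01 / c11 := ⟨_, rfl⟩
  have hμ' : conj μ = c01 / c11 := by rw [hμ, map_div₀, Complex.conj_conj, r11]
  have p1 := (b10.comb μ b11).symm hg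
  have e1 : conj (conj c01 - μ * c11) = 0 := by
    have : conj c01 - μ * c11 = 0 := by rw [hμ]; field_simp; ring
    rw [this, map_zero]
  rw [e1] at p1
  have p0 := b00.comb' hg μ b10
  have p2 := b02.comb' hg μ b12
  rw [hμ'] at p0 p2
  have e0 : c00 - c01 / c11 * conj c01 ≠ 0 := by
    have : c00 - c01 / c11 * conj c01 = (c00 * c11 - c01 * conj c01) / c11 := by field_simp
    rw [this]; exact div_ne_zero hD1 h11
  have gp' : g * (b - μ • (T * b)) = b - μ • (T * b) := by
    rw [mul_sub, gb, mul_smul_comm, ← mul_assoc, gT]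
  by_cases hC : c02 - c01 / c11 * c12 = 0
  · obtain ⟨ν, hν⟩ : ∃ ν : ℂ, ν = c12 / c11 := ⟨_, rfl⟩
    have hν' : conj ν = conj c12 / c11 := by rw [hν, map_div₀, r11]
    have r1 := (b12.comb ν b11).symm hg
    have e2 : conj (c12 - ν * c11) = 0 := by
      have : c12 - ν * c11 = 0 := by rw [hν]; field_simp; ring
      rw [this, map_zero]
    rw [e2] at r1
    have r0 := b20.comb' hg ν b10
    have r2 := b22.comb' hg ν b12
    rw [hν'] at r0 r2
    have e3 : conj c02 - conj c12 / c11 * conj c01 = 0 := by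
      have := congrArg conj hC
      rw [map_sub, map_mul, map_div₀, r11, map_zero] at this
      rw [← this]; ring
    have e4 : c22 - conj c12 / c11 * c12 ≠ 0 := by
      have : c22 - conj c12 / c11 * c12 = (c11 * c22 - c12 * conj c12) / c11 := by
        field_simp
      rw [this]; exact div_ne_zero hD2 h11
    rw [e3] at r0
    rw [hC] at p2
    have z1 := p1.comb' hg (-1) r1
    have z0 := p0.comb' hg (-1) r0
    have z2 := p2.comb' hg (-1) r2
    have m1 : conj (-1 : ℂ) = -1 := by simp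
    rw [m1] at z1 z0 z2
    have f1 : (0 : ℂ) - -1 * 0 = 0 := by ring
    rw [f1] at z1
    refine caseB hA hs hg gT Tg gb bg (z1 := b - μ • (T * b) - (-1 : ℂ) •
      (T * (T * b) - ν • (T * b))) ?_ hp gp hq gq h00 h11 ?_ ?_ b00 b10 b11 b01 b12 z0 z1 z2
    · rw [mul_sub, gp', mul_smul_comm, mul_sub, mul_smul_comm, ← mul_assoc, ← mul_assoc g T b, gT]
    · simpa using e0
    · simpa using e4
  · exact caseB hA hs hg gT Tg gb bg (z1 := b - μ • (T * b)) gp' hp gp hq gq h00 h11 e0 hC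
      b00 b10 b11 b01 b12 p0 p1 p2

theorem big_clean (hA : IsAWStar A) (hF : IsFactor A) {s1 s2 : A} (hs : Prop2 s1 s2)
    {g t1 t2 : A} (hg : Dbl g t1 t2) {T a b : A} (gT : g * T = T) (Tg : T * g = T)
    (gb : g * b = b) (bg : b * g = b) (hx : a * (T * T - T) * b = g) : CC g T := by
  obtain ⟨p, q, G, hp, gp, hq, gq, hB⟩ := exists_BL hA hF hs hg ![b, T * b, T * (T * b)]
  have gg := mm hg.pr
  have b00 : BL g p q b b (G 0 0) := hB 0 0
  have b01 : BL g p q b (T * b) (G 0 1) := hB 0 1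
  have b02 : BL g p q b (T * (T * b)) (G 0 2) := hB 0 2
  have b11 : BL g p q (T * b) (T * b) (G 1 1) := hB 1 1
  have b12 : BL g p q (T * b) (T * (T * b)) (G 1 2) := hB 1 2
  have b22 : BL g p q (T * (T * b)) (T * (T * b)) (G 2 2) := hB 2 2
  obtain ⟨c00, hc00⟩ : ∃ c, c = G 0 0 := ⟨_, rfl⟩
  obtain ⟨c01, hc01⟩ : ∃ c, c = G 0 1 := ⟨_, rfl⟩
  obtain ⟨c02, hc02⟩ : ∃ c, c = G 0 2 := ⟨_, rfl⟩
  obtain ⟨c11, hc11⟩ : ∃ c, c = G 1 1 := ⟨_, rfl⟩
  obtain ⟨c12, hc12⟩ : ∃ c, c = G 1 2 := ⟨_, rfl⟩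
  obtain ⟨c22, hc22⟩ : ∃ c, c = G 2 2 := ⟨_, rfl⟩
  rw [← hc00] at b00
  rw [← hc01] at b01
  rw [← hc02] at b02
  rw [← hc11] at b11
  rw [← hc12] at b12
  rw [← hc22] at b22
  have hb : ∀ n, ‖p n‖ ≤ 1 := fun n => iso_norm hg.pr (hp n)
  have nnx : ¬ Tendsto (fun n => (T * (T * b) - T * b) * p n) atTop (𝓝 0) := fun h =>
    not_null hg.ne hp (y := a) (fun n => by
      calc a * ((T * (T * b) - T * b) * p n) = (a * (T * T - T) * b) * p n := by noncomm_ring
        _ = p n := by rw [hx, gp]) h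
  have nn0 : ¬ Tendsto (fun n => b * p n) atTop (𝓝 0) := fun h =>
    not_null hg.ne hp (y := a * (T * T - T)) (fun n => by
      calc a * (T * T - T) * (b * p n) = (a * (T * T - T) * b) * p n := by noncomm_ring
        _ = p n := by rw [hx, gp]) h
  have nn1 : ¬ Tendsto (fun n => (T * b) * p n) atTop (𝓝 0) := fun h =>
    not_null hg.ne hp (y := a * (T - 1)) (fun n => by
      calc a * (T - 1) * (T * b * p n) = (a * (T * T - T) * b) * p n := by noncomm_ring
        _ = p n := by rw [hx, gp]) h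
  have nn01 : ¬ Tendsto (fun n => (T * b - b) * p n) atTop (𝓝 0) := fun h =>
    not_null hg.ne hp (y := a * T) (fun n => by
      calc a * T * ((T * b - b) * p n) = (a * (T * T - T) * b) * p n := by noncomm_ring
        _ = p n := by rw [hx, gp]) h
  have h00 : c00 ≠ 0 := fun h => nn0 (by rw [h] at b00; exact b00.null)
  have h11 : c11 ≠ 0 := fun h => nn1 (by rw [h] at b11; exact b11.null)
  have r00 := b00.real hg.pr hg.ne
  have r11 := b11.real hg.pr hg.ne
  by_cases hD1 : c00 * c11 - c01 * conj c01 = 0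
  · have hn := null_of_D hg.pr b00 b01 b11 h00 hD1
    refine caseA hA hs hg.pr gT Tg gb hp hq h00 (l := c01 / c00) ?_ ?_ b00 hn
    · intro h
      rw [h] at hn
      simp only [zero_smul, sub_zero] at hn
      exact nn1 hn
    · intro h
      rw [h] at hn
      simp only [one_smul] at hn
      exact nn01 hn
  by_cases hD2 : c11 * c22 - c12 * conj c12 = 0
  · have hn := null_of_D hg.pr b11 b12 b22 h11 hD2
    refine CC_sub gg ?_
    have gT' : g * (g - T) = g - T := by rw [mul_sub, gg, gT]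
    have T'g : (g - T) * g = g - T := by rw [sub_mul, gg, Tg]
    have b10 := b01.symm hg.pr
    have b20 := b02.symm hg.pr
    have b21 := b12.symm hg.pr
    obtain ⟨w1, hw1⟩ : ∃ w, w = b - (1 : ℂ) • (T * b) := ⟨_, rfl⟩
    obtain ⟨w2, hw2⟩ : ∃ w, w = T * b - (1 : ℂ) • (T * (T * b)) := ⟨_, rfl⟩
    have k01 := b00.comb 1 b01
    have k11 := b10.comb 1 b11
    have k21 := b20.comb 1 b21
    have k02 := b01.comb 1 b02
    have k12 := b11.comb 1 b12
    have k22 := b21.comb 1 b22
    rw [← hw1] at k01 k11 k21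
    rw [← hw2] at k02 k12 k22
    have l11 := k01.comb' hg.pr 1 k11
    have l12 := k02.comb' hg.pr 1 k12
    have l22 := k12.comb' hg.pr 1 k22
    rw [← hw1] at l11 l12
    rw [← hw2] at l22
    have l21 := l12.symm hg.pr
    -- u0' = b, u1' = w1, u2' = w1 - w2
    have m02 := k01.comb 1 k02
    have m12 := l11.comb 1 l12
    have m22' := l21.comb 1 l22
    have m22 := m12.comb' hg.pr 1 m22'
    have T1 : (g - T) * b = w1 := by rw [hw1, sub_mul, gb, one_smul]
    have T2 : (g - T) * ((g - T) * b) = w1 - (1 : ℂ) • w2 := by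
      rw [T1, hw2, hw1]; simp only [one_smul]
      rw [sub_mul, mul_sub, gb, ← mul_assoc g T b, gT, mul_sub]
    rw [← T2, ← T1] at m12
    rw [← T2] at m22
    rw [← T2] at m02
    rw [← T1] at l11 k01
    have h11' : c00 - 1 * c01 - conj (1 : ℂ) * (conj c01 - 1 * c11) ≠ 0 := by
      intro h
      rw [h] at l11
      have h2 := l11.null.neg
      rw [neg_zero] at h2
      refine nn01 (h2.congr (fun n => ?_))
      rw [T1, hw1, one_smul, ← neg_mul, neg_sub]
    refine caseB' hA hs hg.pr hg.ne gT' T'g gb bg hp gp hq gq b00 k01 m02 l11 m12 m22 h00 h11' ?_ ?_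
    · have e1 : c00 * (c00 - 1 * c01 - conj (1 : ℂ) * (conj c01 - 1 * c11)) -
          (c00 - 1 * c01) * conj (c00 - 1 * c01) = c00 * c11 - c01 * conj c01 := by
        simp only [map_one, one_mul, map_sub, r00]; ring
      rw [e1]; exact hD1
    · intro hD3
      have hn' := null_of_D hg.pr l11 m12 m22 h11' hD3
      obtain ⟨ν, hν⟩ : ∃ ν : ℂ, ν = c12 / c11 := ⟨_, rfl⟩
      rw [← hν] at hn
      obtain ⟨ν', hν'⟩ : ∃ ν' : ℂ, ν' = (c00 - 1 * c01 - conj (1 : ℂ) * (conj c01 - 1 * c11) -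
        1 * (c01 - 1 * c02 - conj (1 : ℂ) * (c11 - 1 * c12))) /
        (c00 - 1 * c01 - conj (1 : ℂ) * (conj c01 - 1 * c11)) := ⟨_, rfl⟩
      rw [← hν'] at hn'
      have hn2 := hn'.sub hn
      rw [sub_zero] at hn2
      have hn3 : Tendsto (fun n => ((1 - ν') • b - (2 - ν - ν') • (T * b)) * p n) atTop (𝓝 0) := by
        refine hn2.congr (fun n => ?_)
        rw [← sub_mul]
        congr 1
        rw [T2, T1, hw1, hw2]
        simp only [one_smul]
        module
      -- independence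
      have q0 := (b00.comb (1 - ν') b00)
      have n0 : ∀ (w : A) (d0 d1 : ℂ), BL g p q w b d0 → BL g p q w (T * b) d1 →
          (1 - ν') * d0 - (2 - ν - ν') * d1 = 0 := by
        intro w d0 d1 h0 h1
        have h2 : BL g p q w (b - ν' • b) (d0 - ν' * d0) := h0.comb ν' h0
        have h3 := h2.comb (2 - ν - ν') h1
        have e1 : b - ν' • b - (2 - ν - ν') • (T * b) =
            (1 - ν') • b - (2 - ν - ν') • (T * b) := by module
        rw [e1] at h3
        have := BL.null_left' hg.ne hb hn3 h3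
        rw [← this]; ring
      have n1 := n0 _ _ _ b00 b01
      have n2 := n0 _ _ _ b10 b11
      have n3 : (1 - ν') * (c00 * c11 - c01 * conj c01) = 0 := by
        linear_combination c11 * n1 - c01 * n2
      have n4 : (2 - ν - ν') * (c00 * c11 - c01 * conj c01) = 0 := by
        linear_combination conj c01 * n1 - c00 * n2
      have n5 : 1 - ν' = 0 := (mul_eq_zero.1 n3).resolve_right hD1
      have n6 : 2 - ν - ν' = 0 := (mul_eq_zero.1 n4).resolve_right hD1
      have n7 : ν = 1 := by linear_combination n5 - n6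
      rw [n7, one_smul] at hn
      exact nnx hn
  · exact caseB' hA hs hg.pr hg.ne gT Tg gb bg hp gp hq gq b00 b01 b02 b11 b12 b22 h00 h11 hD1 hD2

end Pool.Agent.X205.AW
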