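import Pool.Agent.X205.AW.CaseB

/-!
Case A.
-/

open Filter Topology ComplexConjugate

namespace Pool.Agent.X205.AW

variable {A : Type*} [CStarAlgebra A]

theorem caseA_fin {g T X Y c c' : A} {l : ℂ} (hl0 : l ≠ 0) (hl1 : l ≠ 1)
    (hg : IsStarProjection g) (gT : g * T = T) (Tg : T * g = T) (gX : g * X = X) (Xg : X * g = X)
    (gY : g * Y = Y) (Yg : Y * g = Y)
    (gc : g * c = c) (cg : c * g = c) (gc' : g * c' = c') (c'g : c' * g = c')
    (YX : Y * X = g) (cc' : c * c' = g) (c'c : c' * c = g - X * Y)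
    {K η β ρ : ℝ} (hK : 1 ≤ K) (hY : ‖Y‖ ≤ K) (hc : ‖c‖ ≤ K) (hc' : ‖c'‖ ≤ 1)
    (hη : ‖T * X - l • X‖ ≤ η) (hβ : β = 2 * K * (‖T‖ + 1)) (hρ : ρ = ‖l * (1 - l)‖ / β)
    (h1 : K * η ≤ ρ / 2) (h2 : K * η * (ρ⁻¹ * 2) * (K * ‖T‖ + 1 + ‖l‖) ≤ β / 4) : CC g T := by
  have gg := mm hg
  have hT := norm_nonneg T
  have K0 : 0 < K := by linarith
  have β0 : 0 < β := by rw [hβ]; positivity
  have η0 : 0 ≤ η := (norm_nonneg _).trans hη
  have hll : l * (1 - l) ≠ 0 := mul_ne_zero hl0 (sub_ne_zero.2 (Ne.symm hl1))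
  have ρ0 : 0 < ρ := by rw [hρ]; exact div_pos (norm_pos_iff.2 hll) β0
  obtain ⟨r, hr⟩ : ∃ r : ℂ, r = l * (1 - l) / β := ⟨_, rfl⟩
  have βc : (β : ℂ) ≠ 0 := by exact_mod_cast β0.ne'
  have r0 : r ≠ 0 := by rw [hr]; exact div_ne_zero hll βc
  have rn : ‖r‖ = ρ := by
    rw [hr, hρ, norm_div, Complex.norm_real, Real.norm_eq_abs, abs_of_pos β0]
  obtain ⟨D, hD⟩ : ∃ D, D = T * X - l • X := ⟨_, rfl⟩
  have hDn : ‖D‖ ≤ η := by rw [hD]; exact hη
  have gD : g * D = D := by rw [hD, mul_sub, ← mul_assoc, gT, mul_smul_comm, gX]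
  have Dg : D * g = D := by rw [hD, sub_mul, mul_assoc, Xg, smul_mul_assoc, Xg]
  have cX : c * X = 0 := by
    have h : c * X = c * ((c' * c) * X) := by
      rw [← mul_assoc, ← mul_assoc, cc', gc]
    rw [h, c'c, sub_mul, mul_assoc X, YX, gX, Xg]; simp
  have TX : T * X = D + l • X := by rw [hD]; abel
  have cTX : c * (T * X) = c * D := by rw [TX, mul_add, mul_smul_comm, cX]; simp
  have YTX : Y * (T * X) - l • g = Y * D := by rw [TX, mul_add, mul_smul_comm, YX]; abel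
  have gn := proj_norm_le hg
  -- inverse of Q
  have hcor : ‖g - ((-r)⁻¹ • (c * D - r • g))‖ ≤ 1 / 2 := by
    have e1 : g - ((-r)⁻¹ • (c * D - r • g)) = r⁻¹ • (c * D) := by
      rw [smul_sub, smul_smul, neg_inv.symm, neg_smul, neg_mul, inv_mul_cancel₀ r0]
      simp
    rw [e1, norm_smul, norm_inv, rn]
    have h3 : ‖c * D‖ ≤ K * η := (norm_mul_le _ _).trans
      (mul_le_mul hc hDn (norm_nonneg _) K0.le)
    rw [inv_mul_le_iff₀ ρ0]
    linarith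
  obtain ⟨W, gW, Wg, w1, w2⟩ := near gg (N := (-r)⁻¹ • (c * D - r • g))
    (by rw [mul_smul_comm, mul_sub, ← mul_assoc, gc, mul_smul_comm, gg])
    (by rw [smul_mul_assoc, sub_mul, mul_assoc, Dg, smul_mul_assoc, gg])
    (lt_of_le_of_lt hcor (by norm_num))
  have Wn : ‖W‖ ≤ 2 := by
    have e1 : W = g + (g - ((-r)⁻¹ • (c * D - r • g))) * W := by
      rw [sub_mul, w1, gW]; abel
    have h4 : ‖W‖ ≤ 1 + 1 / 2 * ‖W‖ := by
      calc ‖W‖ = ‖g + (g - ((-r)⁻¹ • (c * D - r • g))) * W‖ := by rw [← e1]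
        _ ≤ ‖g‖ + ‖g - ((-r)⁻¹ • (c * D - r • g))‖ * ‖W‖ :=
            (norm_add_le _ _).trans (add_le_add le_rfl (norm_mul_le _ _))
        _ ≤ 1 + 1 / 2 * ‖W‖ := add_le_add gn (mul_le_mul_of_nonneg_right hcor (norm_nonneg _))
    linarith
  obtain ⟨Qi, hQi⟩ : ∃ Qi, Qi = (-r)⁻¹ • W := ⟨_, rfl⟩
  have gQi : g * Qi = Qi := by rw [hQi, mul_smul_comm, gW]
  have Qin : ‖Qi‖ ≤ ρ⁻¹ * 2 := by
    rw [hQi, norm_smul, norm_inv, norm_neg, rn]
    exact mul_le_mul_of_nonneg_left Wn (by positivity)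
  obtain ⟨E, hE⟩ : ∃ E, E = Y * (T * c') - Y * D * Qi * (c * (T * c') - (1 - l) • g) := ⟨_, rfl⟩
  have gE : g * E = E := by rw [hE, mul_sub]; simp only [← mul_assoc, gY]
  have Eg : E * g = E := by
    have k1 : (Y * (T * c')) * g = Y * (T * c') := by rw [mul_assoc, mul_assoc, c'g]
    have k2 : (c * (T * c') - (1 - l) • g) * g = c * (T * c') - (1 - l) • g := by
      rw [sub_mul, mul_assoc, mul_assoc, c'g, smul_mul_assoc, gg]
    rw [hE, sub_mul, k1, mul_assoc (Y * D * Qi), k2]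
  have En : ‖E‖ ≤ 3 / 4 * β := by
    have k1 : ‖Y * (T * c')‖ ≤ K * ‖T‖ := by
      calc ‖Y * (T * c')‖ ≤ ‖Y‖ * (‖T‖ * ‖c'‖) :=
            (norm_mul_le _ _).trans (mul_le_mul_of_nonneg_left (norm_mul_le _ _) (norm_nonneg _))
        _ ≤ K * (‖T‖ * 1) := by
            refine mul_le_mul hY (mul_le_mul_of_nonneg_left hc' hT) (by positivity) K0.le
        _ = _ := by ring
    have k2 : ‖c * (T * c') - (1 - l) • g‖ ≤ K * ‖T‖ + 1 + ‖l‖ := by
      have k3 : ‖c * (T * c')‖ ≤ K * ‖T‖ := by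
        calc ‖c * (T * c')‖ ≤ ‖c‖ * (‖T‖ * ‖c'‖) :=
              (norm_mul_le _ _).trans (mul_le_mul_of_nonneg_left (norm_mul_le _ _) (norm_nonneg _))
          _ ≤ K * (‖T‖ * 1) := by
              refine mul_le_mul hc (mul_le_mul_of_nonneg_left hc' hT) (by positivity) K0.le
          _ = _ := by ring
      have k4 : ‖(1 - l) • g‖ ≤ 1 + ‖l‖ := by
        rw [norm_smul]
        calc ‖1 - l‖ * ‖g‖ ≤ (1 + ‖l‖) * 1 := by
              refine mul_le_mul ?_ gn (norm_nonneg _) (by positivity)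
              have := norm_sub_le (1 : ℂ) l
              rwa [norm_one] at this
          _ = _ := mul_one _
      calc _ ≤ _ + _ := norm_sub_le _ _
        _ ≤ K * ‖T‖ + (1 + ‖l‖) := add_le_add k3 k4
        _ = _ := by ring
    have k5 : ‖Y * D * Qi * (c * (T * c') - (1 - l) • g)‖ ≤
        K * η * (ρ⁻¹ * 2) * (K * ‖T‖ + 1 + ‖l‖) := by
      have k6 : ‖Y * D‖ ≤ K * η := (norm_mul_le _ _).trans
        (mul_le_mul hY hDn (norm_nonneg _) K0.le)
      have k7 : ‖Y * D * Qi‖ ≤ K * η * (ρ⁻¹ * 2) := (norm_mul_le _ _).trans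
        (mul_le_mul k6 Qin (norm_nonneg _) (by positivity))
      exact (norm_mul_le _ _).trans (mul_le_mul k7 k2 (norm_nonneg _) (by positivity))
    have k8 : K * ‖T‖ ≤ β / 2 := by rw [hβ]; nlinarith
    rw [hE]
    calc _ ≤ _ + _ := norm_sub_le _ _
      _ ≤ β / 2 + β / 4 := add_le_add (k1.trans k8) (k5.trans h2)
      _ = _ := by ring
  have hcor2 : ‖g - ((-(β : ℂ))⁻¹ • (E - (β : ℂ) • g))‖ < 1 := by
    have e1 : g - ((-(β : ℂ))⁻¹ • (E - (β : ℂ) • g)) = (β : ℂ)⁻¹ • E := by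
      rw [smul_sub, smul_smul, neg_inv.symm, neg_smul, neg_mul, inv_mul_cancel₀ βc]
      simp
    rw [e1, norm_smul, norm_inv, Complex.norm_real, Real.norm_eq_abs, abs_of_pos β0,
      inv_mul_lt_iff₀ β0]
    linarith
  obtain ⟨W', gW', Wg', w1', w2'⟩ := near gg (N := (-(β : ℂ))⁻¹ • (E - (β : ℂ) • g))
    (by rw [mul_smul_comm, mul_sub, gE, mul_smul_comm, gg])
    (by rw [smul_mul_assoc, sub_mul, Eg, smul_mul_assoc, gg]) hcor2
  have hV : Y * (T * c') - (β : ℂ) • g - (Y * (T * X) - l • g) * Qi *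
      (c * (T * c') - (1 - l) • g) = E - (β : ℂ) • g := by
    rw [YTX, hE]; abel
  refine blockA (g := g) (T := T) (X := X) (Y := Y) (c := c) (c' := c') (Qi := Qi)
    (Vi := (-(β : ℂ))⁻¹ • W') (l := l) (b := (β : ℂ)) (r := r) hl0 (by rw [hr]; field_simp) gg gT Tg
    gX Xg gY Yg gc cg gc' c'g YX cc' c'c ?_ ?_ ?_ ?_
  · rw [cTX, hQi, mul_smul_comm, ← smul_mul_assoc]; exact w1
  · rw [cTX, hQi, smul_mul_assoc, ← mul_smul_comm]; exact w2
  · rw [hV, mul_smul_comm, ← smul_mul_assoc]; exact w1'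
  · rw [hV, smul_mul_assoc, ← mul_smul_comm]; exact w2'

theorem caseA (hA : IsAWStar A) {s1 s2 : A} (hs : Prop2 s1 s2)
    {g T b : A} (hg : IsStarProjection g) (gT : g * T = T) (Tg : T * g = T)
    (gb : g * b = b)
    {p q : ℕ → A} (hp : ∀ n, star (p n) * p n = g) (hq : ∀ n, star (q n) * q n = g)
    {G00 l : ℂ} (hG00 : G00 ≠ 0) (hl0 : l ≠ 0) (hl1 : l ≠ 1)
    (b00 : BL g p q b b G00)
    (hnull : Tendsto (fun n => (T * b - l • b) * p n) atTop (𝓝 0)) : CC g T := by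
  have gg := mm hg
  have gs := ss hg
  have pg : ∀ n, p n * g = p n := fun n => iso_right hg (hp n)
  have qg : ∀ n, q n * g = q n := fun n => iso_right hg (hq n)
  obtain ⟨X, hX⟩ : ∃ X : ℕ → A, ∀ n, X n = b * p n := ⟨fun n => b * p n, fun n => rfl⟩
  obtain ⟨Z, hZ⟩ : ∃ Z : ℕ → A, ∀ n, Z n = b * q n := ⟨fun n => b * q n, fun n => rfl⟩
  have gX : ∀ n, g * X n = X n := fun n => by rw [hX, ← mul_assoc, gb]
  have Xg : ∀ n, X n * g = X n := fun n => by rw [hX, mul_assoc, pg]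
  have gZ : ∀ n, g * Z n = Z n := fun n => by rw [hZ, ← mul_assoc, gb]
  have Zg : ∀ n, Z n * g = Z n := fun n => by rw [hZ, mul_assoc, qg]
  have sXg : ∀ n, star (X n) * g = star (X n) := fun n => by
    have := congrArg star (gX n); rwa [star_mul, gs] at this
  have gsX : ∀ n, g * star (X n) = star (X n) := fun n => by
    have := congrArg star (Xg n); rwa [star_mul, gs] at this
  have gsZ : ∀ n, g * star (Z n) = star (Z n) := fun n => by
    have := congrArg star (Zg n); rwa [star_mul, gs] at this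
  have Xn : ∀ n, ‖X n‖ ≤ ‖b‖ := fun n => by
    rw [hX]
    calc ‖b * p n‖ ≤ ‖b‖ * ‖p n‖ := norm_mul_le _ _
      _ ≤ ‖b‖ * 1 := mul_le_mul_of_nonneg_left (iso_norm hg (hp n)) (norm_nonneg _)
      _ = _ := mul_one _
  have AXX : Tendsto (fun n => star (X n) * X n) atTop (𝓝 (G00 • g)) := by
    refine b00.pp.congr (fun n => ?_); rw [hX]
  have AXZ : Tendsto (fun n => star (X n) * Z n) atTop (𝓝 ((0 : ℂ) • g)) := by
    refine (tz b00.pq).congr (fun n => ?_); rw [hZ, hX]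
  have AZZ : Tendsto (fun n => star (Z n) * Z n) atTop (𝓝 (G00 • g)) := by
    refine b00.qq.congr (fun n => ?_); rw [hZ]
  have AZX : Tendsto (fun n => star (Z n) * X n) atTop (𝓝 ((0 : ℂ) • g)) := by
    refine (tz b00.qp).congr (fun n => ?_); rw [hZ, hX]
  obtain ⟨i, gi, ig, hi, li⟩ := inv_lim gg (N := fun n => star (X n) * X n)
    (fun n => by show g * (star (X n) * X n) = _; rw [← mul_assoc, gsX])
    (fun n => by show (star (X n) * X n) * g = _; rw [mul_assoc, Xg]) hG00 AXX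
  obtain ⟨Y, hY⟩ : ∃ Y : ℕ → A, ∀ n, Y n = i n * star (X n) := ⟨_, fun n => rfl⟩
  have lroom : Tendsto (fun n => star (Z n) * (g - X n * Y n) * Z n) atTop
      (𝓝 ((G00 - 0 * (G00⁻¹ * 0)) • g)) := by
    refine (tsub AZZ (tmul gg AZX (tmul gg li AXZ))).congr (fun n => ?_)
    have e1 : star (Z n) * (g - X n * Y n) * Z n =
      star (Z n) * (g * Z n) - (star (Z n) * X n) * (Y n * Z n) := by noncomm_ring
    rw [e1, gZ, hY, mul_assoc (i n)]
  obtain ⟨V, gV, Vg, hV, _⟩ := inv_lim gg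
    (N := fun n => star (Z n) * (g - X n * Y n) * Z n)
    (fun n => by show g * (star (Z n) * _ * Z n) = _; rw [← mul_assoc, ← mul_assoc, gsZ])
    (fun n => by show (_ * Z n) * g = _; rw [mul_assoc _ (Z n) g, Zg])
    (by simpa using hG00) lroom
  -- bounds
  obtain ⟨κ, hκ⟩ : ∃ κ : ℝ, κ = (‖G00⁻¹ • g‖ + 1) * ‖b‖ := ⟨_, rfl⟩
  have κ0 : 0 ≤ κ := by rw [hκ]; positivity
  have hin : ∀ᶠ n in atTop, ‖i n‖ ≤ ‖G00⁻¹ • g‖ + 1 := by
    have := li.norm.eventually (gt_mem_nhds (show ‖G00⁻¹ • g‖ < ‖G00⁻¹ • g‖ + 1 by linarith))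
    filter_upwards [this] with n hn using hn.le
  obtain ⟨K, hK⟩ : ∃ K : ℝ, K = 1 + κ + ‖b‖ * κ := ⟨_, rfl⟩
  have bκ : 0 ≤ ‖b‖ * κ := by positivity
  have K1 : 1 ≤ K := by rw [hK]; linarith
  have K0 : 0 < K := by linarith
  obtain ⟨β, hβ⟩ : ∃ β : ℝ, β = 2 * K * (‖T‖ + 1) := ⟨_, rfl⟩
  have β0 : 0 < β := by rw [hβ]; positivity
  have hll : l * (1 - l) ≠ 0 := mul_ne_zero hl0 (sub_ne_zero.2 (Ne.symm hl1))
  obtain ⟨ρ, hρ⟩ : ∃ ρ : ℝ, ρ = ‖l * (1 - l)‖ / β := ⟨_, rfl⟩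
  have ρ0 : 0 < ρ := by rw [hρ]; exact div_pos (norm_pos_iff.2 hll) β0
  obtain ⟨M, hM⟩ : ∃ M : ℝ, M = K * ‖T‖ + 1 + ‖l‖ := ⟨_, rfl⟩
  have M1 : 1 ≤ M := by
    have h1 : 0 ≤ K * ‖T‖ := by positivity
    have h2 := norm_nonneg l
    rw [hM]; linarith
  have M0 : 0 < M := by linarith
  obtain ⟨η, hη⟩ : ∃ η : ℝ, η = ρ * β / (8 * K * M * (β + 1)) := ⟨_, rfl⟩
  have η0 : 0 < η := by rw [hη]; positivity
  have hDn : ∀ᶠ n in atTop, ‖(T * b - l • b) * p n‖ ≤ η := by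
    have h1 := hnull.norm
    rw [norm_zero] at h1
    filter_upwards [h1.eventually (gt_mem_nhds η0)] with n hn using hn.le
  obtain ⟨n, h1, h2, h3, h4⟩ := (((hi.and hV).and hin).and hDn).exists.imp (fun n h =>
    (⟨h.1.1.1, h.1.1.2, h.1.2, h.2⟩ : _ ∧ _ ∧ _ ∧ _))
  have YX : Y n * X n = g := by rw [hY, mul_assoc]; exact h1.2
  have gY : g * Y n = Y n := by rw [hY, ← mul_assoc, gi]
  have Yg : Y n * g = Y n := by rw [hY, mul_assoc, sXg]
  have Yn : ‖Y n‖ ≤ κ := by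
    rw [hY, hκ]
    refine (norm_mul_le _ _).trans (mul_le_mul h3 ?_ (norm_nonneg _) (by positivity))
    rw [norm_star]; exact Xn n
  obtain ⟨f, hf⟩ : ∃ f, f = g - X n * Y n := ⟨_, rfl⟩
  have gf : g * f = f := by rw [hf, mul_sub, gg, ← mul_assoc, gX]
  have fg : f * g = f := by rw [hf, sub_mul, gg, mul_assoc, Yg]
  have Yf : Y n * f = 0 := by rw [hf, mul_sub, Yg, ← mul_assoc, YX, gY, sub_self]
  have ff : f * f = f := by
    nth_rewrite 1 [hf]
    rw [sub_mul, gf, mul_assoc, Yf]; simp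
  have fn : ‖f‖ ≤ 1 + ‖b‖ * κ := by
    rw [hf]
    calc _ ≤ ‖g‖ + ‖X n * Y n‖ := norm_sub_le _ _
      _ ≤ 1 + ‖b‖ * κ := add_le_add (proj_norm_le hg) ((norm_mul_le _ _).trans
          (mul_le_mul (Xn n) Yn (norm_nonneg _) (norm_nonneg _)))
  obtain ⟨c, c', gc, cg, gc', c'g, cc', c'c, nc', nc⟩ := room hA hs (g := g) (f := f)
    (z1 := star (Z n)) (z2 := Z n) (V := V n) hg ff gf fg (Zg n) (by rw [hf]; exact h2.2)
  refine caseA_fin (K := K) (η := η) (β := β) (ρ := ρ) hl0 hl1 hg gT Tg (gX n) (Xg n) gY Yg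
    gc cg gc' c'g YX cc' (by rw [c'c, hf]) K1 (by rw [hK]; linarith) (by rw [hK]; linarith) nc'
    (by
      have e1 : T * X n - l • X n = (T * b - l • b) * p n := by
        rw [hX, sub_mul, smul_mul_assoc, mul_assoc]
      rw [e1]; exact h4) hβ hρ ?_ ?_
  · have e1 : K * η = (ρ / 8) * (β / (M * (β + 1))) := by rw [hη]; field_simp
    have e2 : β / (M * (β + 1)) ≤ 1 := by
      rw [div_le_one (by positivity)]
      nlinarith
    rw [e1]
    calc (ρ / 8) * (β / (M * (β + 1))) ≤ (ρ / 8) * 1 :=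
          mul_le_mul_of_nonneg_left e2 (by positivity)
      _ ≤ ρ / 2 := by linarith
  · rw [← hM]
    have e1 : K * η * (ρ⁻¹ * 2) * M = (β / 4) * (1 / (β + 1)) := by rw [hη]; field_simp; ring
    have e2 : 1 / (β + 1) ≤ 1 := by
      rw [div_le_one (by positivity)]; linarith
    rw [e1]
    calc (β / 4) * (1 / (β + 1)) ≤ (β / 4) * 1 := mul_le_mul_of_nonneg_left e2 (by positivity)
      _ = β / 4 := mul_one _

end Pool.Agent.X205.AW
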