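import Pool.Agent.X205.AW.Lim

/-!
Case B.
-/

open Filter Topology ComplexConjugate

namespace Pool.Agent.X205.AW

variable {A : Type*} [CStarAlgebra A]

theorem tmul {g : A} (hg : g * g = g) {N M : ℕ → A} {c d : ℂ}
    (h1 : Tendsto N atTop (𝓝 (c • g))) (h2 : Tendsto M atTop (𝓝 (d • g))) :
    Tendsto (fun n => N n * M n) atTop (𝓝 ((c * d) • g)) := by
  have := h1.mul h2
  rwa [smul_mul_smul_comm, hg] at this

theorem tsub {g : A} {N M : ℕ → A} {c d : ℂ}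
    (h1 : Tendsto N atTop (𝓝 (c • g))) (h2 : Tendsto M atTop (𝓝 (d • g))) :
    Tendsto (fun n => N n - M n) atTop (𝓝 ((c - d) • g)) := by
  have := h1.sub h2
  rwa [← sub_smul] at this

theorem tz {g : A} {N : ℕ → A} (h : Tendsto N atTop (𝓝 0)) :
    Tendsto N atTop (𝓝 ((0 : ℂ) • g)) := by rwa [zero_smul]

theorem caseB (hA : IsAWStar A) {s1 s2 : A} (hs : Prop2 s1 s2)
    {g T b z1 : A} (hg : IsStarProjection g) (gT : g * T = T) (Tg : T * g = T)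
    (gb : g * b = b) (bg : b * g = b) (gz : g * z1 = z1)
    {p q : ℕ → A} (hp : ∀ n, star (p n) * p n = g) (gp : ∀ n, g * p n = p n)
    (hq : ∀ n, star (q n) * q n = g) (gq : ∀ n, g * q n = q n)
    {G00 G10 G11 G12 G01 c1 c4 : ℂ}
    (hG00 : G00 ≠ 0) (hG11 : G11 ≠ 0) (hc1 : c1 ≠ 0) (hc4 : c4 ≠ 0)
    (b00 : BL g p q b b G00) (b10 : BL g p q (T * b) b G10) (b11 : BL g p q (T * b) (T * b) G11)
    (b01 : BL g p q b (T * b) G01)
    (b12 : BL g p q (T * b) (T * (T * b)) G12) (z0 : BL g p q z1 b c1)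
    (z11 : BL g p q z1 (T * b) 0) (z2 : BL g p q z1 (T * (T * b)) c4) : CC g T := by
  have gg := mm hg
  have gs := ss hg
  have pg : ∀ n, p n * g = p n := fun n => iso_right hg (hp n)
  have qg : ∀ n, q n * g = q n := fun n => iso_right hg (hq n)
  -- basic sequences
  obtain ⟨X, hX⟩ : ∃ X : ℕ → A, ∀ n, X n = b * p n := ⟨fun n => b * p n, fun n => rfl⟩
  obtain ⟨Z, hZ⟩ : ∃ Z : ℕ → A, ∀ n, Z n = b * q n := ⟨fun n => b * q n, fun n => rfl⟩
  obtain ⟨Y1, hY1⟩ : ∃ Y : ℕ → A, ∀ n, Y n = star (z1 * p n) := ⟨fun n => star (z1 * p n), fun n => rfl⟩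
  obtain ⟨Y2, hY2⟩ : ∃ Y : ℕ → A, ∀ n, Y n = star (T * b * p n) := ⟨fun n => star (T * b * p n), fun n => rfl⟩
  have gX : ∀ n, g * X n = X n := fun n => by rw [hX, ← mul_assoc, gb]
  have Xg : ∀ n, X n * g = X n := fun n => by rw [hX, mul_assoc, pg]
  have gZ : ∀ n, g * Z n = Z n := fun n => by rw [hZ, ← mul_assoc, gb]
  have Zg : ∀ n, Z n * g = Z n := fun n => by rw [hZ, mul_assoc, qg]
  have Y1g : ∀ n, Y1 n * g = Y1 n := fun n => by
    have : g * (z1 * p n) = z1 * p n := by rw [← mul_assoc, gz]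
    have := congrArg star this; rw [star_mul, gs] at this; rw [hY1]; exact this
  have gY1 : ∀ n, g * Y1 n = Y1 n := fun n => by
    have : (z1 * p n) * g = z1 * p n := by rw [mul_assoc, pg]
    have := congrArg star this; rw [star_mul, gs] at this; rw [hY1]; exact this
  have Y2g : ∀ n, Y2 n * g = Y2 n := fun n => by
    have : g * (T * b * p n) = T * b * p n := by rw [← mul_assoc, ← mul_assoc, gT]
    have := congrArg star this; rw [star_mul, gs] at this; rw [hY2]; exact this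
  have gY2 : ∀ n, g * Y2 n = Y2 n := fun n => by
    have : (T * b * p n) * g = T * b * p n := by rw [mul_assoc, pg]
    have := congrArg star this; rw [star_mul, gs] at this; rw [hY2]; exact this
  have TX : ∀ n, T * b * p n = T * X n := fun n => by rw [hX, mul_assoc]
  have TTX : ∀ n, T * (T * b) * p n = T * (T * X n) := fun n => by rw [hX]; noncomm_ring
  -- limits
  have A11 : Tendsto (fun n => Y1 n * X n) atTop (𝓝 (c1 • g)) := by
    refine z0.pp.congr (fun n => ?_); rw [hY1, hX]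
  have A12 : Tendsto (fun n => Y1 n * (T * X n)) atTop (𝓝 ((0 : ℂ) • g)) := by
    refine z11.pp.congr (fun n => ?_); rw [hY1, TX]
  have A13 : Tendsto (fun n => Y1 n * (T * (T * X n))) atTop (𝓝 (c4 • g)) := by
    refine z2.pp.congr (fun n => ?_); rw [hY1, TTX]
  have A21 : Tendsto (fun n => Y2 n * X n) atTop (𝓝 (G10 • g)) := by
    refine b10.pp.congr (fun n => ?_); rw [hY2, hX]
  have A22 : Tendsto (fun n => Y2 n * (T * X n)) atTop (𝓝 (G11 • g)) := by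
    refine b11.pp.congr (fun n => ?_); rw [hY2, TX]
  have A23 : Tendsto (fun n => Y2 n * (T * (T * X n))) atTop (𝓝 (G12 • g)) := by
    refine b12.pp.congr (fun n => ?_); rw [hY2, TTX]
  have A1Z : Tendsto (fun n => Y1 n * Z n) atTop (𝓝 ((0 : ℂ) • g)) := by
    refine (tz z0.pq).congr (fun n => ?_); rw [hY1, hZ]
  have A2Z : Tendsto (fun n => Y2 n * Z n) atTop (𝓝 ((0 : ℂ) • g)) := by
    refine (tz b10.pq).congr (fun n => ?_); rw [hY2, hZ]
  have AZZ : Tendsto (fun n => star (Z n) * Z n) atTop (𝓝 (G00 • g)) := by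
    refine b00.qq.congr (fun n => ?_); rw [hZ]
  have AZX : Tendsto (fun n => star (Z n) * X n) atTop (𝓝 ((0 : ℂ) • g)) := by
    refine (tz b00.qp).congr (fun n => ?_); rw [hZ, hX]
  have AZTX : Tendsto (fun n => star (Z n) * (T * X n)) atTop (𝓝 ((0 : ℂ) • g)) := by
    refine (tz b01.qp).congr (fun n => ?_); rw [hZ, TX]
  -- first normalization
  obtain ⟨i1, gi1, i1g, hi1, li1⟩ := inv_lim gg (N := fun n => Y1 n * X n)
    (fun n => by show g * (Y1 n * X n) = _; rw [← mul_assoc, gY1])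
    (fun n => by show (Y1 n * X n) * g = _; rw [mul_assoc, Xg]) hc1 A11
  obtain ⟨y1, hy1⟩ : ∃ y : ℕ → A, ∀ n, y n = i1 n * Y1 n := ⟨_, fun n => rfl⟩
  obtain ⟨e12, he12⟩ : ∃ y : ℕ → A, ∀ n, y n = y1 n * (T * X n) := ⟨_, fun n => rfl⟩
  obtain ⟨y2, hy2⟩ : ∃ y : ℕ → A, ∀ n, y n = Y2 n - Y2 n * X n * y1 n := ⟨_, fun n => rfl⟩
  have gy1 : ∀ n, g * y1 n = y1 n := fun n => by rw [hy1, ← mul_assoc, gi1]
  have y1g : ∀ n, y1 n * g = y1 n := fun n => by rw [hy1, mul_assoc, Y1g]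
  have gy2 : ∀ n, g * y2 n = y2 n := fun n => by
    rw [hy2, mul_sub, ← mul_assoc, ← mul_assoc, gY2]
  have y2g : ∀ n, y2 n * g = y2 n := fun n => by
    rw [hy2, sub_mul, mul_assoc _ (y1 n) g, y1g, Y2g]
  have ly1X : Tendsto (fun n => y1 n * (T * X n)) atTop (𝓝 ((c1⁻¹ * 0) • g)) := by
    refine (tmul gg li1 A12).congr (fun n => ?_); rw [hy1, mul_assoc]
  have ly1T : Tendsto (fun n => y1 n * (T * (T * X n))) atTop (𝓝 ((c1⁻¹ * c4) • g)) := by
    refine (tmul gg li1 A13).congr (fun n => ?_); rw [hy1, mul_assoc]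
  have ly1Z : Tendsto (fun n => y1 n * Z n) atTop (𝓝 ((c1⁻¹ * 0) • g)) := by
    refine (tmul gg li1 A1Z).congr (fun n => ?_); rw [hy1, mul_assoc]
  have ly2X : Tendsto (fun n => y2 n * (T * X n)) atTop (𝓝 ((G11 - G10 * (c1⁻¹ * 0)) • g)) := by
    refine (tsub A22 (tmul gg A21 ly1X)).congr (fun n => ?_); rw [hy2]; noncomm_ring
  have ly2T : Tendsto (fun n => y2 n * (T * (T * X n))) atTop
      (𝓝 ((G12 - G10 * (c1⁻¹ * c4)) • g)) := by
    refine (tsub A23 (tmul gg A21 ly1T)).congr (fun n => ?_); rw [hy2]; noncomm_ring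
  have ly2Z : Tendsto (fun n => y2 n * Z n) atTop (𝓝 ((0 - G10 * (c1⁻¹ * 0)) • g)) := by
    refine (tsub A2Z (tmul gg A21 ly1Z)).congr (fun n => ?_); rw [hy2]; noncomm_ring
  have hG11' : G11 - G10 * (c1⁻¹ * 0) ≠ 0 := by simpa using hG11
  obtain ⟨i2, gi2, i2g, hi2, li2⟩ := inv_lim gg (N := fun n => y2 n * (T * X n))
    (fun n => by show g * (y2 n * (T * X n)) = _; rw [← mul_assoc, gy2])
    (fun n => by show (y2 n * (T * X n)) * g = _; rw [mul_assoc, mul_assoc, Xg]) hG11' ly2X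
  obtain ⟨v2, hv2⟩ : ∃ y : ℕ → A, ∀ n, y n = i2 n * y2 n := ⟨_, fun n => rfl⟩
  obtain ⟨v1, hv1⟩ : ∃ y : ℕ → A, ∀ n, y n = y1 n - y1 n * (T * X n) * v2 n := ⟨_, fun n => rfl⟩
  have gv2 : ∀ n, g * v2 n = v2 n := fun n => by rw [hv2, ← mul_assoc, gi2]
  have v2g : ∀ n, v2 n * g = v2 n := fun n => by rw [hv2, mul_assoc, y2g]
  have gv1 : ∀ n, g * v1 n = v1 n := fun n => by
    rw [hv1, mul_sub, ← mul_assoc, ← mul_assoc, gy1]
  have v1g : ∀ n, v1 n * g = v1 n := fun n => by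
    rw [hv1, sub_mul, mul_assoc _ (v2 n) g, v2g, y1g]
  have lv2T : Tendsto (fun n => v2 n * (T * (T * X n))) atTop
      (𝓝 (((G11 - G10 * (c1⁻¹ * 0))⁻¹ * (G12 - G10 * (c1⁻¹ * c4))) • g)) := by
    refine (tmul gg li2 ly2T).congr (fun n => ?_); rw [hv2, mul_assoc]
  have lv2Z : Tendsto (fun n => v2 n * Z n) atTop
      (𝓝 (((G11 - G10 * (c1⁻¹ * 0))⁻¹ * (0 - G10 * (c1⁻¹ * 0))) • g)) := by
    refine (tmul gg li2 ly2Z).congr (fun n => ?_); rw [hv2, mul_assoc]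
  have lv1T : Tendsto (fun n => v1 n * (T * (T * X n))) atTop (𝓝 ((c1⁻¹ * c4 - (c1⁻¹ * 0) *
      ((G11 - G10 * (c1⁻¹ * 0))⁻¹ * (G12 - G10 * (c1⁻¹ * c4)))) • g)) := by
    refine (tsub ly1T (tmul gg ly1X lv2T)).congr (fun n => ?_)
    rw [hv1]; noncomm_ring
  have lv1Z : Tendsto (fun n => v1 n * Z n) atTop (𝓝 ((c1⁻¹ * 0 - (c1⁻¹ * 0) *
      ((G11 - G10 * (c1⁻¹ * 0))⁻¹ * (0 - G10 * (c1⁻¹ * 0)))) • g)) := by
    refine (tsub ly1Z (tmul gg ly1X lv2Z)).congr (fun n => ?_)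
    rw [hv1]; noncomm_ring
  have hτ : c1⁻¹ * c4 - (c1⁻¹ * 0) *
      ((G11 - G10 * (c1⁻¹ * 0))⁻¹ * (G12 - G10 * (c1⁻¹ * c4))) ≠ 0 := by
    have : c1⁻¹ * c4 ≠ 0 := mul_ne_zero (inv_ne_zero hc1) hc4
    simpa using this
  obtain ⟨ti, gti, tig, hti, _⟩ := inv_lim gg (N := fun n => v1 n * (T * (T * X n)))
    (fun n => by show g * (v1 n * _) = _; rw [← mul_assoc, gv1])
    (fun n => by show (v1 n * (T * (T * X n))) * g = _; simp only [mul_assoc, Xg]) hτ lv1T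
  have lroom : Tendsto (fun n => star (Z n) * (g - (X n * v1 n + T * X n * v2 n)) * Z n) atTop
      (𝓝 ((G00 - 0 * (c1⁻¹ * 0 - (c1⁻¹ * 0) *
      ((G11 - G10 * (c1⁻¹ * 0))⁻¹ * (0 - G10 * (c1⁻¹ * 0)))) -
      0 * (((G11 - G10 * (c1⁻¹ * 0))⁻¹ * (0 - G10 * (c1⁻¹ * 0))))) • g)) := by
    refine (tsub (tsub AZZ (tmul gg AZX lv1Z)) (tmul gg AZTX lv2Z)).congr (fun n => ?_)
    have e1 : star (Z n) * (g - (X n * v1 n + T * X n * v2 n)) * Z n =
      star (Z n) * (g * Z n) - (star (Z n) * X n) * (v1 n * Z n) -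
        (star (Z n) * (T * X n)) * (v2 n * Z n) := by noncomm_ring
    rw [e1, gZ]
  have sZg : ∀ n, star (Z n) * g = star (Z n) := fun n => by
    have := congrArg star (gZ n); rwa [star_mul, gs] at this
  have gsZ : ∀ n, g * star (Z n) = star (Z n) := fun n => by
    have := congrArg star (Zg n); rwa [star_mul, gs] at this
  obtain ⟨V, gV, Vg, hV, _⟩ := inv_lim gg
    (N := fun n => star (Z n) * (g - (X n * v1 n + T * X n * v2 n)) * Z n)
    (fun n => by show g * (star (Z n) * _ * Z n) = _; rw [← mul_assoc, ← mul_assoc, gsZ])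
    (fun n => by show (_ * Z n) * g = _; rw [mul_assoc _ (Z n) g, Zg])
    (by simpa using hG00) lroom
  obtain ⟨n, h1, h2, h3, h4⟩ := (((hi1.and hi2).and hti).and hV).exists.imp (fun n h =>
    (⟨h.1.1.1, h.1.1.2, h.1.2, h.2⟩ : _ ∧ _ ∧ _ ∧ _))
  have d1 : y1 n * X n = g := by rw [hy1, mul_assoc]; exact h1.2
  have d2 : y2 n * X n = 0 := by
    rw [hy2, sub_mul, mul_assoc _ (y1 n), d1, mul_assoc _ (X n) g, Xg, sub_self]
  have d21 : v2 n * X n = 0 := by rw [hv2, mul_assoc, d2, mul_zero]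
  have d22 : v2 n * (T * X n) = g := by rw [hv2, mul_assoc]; exact h2.2
  have d11 : v1 n * X n = g := by rw [hv1, sub_mul, mul_assoc _ (v2 n), d21, mul_zero, sub_zero, d1]
  have d12 : v1 n * (T * X n) = 0 := by
    rw [hv1, sub_mul, mul_assoc _ (v2 n), d22, mul_assoc _ _ g, mul_assoc T, Xg, sub_self]
  obtain ⟨f, hf⟩ : ∃ f, f = g - (X n * v1 n + T * X n * v2 n) := ⟨_, rfl⟩
  have gf : g * f = f := by
    rw [hf, mul_sub, gg, mul_add, ← mul_assoc, ← mul_assoc, ← mul_assoc, gX, gT]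
  have fg : f * g = f := by
    rw [hf, sub_mul, gg, add_mul, mul_assoc, mul_assoc _ (v2 n) g, v1g, v2g]
  have v1f : v1 n * f = 0 := by
    rw [hf, mul_sub, v1g, mul_add, ← mul_assoc, ← mul_assoc, d11, d12, gv1]; simp
  have v2f : v2 n * f = 0 := by
    rw [hf, mul_sub, v2g, mul_add, ← mul_assoc, ← mul_assoc, d21, d22, gv2]; simp
  have ff : f * f = f := by
    nth_rewrite 1 [hf]
    rw [sub_mul, gf, add_mul, mul_assoc, v1f, mul_assoc, v2f]; simp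
  obtain ⟨c, c', gc, cg, gc', c'g, cc', c'c, _, _⟩ := room hA hs (g := g) (f := f)
    (z1 := star (Z n)) (z2 := Z n) (V := V n) hg ff gf fg (Zg n) (by rw [hf]; exact h4.2)
  obtain ⟨E, hE⟩ : ∃ E, E = v2 n * T * c' - v2 n * (T * (T * X n)) * ti n * (v1 n * T * c') :=
    ⟨_, rfl⟩
  obtain ⟨σ, hσ⟩ : ∃ σ : ℝ, σ = ‖E‖ + 1 := ⟨_, rfl⟩
  have σ0 : 0 < σ := by rw [hσ]; positivity
  have gE : g * E = E := by
    rw [hE, mul_sub]; simp only [← mul_assoc, gv2]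
  have Eg : E * g = E := by
    rw [hE, sub_mul]; simp only [mul_assoc, c'g]
  have hcor : ‖g - ((-(σ : ℂ))⁻¹ • (E - (σ : ℂ) • g))‖ < 1 := by
    have e1 : g - ((-(σ : ℂ))⁻¹ • (E - (σ : ℂ) • g)) = (σ : ℂ)⁻¹ • E := by
      have hne : (σ : ℂ) ≠ 0 := by exact_mod_cast σ0.ne'
      rw [smul_sub, smul_smul, neg_inv.symm, neg_smul, neg_mul, inv_mul_cancel₀ hne]
      simp
    rw [e1, norm_smul, norm_inv, Complex.norm_real, Real.norm_eq_abs, abs_of_pos σ0,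
      inv_mul_lt_iff₀ σ0, hσ]
    linarith
  obtain ⟨W, gW, Wg, w1, w2⟩ := near gg (N := (-(σ : ℂ))⁻¹ • (E - (σ : ℂ) • g))
    (by rw [mul_smul_comm, mul_sub, gE, mul_smul_comm, gg])
    (by rw [smul_mul_assoc, sub_mul, Eg, smul_mul_assoc, gg]) hcor
  have hne : (σ : ℂ) ≠ 0 := by exact_mod_cast σ0.ne'
  have hE' : v2 n * T * c' - ((σ : ℂ)⁻¹)⁻¹ • g - v2 n * (T * (T * X n)) * ti n * (v1 n * T * c') =
      E - (σ : ℂ) • g := by rw [inv_inv, hE]; abel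
  refine blockB (g := g) (T := T) (x := X n) (y1 := v1 n) (y2 := v2 n) (c := c) (c' := c')
    (ti := ti n) (Vi := (-(σ : ℂ))⁻¹ • W) (s := (σ : ℂ)⁻¹) (inv_ne_zero hne) gg gT Tg (gX n) (Xg n)
    (gv1 n) (v1g n) (gv2 n) (v2g n) gc cg gc' c'g d11 d12 d21 d22 cc' (by rw [c'c, hf])
    (gti n) (tig n) h3.1 h3.2 (by rw [mul_smul_comm, gW]) (by rw [smul_mul_assoc, Wg]) ?_ ?_
  · rw [hE', mul_smul_comm, ← smul_mul_assoc]; exact w1
  · rw [hE', smul_mul_assoc, ← mul_smul_comm]; exact w2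

end Pool.Agent.X205.AW
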