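import Pool.Agent.X205.AW.Lub

/-!
Comparison theory in a factor.
-/

namespace Pool.Agent.X205.AW

variable {A : Type*} [CStarAlgebra A]

theorem Dom.trans {e f g : A} (h1 : Dom e f) (h2 : Dom f g) : Dom e g := by
  obtain ⟨v, hv, fv⟩ := h1
  obtain ⟨w, hw, gw⟩ := h2
  refine ⟨w * v, ?_, by rw [← mul_assoc, gw]⟩
  rw [star_mul, mul_assoc, ← mul_assoc (star w), hw, fv, hv]

theorem dom_of_le {e f : A} (he : IsStarProjection e) (hf : IsStarProjection f)
    (h : e * f = e) : Dom e f :=
  ⟨e, by rw [ss he, mm he], comm_of_le he hf h⟩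

theorem dom_refl {e : A} (he : IsStarProjection e) : Dom e e := dom_of_le he he (mm he)

theorem dom_of_equiv {v : A} (h : IsStarProjection (star v * v)) :
    Dom (star v * v) (v * star v) := ⟨v, rfl, by rw [mul_assoc, pi_mul h]⟩

theorem dom_of_equiv' {v : A} (h : IsStarProjection (star v * v)) :
    Dom (v * star v) (star v * v) := by
  have h1 := pi_star h
  have h2 : star (star v) * star v = v * star v := by rw [star_star]
  refine ⟨star v, h2, ?_⟩
  have := congrArg star (pi_mul h)
  rwa [star_mul, ss h] at this

theorem dom_add {a b a' b' : A}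
    (ha' : IsStarProjection a') (hb' : IsStarProjection b')
    (hab' : a' * b' = 0) (h1 : Dom a a') (h2 : Dom b b') : Dom (a + b) (a' + b') := by
  obtain ⟨v, hv, av⟩ := h1
  obtain ⟨w, hw, bw⟩ := h2
  have hba' := orth_symm ha' hb' hab'
  have e1 : star v * w = 0 := by
    have h3 : star v * a' = star v := by
      have := congrArg star av; rwa [star_mul, ss ha'] at this
    rw [← h3, ← bw, mul_assoc, ← mul_assoc a', hab']; simp
  have e2 : star w * v = 0 := by
    have := congrArg star e1; rwa [star_mul, star_star, star_zero] at this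
  have e3 : b' * v = 0 := by rw [← av, ← mul_assoc, hba', zero_mul]
  have e4 : a' * w = 0 := by rw [← bw, ← mul_assoc, hab', zero_mul]
  refine ⟨v + w, ?_, ?_⟩
  · rw [star_add, add_mul, mul_add, mul_add, hv, hw, e1, e2]; simp
  · rw [add_mul, mul_add, mul_add, av, bw, e3, e4]; simp

theorem proj_sub {p q : A} (hp : IsStarProjection p) (hq : IsStarProjection q)
    (h : p * q = p) : IsStarProjection (q - p) := by
  have h' := comm_of_le hp hq h
  refine ⟨?_, ?_⟩
  · show (q - p) * (q - p) = q - p
    rw [sub_mul, mul_sub, mul_sub, mm hq, h, h', mm hp]; abel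
  · show star (q - p) = q - p
    rw [star_sub, ss hp, ss hq]

theorem proj_add {p q : A} (hp : IsStarProjection p) (hq : IsStarProjection q)
    (h : p * q = 0) : IsStarProjection (p + q) := by
  have h' := orth_symm hp hq h
  refine ⟨?_, ?_⟩
  · show (p + q) * (p + q) = p + q
    rw [add_mul, mul_add, mul_add, mm hq, h, h', mm hp]; abel
  · show star (p + q) = p + q
    rw [star_add, ss hp, ss hq]

theorem range_of {v f : A} (hv : IsStarProjection (star v * v)) (fv : f * v = v) :
    f * (v * star v) = v * star v := by rw [← mul_assoc, fv]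

theorem pi_left {v : A} (hv : IsStarProjection (star v * v)) : (v * star v) * v = v := by
  rw [mul_assoc, pi_mul hv]

/-- Comparability of orthogonal projections in a factor. -/
theorem comp_orth (hA : IsAWStar A) (hF : IsFactor A) {e f : A} (he : IsStarProjection e)
    (hf : IsStarProjection f) (hef : e * f = 0) : Dom e f ∨ Dom f e := by
  obtain ⟨V, hV⟩ := zorn_subset {V : Set A | (∀ v ∈ V, IsStarProjection (star v * v) ∧
      (star v * v) * e = star v * v ∧ f * v = v) ∧
    ∀ v ∈ V, ∀ w ∈ V, v ≠ w → v * star w = 0 ∧ star v * w = 0} (by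
      intro c hc hch
      refine ⟨⋃₀ c, ⟨?_, ?_⟩, fun s hs => Set.subset_sUnion_of_mem hs⟩
      · rintro p ⟨S, hS, hp⟩; exact (hc hS).1 p hp
      · rintro p ⟨S, hS, hp⟩ q ⟨S', hS', hq⟩ hpq
        rcases hch.total hS hS' with h | h
        · exact (hc hS').2 p (h hp) q hq hpq
        · exact (hc hS).2 p hp q (h hq) hpq)
  obtain ⟨⟨h1, h2⟩, hmax⟩ := hV
  have hd : ∀ i j : V, i ≠ j → (i : A) * star (j : A) = 0 := fun i j hij =>
    (h2 i i.2 j j.2 (fun h => hij (Subtype.ext h))).1
  have hr : ∀ i j : V, i ≠ j → star (i : A) * (j : A) = 0 := fun i j hij =>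
    (h2 i i.2 j j.2 (fun h => hij (Subtype.ext h))).2
  obtain ⟨e', he'⟩ := hA.lub (Set.range fun i : V => star (i : A) * (i : A))
    (by rintro _ ⟨i, rfl⟩; exact (h1 i i.2).1) (by
      rintro _ ⟨i, rfl⟩ _ ⟨j, rfl⟩ hij
      have hne : i ≠ j := fun h => hij (by rw [h])
      show star (i : A) * (i : A) * (star (j : A) * (j : A)) = 0
      calc star (i : A) * (i : A) * (star (j : A) * (j : A)) =
          star (i : A) * ((i : A) * star (j : A)) * (j : A) := by noncomm_ring
        _ = 0 := by rw [hd i j hne]; simp)
  obtain ⟨f', hf'⟩ := hA.lub (Set.range fun i : V => (i : A) * star (i : A))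
    (by rintro _ ⟨i, rfl⟩; exact pi_star (h1 i i.2).1) (by
      rintro _ ⟨i, rfl⟩ _ ⟨j, rfl⟩ hij
      have hne : i ≠ j := fun h => hij (by rw [h])
      show (i : A) * star (i : A) * ((j : A) * star (j : A)) = 0
      calc (i : A) * star (i : A) * ((j : A) * star (j : A)) =
          (i : A) * (star (i : A) * (j : A)) * star (j : A) := by noncomm_ring
        _ = 0 := by rw [hr i j hne]; simp)
  have he' : IsSup _ e' := he'
  have hf' : IsSup _ f' := hf'
  have ee' : e' * e = e' := he'.2.2 e he (by rintro _ ⟨i, rfl⟩; exact (h1 i i.2).2.1)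
  have ff' : f' * f = f' := hf'.2.2 f hf (by
    rintro _ ⟨i, rfl⟩
    have := range_of (h1 i i.2).1 (h1 i i.2).2.2
    have h3 := congrArg star this
    simpa [star_mul, ss hf, mul_assoc] using h3)
  have hef' : e' * f' = 0 := by
    rw [← ee', ← comm_of_le hf'.1 hf ff', mul_assoc, ← mul_assoc e, hef]; simp
  obtain ⟨w, hw1, hw2⟩ := orth_add hA (v := fun i : V => (i : A)) (fun i => (h1 i i.2).1) hd hr
    he' hf' hef'
  by_cases hee : e = e'
  · left
    rw [hee]
    refine ⟨w, hw1, ?_⟩
    have : f' * w = w := by rw [← hw2]; exact pi_left (by rw [hw1]; exact he'.1)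
    rw [← this, ← mul_assoc, comm_of_le hf'.1 hf ff']
  by_cases hff : f = f'
  · right
    rw [hff]
    refine ⟨star w, by rw [star_star, hw2], ?_⟩
    have h3 : star w = e' * star w := by
      have := congrArg star (pi_mul (v := w) (by rw [hw1]; exact he'.1))
      rw [hw1, star_mul, ss he'.1] at this
      exact this.symm
    rw [h3, ← mul_assoc, comm_of_le he'.1 he ee']
  exfalso
  obtain ⟨u, hu0, hu1, hu2, hu3⟩ := exists_piece hA hF (proj_sub he'.1 he ee')
    (proj_sub hf'.1 hf ff') (sub_ne_zero.2 hee) (sub_ne_zero.2 hff)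
  have uu := pi_mul hu1
  have ue : u * e' = 0 := by
    rw [← uu, ← hu2, mul_assoc, mul_assoc, sub_mul, mm he'.1, comm_of_le he'.1 he ee', sub_self]
    simp
  have fu : f' * u = 0 := by
    rw [← hu3, ← mul_assoc, mul_sub, mm hf'.1, ff', sub_self, zero_mul]
  have hVe : ∀ v ∈ V, e' * star v = star v := by
    intro v hv
    have h3 : e' * (star v * v) = star v * v :=
      comm_of_le (h1 v hv).1 he'.1 (he'.2.1 _ ⟨⟨v, hv⟩, rfl⟩)
    have h4 := congrArg star (pi_mul (h1 v hv).1)
    rw [star_mul, ss (h1 v hv).1] at h4
    rw [← h4, ← mul_assoc, h3]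
  have hVf : ∀ v ∈ V, f' * v = v := by
    intro v hv
    have h3 : f' * (v * star v) = v * star v :=
      comm_of_le (pi_star (h1 v hv).1) hf'.1 (hf'.2.1 _ ⟨⟨v, hv⟩, rfl⟩)
    rw [← pi_left (h1 v hv).1, ← mul_assoc, h3]
  have o1 : ∀ v ∈ V, u * star v = 0 := fun v hv => by
    rw [← hVe v hv, ← mul_assoc, ue, zero_mul]
  have o2 : ∀ v ∈ V, star u * v = 0 := fun v hv => by
    have : star u * f' = 0 := by
      have := congrArg star fu; rwa [star_mul, ss hf'.1, star_zero] at this
    rw [← hVf v hv, ← mul_assoc, this, zero_mul]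
  have huV : u ∉ V := by
    intro h
    have := o2 u h
    rw [CStarRing.star_mul_self_eq_zero_iff] at this
    exact hu0 this
  have hins := hmax (y := insert u V) ⟨by
      intro v hv
      rcases Set.mem_insert_iff.1 hv with rfl | hv
      · refine ⟨hu1, ?_, ?_⟩
        · have : (e - e') * e = e - e' := by rw [sub_mul, mm he, ee']
          rw [← hu2, mul_assoc, this]
        · have : f * (f - f') = f - f' := by rw [mul_sub, mm hf, comm_of_le hf'.1 hf ff']
          rw [← hu3, ← mul_assoc, this]
      · exact h1 v hv, by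
      intro v hv w hw hvw
      rcases Set.mem_insert_iff.1 hv with rfl | hv1
      · rcases Set.mem_insert_iff.1 hw with rfl | hw1
        · exact absurd rfl hvw
        · exact ⟨o1 w hw1, o2 w hw1⟩
      · rcases Set.mem_insert_iff.1 hw with rfl | hw1
        · constructor
          · have := congrArg star (o1 v hv1); rwa [star_mul, star_star, star_zero] at this
          · have := congrArg star (o2 v hv1); rwa [star_mul, star_star, star_zero] at this
        · exact h2 v hv1 w hw1 hvw⟩ (Set.subset_insert _ _)
  exact huV (hins (Set.mem_insert _ _))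

/-- Schröder-Bernstein. -/
theorem schroeder (hA : IsAWStar A) {e f : A} (he : IsStarProjection e)
    (hf : IsStarProjection f) (h1 : Dom e f) (h2 : Dom f e) :
    ∃ u, star u * u = e ∧ u * star u = f := by
  obtain ⟨v, hv, fv⟩ := h1
  obtain ⟨w, hw, ew⟩ := h2
  have hvp : IsStarProjection (star v * v) := by rw [hv]; exact he
  have hwp : IsStarProjection (star w * w) := by rw [hw]; exact hf
  have ve : v * e = v := by rw [← hv]; exact pi_mul hvp
  have wf : w * f = w := by rw [← hw]; exact pi_mul hwp
  obtain ⟨t, ht⟩ : ∃ t, t = w * v := ⟨_, rfl⟩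
  have tt : star t * t = e := by
    rw [ht, star_mul, mul_assoc, ← mul_assoc (star w), hw, fv, hv]
  have et : e * t = t := by rw [ht, ← mul_assoc, ew]
  have te : t * e = t := by rw [ht, mul_assoc, ve]
  obtain ⟨e1, he1⟩ : ∃ e1, e1 = w * star w := ⟨_, rfl⟩
  have e1p : IsStarProjection e1 := by rw [he1]; exact pi_star hwp
  have ee1 : e * e1 = e1 := by rw [he1, ← mul_assoc, ew]
  have e1e : e1 * e = e1 := by
    have := congrArg star ee1; rwa [star_mul, ss he, ss e1p] at this
  obtain ⟨q, hq⟩ : ∃ q, q = e - e1 := ⟨_, rfl⟩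
  have qp : IsStarProjection q := by rw [hq]; exact proj_sub e1p he e1e
  have eq : e * q = q := by rw [hq, mul_sub, mm he, ee1]
  have qt : q * t = 0 := by
    rw [hq, sub_mul, et, he1, ht]
    rw [mul_assoc w, ← mul_assoc (star w), hw, fv, sub_self]
  have tq : star t * q = 0 := by
    have := congrArg star qt; rwa [star_mul, ss qp, star_zero] at this
  -- u n
  set u : ℕ → A := fun n => t ^ n * q with hu
  have tu : ∀ n, t * u n = u (n + 1) := fun n => by
    simp only [hu]; rw [← mul_assoc, ← pow_succ']
  have eu : ∀ n, e * u n = u n := by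
    intro n
    cases n with
    | zero => simp only [hu, pow_zero, one_mul]; exact eq
    | succ n => rw [← tu, ← mul_assoc, et]
  have tsu : ∀ n, star t * u (n + 1) = u n := fun n => by
    rw [← tu, ← mul_assoc, tt, eu]
  have uu : ∀ n, star (u n) * u n = q := by
    intro n
    induction n with
    | zero => simp only [hu, pow_zero, one_mul]; rw [ss qp, mm qp]
    | succ n ih => rw [← tu n, star_mul, mul_assoc, ← mul_assoc (star t), tt, eu, ih]
  have uo0 : ∀ n, star (u 0) * u (n + 1) = 0 := by
    intro n
    rw [← tu]; simp only [hu, pow_zero, one_mul]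
    rw [ss qp, ← mul_assoc, qt, zero_mul]
  have uo : ∀ m n, m < n → star (u m) * u n = 0 := by
    intro m
    induction m with
    | zero =>
      intro n hn
      obtain ⟨k, rfl⟩ := Nat.exists_eq_succ_of_ne_zero hn.ne'
      exact uo0 k
    | succ m ih =>
      intro n hn
      obtain ⟨k, rfl⟩ := Nat.exists_eq_succ_of_ne_zero (Nat.ne_of_gt (Nat.zero_lt_of_lt hn))
      rw [← tu m]
      show star (t * u m) * u (k + 1) = 0
      rw [← tu k, star_mul, mul_assoc, ← mul_assoc (star t), tt, eu]
      exact ih k (Nat.lt_of_succ_lt_succ hn)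
  have uo' : ∀ m n, m ≠ n → star (u m) * u n = 0 := by
    intro m n h
    rcases lt_or_gt_of_ne h with h | h
    · exact uo m n h
    · have := congrArg star (uo n m h); rwa [star_mul, star_star, star_zero] at this
  have up : ∀ n, IsStarProjection (star (u n) * u n) := fun n => by rw [uu]; exact qp
  have dp : ∀ n, IsStarProjection (u n * star (u n)) := fun n => pi_star (up n)
  obtain ⟨z, hz⟩ := hA.lub (Set.range fun n => u n * star (u n))
    (by rintro _ ⟨i, rfl⟩; exact dp i) (by
      rintro _ ⟨i, rfl⟩ _ ⟨j, rfl⟩ hij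
      have hne : i ≠ j := fun h => hij (by rw [h])
      show u i * star (u i) * (u j * star (u j)) = 0
      calc u i * star (u i) * (u j * star (u j)) = u i * (star (u i) * u j) * star (u j) := by
            noncomm_ring
        _ = 0 := by rw [uo' i j hne]; simp)
  have hz : IsSup _ z := hz
  have hzp : ∀ p ∈ (Set.range fun n => u n * star (u n)), IsStarProjection p := by
    rintro _ ⟨i, rfl⟩; exact dp i
  have zu : ∀ n, z * u n = u n := fun n => by
    have h3 : z * (u n * star (u n)) = u n * star (u n) :=
      comm_of_le (dp n) hz.1 (hz.2.1 _ ⟨n, rfl⟩)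
    rw [← pi_left (up n), ← mul_assoc, h3]
  have ze : z * e = z := hz.2.2 e he (by
    rintro _ ⟨i, rfl⟩
    have h3 : e * (u i * star (u i)) = u i * star (u i) := by rw [← mul_assoc, eu]
    have := congrArg star h3
    rwa [star_mul, ss he, ss (dp i)] at this)
  have ez : e * z = z := comm_of_le hz.1 he ze
  have ztz : z * t * z = t * z := by
    have h3 : ((1 - z) * t) * z = 0 := sup_mul hA hzp hz (by
      rintro _ ⟨n, rfl⟩
      show (1 - z) * t * (u n * star (u n)) = 0
      calc (1 - z) * t * (u n * star (u n)) = (t * u n - z * (t * u n)) * star (u n) := by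
            noncomm_ring
        _ = 0 := by rw [tu, zu, sub_self, zero_mul])
    have h4 : (1 - z) * t * z = t * z - z * t * z := by noncomm_ring
    rw [h4, sub_eq_zero] at h3
    exact h3.symm
  have zts : z * star t * z = z * star t := by
    have := congrArg star ztz
    simp only [star_mul, ss hz.1] at this
    rw [mul_assoc] ; exact this
  have x0 : z - q - t * z * star t = 0 := by
    have h3 : (z - q - t * z * star t) * z = 0 := sup_mul hA hzp hz (by
      rintro _ ⟨n, rfl⟩
      show (z - q - t * z * star t) * (u n * star (u n)) = 0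
      have h5 : (z - q - t * z * star t) * u n = 0 := by
        rw [sub_mul, sub_mul, zu]
        cases n with
        | zero =>
          have : u 0 = q := by simp only [hu, pow_zero, one_mul]
          rw [this, mm qp, mul_assoc, tq]; simp
        | succ n =>
          have h6 : q * u (n + 1) = 0 := by rw [← tu, ← mul_assoc, qt, zero_mul]
          rw [h6, mul_assoc, tsu, mul_assoc, zu, tu]; simp
      rw [← mul_assoc, h5, zero_mul])
    have h4 : (z - q - t * z * star t) * z = z - q - t * z * star t := by
      have h5 : q * z = q := by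
        have h6 : u 0 = q := by simp only [hu, pow_zero, one_mul]
        have h7 := zu 0
        rw [h6] at h7
        have := congrArg star h7
        rwa [star_mul, ss qp, ss hz.1] at this
      have h8 : t * z * star t * z = t * (z * star t * z) := by noncomm_ring
      rw [sub_mul, sub_mul, mm hz.1, h5, h8, zts, ← mul_assoc]
    rw [h4] at h3; exact h3
  have h9 : t * z * star t = z - q := by
    rw [sub_eq_zero] at x0; exact x0.symm
  obtain ⟨U, hU⟩ : ∃ U, U = t * z + (e - z) := ⟨_, rfl⟩
  have e2 : star U = z * star t + (e - z) := by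
    rw [hU, star_add, star_mul, star_sub, ss hz.1, ss he]
  have UU : star U * U = e := by
    have k1 : z * star t * (t * z) = z := by
      calc z * star t * (t * z) = z * (star t * t) * z := by noncomm_ring
        _ = z := by rw [tt, ze, mm hz.1]
    have k2 : (e - z) * (t * z) = 0 := by
      rw [sub_mul, ← mul_assoc, et, ← mul_assoc, ztz, sub_self]
    have k3 : z * star t * (e - z) = 0 := by
      have := congrArg star k2
      rwa [star_mul, star_mul, star_sub, ss hz.1, ss he, star_zero] at this
    have k4 : (e - z) * (e - z) = e - z := mm (proj_sub hz.1 he ze)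
    rw [e2, hU, add_mul, mul_add, mul_add, k1, k2, k3, k4]; abel
  have UU' : U * star U = e1 := by
    have k1 : t * z * (z * star t) = z - q := by
      calc t * z * (z * star t) = t * (z * z) * star t := by noncomm_ring
        _ = z - q := by rw [mm hz.1, h9]
    have k2 : t * z * (e - z) = 0 := by rw [mul_assoc, mul_sub, ze, mm hz.1]; simp
    have k3 : (e - z) * (z * star t) = 0 := by
      rw [← mul_assoc, sub_mul, ez, mm hz.1]; simp
    have k4 : (e - z) * (e - z) = e - z := mm (proj_sub hz.1 he ze)
    rw [e2, hU, add_mul, mul_add, mul_add, k1, k2, k3, k4, hq]; abel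
  have hUp : IsStarProjection (star U * U) := by rw [UU]; exact he
  refine ⟨star w * U, ?_, ?_⟩
  · rw [star_mul, star_star]
    calc star U * w * (star w * U) = star U * ((w * star w) * U) := by noncomm_ring
      _ = star U * ((U * star U) * U) := by rw [← he1, ← UU']
      _ = e := by rw [pi_left hUp, UU]
  · rw [star_mul, star_star]
    calc star w * U * (star U * w) = star w * (U * star U) * w := by noncomm_ring
      _ = (star w * w) * (star w * w) := by rw [UU', he1]; noncomm_ring
      _ = f := by rw [hw, mm hf]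

end Pool.Agent.X205.AW
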