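import Pool.Agent.X205.AW.Near

/-!
Compressions to scalars by isometries, and the room lemma.
-/

open Filter Topology

namespace Pool.Agent.X205.AW

variable {A : Type*} [CStarAlgebra A]

/-- `g` is a projection which contains two orthogonal copies of itself. -/
structure Dbl (g t1 t2 : A) : Prop where
  pr : IsStarProjection g
  ne : g ≠ 0
  a1 : star t1 * t1 = g
  a2 : star t2 * t2 = g
  g1 : g * t1 = t1
  g2 : g * t2 = t2
  o : star t1 * t2 = 0

theorem iso_norm {g ξ : A} (hg : IsStarProjection g) (h : star ξ * ξ = g) : ‖ξ‖ ≤ 1 := by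
  have h1 : ‖ξ‖ ^ 2 ≤ 1 ^ 2 := by
    rw [sq, ← CStarRing.norm_star_mul_self, h, one_pow]; exact proj_norm_le hg
  exact (le_abs_self _).trans (abs_le_of_sq_le_sq h1 (by norm_num))

theorem iso_right {g ξ : A} (hg : IsStarProjection g) (h : star ξ * ξ = g) : ξ * g = ξ := by
  have hp : IsStarProjection (star ξ * ξ) := by rw [h]; exact hg
  rw [← h]; exact pi_mul hp

theorem conj_norm {g ξ : A} (hg : IsStarProjection g) (h : star ξ * ξ = g) (z : A) :
    ‖star ξ * z * ξ‖ ≤ ‖z‖ := by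
  have h1 := iso_norm hg h
  calc ‖star ξ * z * ξ‖ ≤ ‖star ξ‖ * ‖z‖ * ‖ξ‖ :=
        (norm_mul_le _ _).trans (mul_le_mul_of_nonneg_right (norm_mul_le _ _) (norm_nonneg _))
    _ ≤ 1 * ‖z‖ * 1 := by
        rw [norm_star]
        refine mul_le_mul ?_ h1 (norm_nonneg _) (by positivity)
        exact mul_le_mul_of_nonneg_right h1 (norm_nonneg _)
    _ = ‖z‖ := by ring

theorem compress1 (hA : IsAWStar A) (hF : IsFactor A) {s1 s2 : A} (hs : Prop2 s1 s2)
    {g t1 t2 : A} (hg : Dbl g t1 t2) {h : A} (hh : star h = h) {ε : ℝ} (hε : 0 < ε) :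
    ∃ (ξ : A) (c : ℝ), star ξ * ξ = g ∧ g * ξ = ξ ∧ ‖star ξ * h * ξ - c • g‖ ≤ ε := by
  classical
  have gg := mm hg.pr
  have gs := ss hg.pr
  obtain ⟨h', hh'⟩ : ∃ h', h' = g * h * g := ⟨_, rfl⟩
  have h's : star h' = h' := by rw [hh', star_mul, star_mul, gs, hh, mul_assoc]
  have gh' : g * h' = h' := by rw [hh', ← mul_assoc, ← mul_assoc, gg]
  have h'g : h' * g = h' := by rw [hh', mul_assoc _ g g, gg]
  obtain ⟨M, h1, h2, hM⟩ := exists_masa_pair h's gs (by rw [h'g, gh'])
  obtain ⟨ι, hι, p, l, hp, ho, hsum, hlt⟩ := spec_approx hA hM h's h1 hε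
  have comm := hM.prop
  have gp : ∀ i, g * p i = p i * g := fun i => comm _ h2 _ (hp i).2
  have pp : ∀ i, p i * p i = p i := fun i => mm (hp i).1
  have qp : ∀ i, IsStarProjection (g * p i) := by
    intro i
    refine ⟨?_, ?_⟩
    · show g * p i * (g * p i) = g * p i
      calc g * p i * (g * p i) = g * (p i * g) * p i := by noncomm_ring
        _ = (g * g) * (p i * p i) := by rw [← gp]; noncomm_ring
        _ = _ := by rw [gg, pp]
    · show star (g * p i) = g * p i
      rw [star_mul, ss (hp i).1, gs, gp]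
  obtain ⟨i, _, ξ, hξ, hξ'⟩ := large_fin hA hF hs hg.pr hg.a1 hg.a2 hg.g1 hg.g2 hg.o hg.ne
    (fun i => g * p i) qp (fun i j hij => by
      show g * p i * (g * p j) = 0
      calc g * p i * (g * p j) = g * (p i * g) * p j := by noncomm_ring
        _ = (g * g) * (p i * p j) := by rw [← gp]; noncomm_ring
        _ = 0 := by rw [ho i j hij, mul_zero]) Finset.univ (by
      rw [← Finset.mul_sum, hsum, mul_one]; exact dom_refl hg.pr)
  have hξ' : g * p i * ξ = ξ := hξ'
  have gξ : g * ξ = ξ := by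
    rw [← hξ', ← mul_assoc, ← mul_assoc, gg]
  have pξ : ∀ j, p j * ξ = if j = i then ξ else 0 := by
    intro j
    split_ifs with h
    · subst h
      calc p j * ξ = p j * (g * p j * ξ) := by rw [hξ']
        _ = (p j * g) * p j * ξ := by noncomm_ring
        _ = g * (p j * p j) * ξ := by rw [← gp]; noncomm_ring
        _ = ξ := by rw [pp, hξ']
    · calc p j * ξ = p j * (g * p i * ξ) := by rw [hξ']
        _ = (p j * g) * p i * ξ := by noncomm_ring
        _ = g * (p j * p i) * ξ := by rw [← gp]; noncomm_ring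
        _ = 0 := by rw [ho j i h]; simp
  have hsξ : (∑ j, l j • p j) * ξ = l i • ξ := by
    rw [Finset.sum_mul, Finset.sum_eq_single i]
    · rw [smul_mul_assoc, pξ, if_pos rfl]
    · intro j _ hj; rw [smul_mul_assoc, pξ, if_neg hj, smul_zero]
    · simp
  refine ⟨ξ, l i, hξ, gξ, ?_⟩
  have ξg : star ξ * g = star ξ := by
    have := congrArg star gξ; rwa [star_mul, gs] at this
  have e1 : star ξ * h * ξ - l i • g = star ξ * (h' - ∑ j, l j • p j) * ξ := by
    have e2 : star ξ * h * ξ = star ξ * h' * ξ := by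
      calc star ξ * h * ξ = (star ξ * g) * h * (g * ξ) := by rw [ξg, gξ]
        _ = _ := by rw [hh']; noncomm_ring
    have e3 : star ξ * (∑ j, l j • p j) * ξ = l i • g := by
      rw [mul_assoc, hsξ, mul_smul_comm, hξ]
    rw [e2, ← e3]; noncomm_ring
  rw [e1]
  exact (conj_norm hg.pr hξ _).trans hlt.le

theorem compressL (hA : IsAWStar A) (hF : IsFactor A) {s1 s2 : A} (hs : Prop2 s1 s2)
    {g t1 t2 : A} (hg : Dbl g t1 t2) {ε : ℝ} (hε : 0 < ε) (L : List A)
    (hL : ∀ z ∈ L, star z = z) :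
    ∃ ξ : A, star ξ * ξ = g ∧ g * ξ = ξ ∧ ∀ z ∈ L, ∃ c : ℝ, ‖star ξ * z * ξ - c • g‖ ≤ ε := by
  induction L with
  | nil => exact ⟨g, by rw [ss hg.pr, mm hg.pr], mm hg.pr, by simp⟩
  | cons z L ih =>
    obtain ⟨ξ1, h1, h2, h3⟩ := ih (fun z hz => hL z (List.mem_cons_of_mem _ hz))
    obtain ⟨ξ2, c, h4, h5, h6⟩ := compress1 hA hF hs hg (h := star ξ1 * z * ξ1)
      (by rw [star_mul, star_mul, star_star, hL z List.mem_cons_self, mul_assoc]) hε
    refine ⟨ξ1 * ξ2, ?_, ?_, ?_⟩
    · rw [star_mul, mul_assoc, ← mul_assoc (star ξ1), h1, h5, h4]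
    · rw [← mul_assoc, h2]
    · intro z' hz'
      rcases List.mem_cons.1 hz' with rfl | hz'
      · refine ⟨c, ?_⟩
        have : star (ξ1 * ξ2) * z' * (ξ1 * ξ2) = star ξ2 * (star ξ1 * z' * ξ1) * ξ2 := by
          rw [star_mul]; noncomm_ring
        rw [this]; exact h6
      · obtain ⟨c', hc'⟩ := h3 z' hz'
        refine ⟨c', ?_⟩
        have : star (ξ1 * ξ2) * z' * (ξ1 * ξ2) - c' • g =
            star ξ2 * (star ξ1 * z' * ξ1 - c' • g) * ξ2 := by
          have e1 : star ξ2 * (c' • g) * ξ2 = c' • g := by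
            rw [mul_smul_comm, smul_mul_assoc, mul_assoc, h5, h4]
          rw [mul_sub, sub_mul, e1, star_mul]; noncomm_ring
        rw [this]
        exact (conj_norm hg.pr h4 _).trans hc'

theorem compressC (hA : IsAWStar A) (hF : IsFactor A) {s1 s2 : A} (hs : Prop2 s1 s2)
    {g t1 t2 : A} (hg : Dbl g t1 t2) {ε : ℝ} (hε : 0 < ε) (L : List A) :
    ∃ ξ : A, star ξ * ξ = g ∧ g * ξ = ξ ∧ ∀ z ∈ L, ∃ c : ℂ, ‖star ξ * z * ξ - c • g‖ ≤ ε := by
  obtain ⟨ξ, h1, h2, h3⟩ := compressL hA hF hs hg (half_pos hε)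
    (L.map (fun z => (realPart z : A)) ++ L.map (fun z => (imaginaryPart z : A))) (by
      intro z hz
      rcases List.mem_append.1 hz with h | h
      · obtain ⟨w, _, rfl⟩ := List.mem_map.1 h; exact (realPart w).2.star_eq
      · obtain ⟨w, _, rfl⟩ := List.mem_map.1 h; exact (imaginaryPart w).2.star_eq)
  refine ⟨ξ, h1, h2, fun z hz => ?_⟩
  obtain ⟨a, ha⟩ := h3 _ (List.mem_append_left _ (List.mem_map_of_mem hz))
  obtain ⟨b, hb⟩ := h3 _ (List.mem_append_right _ (List.mem_map_of_mem hz))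
  refine ⟨(a : ℂ) + Complex.I * b, ?_⟩
  have e1 : star ξ * z * ξ - ((a : ℂ) + Complex.I * b) • g =
      (star ξ * (realPart z : A) * ξ - a • g) +
      Complex.I • (star ξ * (imaginaryPart z : A) * ξ - b • g) := by
    have hz' := realPart_add_I_smul_imaginaryPart z
    nth_rewrite 1 [← hz']
    rw [mul_add, add_mul, mul_smul_comm, smul_mul_assoc, add_smul, smul_sub, mul_smul,
      Complex.coe_smul, Complex.coe_smul]
    abel
  rw [e1]
  calc _ ≤ _ + _ := norm_add_le _ _
    _ ≤ ε / 2 + ε / 2 := by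
        refine add_le_add ha ?_
        rw [norm_smul, Complex.norm_I, one_mul]; exact hb
    _ = ε := by ring

/-- Room lemma. -/
theorem room (hA : IsAWStar A) {s1 s2 : A} (hs : Prop2 s1 s2)
    {g f z1 z2 V : A} (hg : IsStarProjection g) (hff : f * f = f) (gf : g * f = f)
    (fg : f * g = f) (z2g : z2 * g = z2) (hV : V * (z1 * f * z2) = g) :
    ∃ c c' : A, g * c = c ∧ c * g = c ∧ g * c' = c' ∧ c' * g = c' ∧ c * c' = g ∧ c' * c = f ∧
      ‖c'‖ ≤ 1 ∧ ‖c‖ ≤ ‖f‖ := by
  obtain ⟨_, l, _, hl, _, y2, _, y4, _⟩ := range_proj hA hs f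
  have fl : f * l = l := by
    have := y4 (1 - f) (by rw [sub_mul, one_mul, hff, sub_self])
    rw [sub_mul, one_mul, sub_eq_zero] at this; exact this.symm
  have gl : g * l = l := by
    have := y4 (1 - g) (by rw [sub_mul, one_mul, gf, sub_self])
    rw [sub_mul, one_mul, sub_eq_zero] at this; exact this.symm
  have lg : l * g = l := by
    have := congrArg star gl; rwa [star_mul, ss hg, ss hl] at this
  obtain ⟨r, hr⟩ : ∃ r, r = f * z2 := ⟨_, rfl⟩
  have rg : r * g = r := by rw [hr, mul_assoc, z2g]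
  have lr : l * r = r := by rw [hr, ← mul_assoc, y2]
  have hVr : (V * z1) * r = g := by rw [hr, ← hV]; noncomm_ring
  obtain ⟨p, k, hp, pg, _, _, _, hk, hn, _, q, qs, qq, qh, _⟩ :=
    cutg hA hg rg (t := (1 / (2 * (‖V * z1‖ + 1))) ^ 2) (by positivity)
  have hn' : ‖r * (g - p)‖ ≤ 1 / (2 * (‖V * z1‖ + 1)) :=
    (le_abs_self _).trans (abs_le_of_sq_le_sq hn (by positivity))
  have gpe : g - p = 0 := by
    have gpp := proj_sub hp hg pg
    have h1 : ‖g - p‖ ≤ 1 / 2 := by
      have e1 : g - p = (V * z1) * (r * (g - p)) := by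
        rw [← mul_assoc, hVr]; exact (comm_of_le gpp hg (by rw [sub_mul, mm hg, pg])).symm
      calc ‖g - p‖ = ‖(V * z1) * (r * (g - p))‖ := by rw [← e1]
        _ ≤ ‖V * z1‖ * (1 / (2 * (‖V * z1‖ + 1))) :=
            (norm_mul_le _ _).trans (mul_le_mul_of_nonneg_left hn' (norm_nonneg _))
        _ ≤ (‖V * z1‖ + 1) * (1 / (2 * (‖V * z1‖ + 1))) := by
            refine mul_le_mul_of_nonneg_right (by linarith) (by positivity)
        _ = 1 / 2 := by
            have : ‖V * z1‖ + 1 ≠ 0 := by positivity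
            field_simp
    have h2 : ‖g - p‖ * ‖g - p‖ = ‖g - p‖ := by
      have := CStarRing.norm_star_mul_self (x := g - p)
      rw [ss gpp, mm gpp] at this; exact this.symm
    have h3 : ‖g - p‖ = 0 := by nlinarith [norm_nonneg (g - p)]
    exact norm_eq_zero.1 h3
  have pe : p = g := (sub_eq_zero.1 gpe).symm
  have d1 : Dom g l := by
    refine ⟨r * q, ?_, by rw [← mul_assoc, lr]⟩
    rw [star_mul, qs]
    calc q * star r * (r * q) = (q * (star r * r)) * q := by noncomm_ring
      _ = (star r * r) * (q * q) := by rw [qh]; noncomm_ring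
      _ = g := by rw [qq, hk, pe]
  obtain ⟨u, hu1, hu2⟩ := schroeder hA hl hg (dom_of_le hl hg lg) d1
  have up : IsStarProjection (star u * u) := by rw [hu1]; exact hl
  have ul : u * l = u := by rw [← hu1]; exact pi_mul up
  have gu : g * u = u := by rw [← hu2]; exact pi_left up
  have lus : l * star u = star u := by
    have := congrArg star ul; rwa [star_mul, ss hl] at this
  have usg : star u * g = star u := by
    have := congrArg star gu; rwa [star_mul, ss hg] at this
  refine ⟨u * f, star u, by rw [← mul_assoc, gu], by rw [mul_assoc, fg], ?_, usg, ?_, ?_, ?_, ?_⟩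
  · rw [← lus, ← mul_assoc, gl]
  · calc u * f * star u = u * (f * l) * star u := by rw [mul_assoc, mul_assoc, mul_assoc, lus]
      _ = g := by rw [fl, ul, hu2]
  · rw [← mul_assoc, hu1, y2]
  · rw [norm_star]; exact iso_norm hl hu1
  · calc ‖u * f‖ ≤ ‖u‖ * ‖f‖ := norm_mul_le _ _
      _ ≤ 1 * ‖f‖ := mul_le_mul_of_nonneg_right (iso_norm hl hu1) (norm_nonneg _)
      _ = ‖f‖ := one_mul _

/-- inverse limits in the corner -/
theorem inv_lim {g : A} (hg : g * g = g) {N : ℕ → A} (h1 : ∀ n, g * N n = N n)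
    (h2 : ∀ n, N n * g = N n) {c : ℂ} (hc : c ≠ 0) (h : Tendsto N atTop (𝓝 (c • g))) :
    ∃ W : ℕ → A, (∀ n, g * W n = W n) ∧ (∀ n, W n * g = W n) ∧
      (∀ᶠ n in atTop, N n * W n = g ∧ W n * N n = g) ∧ Tendsto W atTop (𝓝 (c⁻¹ • g)) := by
  set u : ℕ → A := fun n => N n + c • (1 - g) with hu
  have hcu : IsUnit (c • (1 : A)) := by
    rw [← Algebra.algebraMap_eq_smul_one]
    exact (IsUnit.mk0 c hc).map (algebraMap ℂ A)
  have hlim : Tendsto u atTop (𝓝 (c • (1 : A))) := by
    have h3 := h.add_const (c • (1 - g))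
    have e1 : c • g + c • (1 - g) = c • (1 : A) := by rw [← smul_add]; congr 1; abel
    rwa [e1] at h3
  obtain ⟨U, hU⟩ := hcu
  have hlim' : Tendsto u atTop (𝓝 (U : A)) := by rw [hU]; exact hlim
  have hinv := (NormedRing.inverse_continuousAt U).tendsto.comp hlim'
  have hev : ∀ᶠ n in atTop, IsUnit (u n) := by
    have : {x : A | IsUnit x} ∈ 𝓝 (U : A) := Units.isOpen.mem_nhds U.isUnit
    exact hlim' this
  refine ⟨fun n => g * Ring.inverse (u n) * g, ?_, ?_, ?_, ?_⟩
  · intro n; show g * (g * Ring.inverse (u n) * g) = _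
    rw [← mul_assoc, ← mul_assoc, hg]
  · intro n; show (g * Ring.inverse (u n) * g) * g = _
    rw [mul_assoc _ g g, hg]
  · filter_upwards [hev] with n hn
    have ug : u n * g = N n := by
      simp only [hu]; rw [add_mul, h2, smul_mul_assoc, sub_mul, hg]; simp
    have gu : g * u n = N n := by
      simp only [hu]; rw [mul_add, h1, mul_smul_comm, mul_sub, hg]; simp
    have i1 := Ring.mul_inverse_cancel _ hn
    have i2 := Ring.inverse_mul_cancel _ hn
    constructor
    · calc N n * (g * Ring.inverse (u n) * g) = (N n * g) * Ring.inverse (u n) * g := by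
            noncomm_ring
        _ = g * (u n * Ring.inverse (u n)) * g := by rw [h2, ← gu]; noncomm_ring
        _ = g := by rw [i1, mul_one, hg]
    · calc (g * Ring.inverse (u n) * g) * N n = g * Ring.inverse (u n) * (g * N n) := by
            noncomm_ring
        _ = g * (Ring.inverse (u n) * u n) * g := by rw [h1, ← ug]; noncomm_ring
        _ = g := by rw [i2, mul_one, hg]
  · have h4 : Ring.inverse (U : A) = c⁻¹ • (1 : A) := by
      rw [Ring.inverse_unit]
      have : (↑U⁻¹ : A) = (↑U⁻¹ : A) * ((U : A) * (c⁻¹ • (1 : A))) := by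
        rw [hU, smul_mul_smul_comm, mul_inv_cancel₀ hc]; simp
      rw [this, ← mul_assoc, Units.inv_mul, one_mul]
    have h5 : Tendsto (fun n => g * Ring.inverse (u n) * g) atTop (𝓝 (g * (c⁻¹ • (1 : A)) * g)) := by
      rw [← h4]
      exact (hinv.const_mul g).mul_const g
    have e1 : g * (c⁻¹ • (1 : A)) * g = c⁻¹ • g := by
      rw [mul_smul_comm, smul_mul_assoc, mul_one, hg]
    rwa [e1] at h5

end Pool.Agent.X205.AW
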