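import Pool.Agent.X205.AW.Spec

/-!
Spectral cuts and polar decomposition of cuts.
-/

namespace Pool.Agent.X205.AW

variable {A : Type*} [CStarAlgebra A]

theorem mm {p : A} (hp : IsStarProjection p) : p * p = p :=
  hp.isIdempotentElem.eq

theorem ss {p : A} (hp : IsStarProjection p) : star p = p :=
  hp.isSelfAdjoint.star_eq

/-- Cut of `h = star y * y` at level `t` inside a masa. -/
theorem cut' (hA : IsAWStar A) {M : StarSubalgebra ℂ A} (hM : IsMasa M) {y g : A}
    (hm : star y * y ∈ M) (hgM : g ∈ M) (hg : IsStarProjection g) {t : ℝ} (ht : 0 < t) :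
    ∃ p k : A, IsStarProjection p ∧ p ∈ M ∧ p * g = p ∧ star k = k ∧ p * k = k ∧
      k * (star y * y) = p ∧ (star y * y) * k = p ∧ ‖y * (g - p)‖ ^ 2 ≤ t ∧ ‖k‖ ≤ 2 / t ∧
      (∃ r : A, star r = r ∧ r * r = k ∧ r * (star y * y) = (star y * y) * r ∧ p * r = r ∧
        r * p = r ∧ ∀ z, k * z = z * k → r * z = z * r) := by
  letI := CStarAlgebra.spectralOrder A
  haveI := CStarAlgebra.spectralOrderedRing A
  set h := star y * y with hh
  have hsa : star h = h := by rw [hh, star_mul, star_star]
  have h0 : 0 ≤ h := star_mul_self_nonneg y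
  obtain ⟨ι, hι, q, l, hq, ho, hs, hlt⟩ := spec_approx hA hM hsa hm (ε := t / 8) (by positivity)
  classical
  have comm := hM.prop
  -- the projection
  set s := ∑ i, l i • q i with hsdef
  set I : Finset ι := Finset.univ.filter fun i => 5 * t / 8 < l i with hI
  set e := ∑ i ∈ I, q i with he
  have eM : e ∈ M := sum_mem fun i _ => (hq i).2
  have qq : ∀ i, q i * q i = q i := fun i => (hq i).1.isIdempotentElem.eq
  have qs : ∀ i, star (q i) = q i := fun i => (hq i).1.isSelfAdjoint.star_eq
  have qe : ∀ i, q i * e = if i ∈ I then q i else 0 := by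
    intro i
    rw [he, Finset.mul_sum]
    split_ifs with hi
    · rw [Finset.sum_eq_single i (fun j _ hj => ho i j (Ne.symm hj)) (fun h => absurd hi h), qq]
    · exact Finset.sum_eq_zero fun j hj => ho i j (fun h => hi (h ▸ hj))
  have ee : e * e = e := by
    nth_rewrite 1 [he]
    rw [Finset.sum_mul, he]
    refine Finset.sum_congr rfl fun i hi => ?_
    rw [← he, qe, if_pos hi]
  have es : star e = e := by rw [he, star_sum]; exact Finset.sum_congr rfl fun i _ => qs i
  have ep : IsStarProjection e := ⟨ee, es⟩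
  have ge : g * e = e * g := comm _ hgM _ eM
  have gg := hg.isIdempotentElem.eq
  have gs := hg.isSelfAdjoint.star_eq
  obtain ⟨p, hp⟩ : ∃ p, p = g * e := ⟨_, rfl⟩
  have pM : p ∈ M := hp ▸ mul_mem hgM eM
  have pp : p * p = p := by
    calc p * p = g * (e * g) * e := by rw [hp]; noncomm_ring
      _ = (g * g) * (e * e) := by rw [← ge]; noncomm_ring
      _ = _ := by rw [gg, ee, hp]
  have ps : star p = p := by rw [hp, star_mul, es, gs, ge]
  have ph : p * h = h * p := comm _ pM _ hm
  have pg : p * g = p := by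
    calc p * g = g * (e * g) := by rw [hp]; noncomm_ring
      _ = (g * g) * e := by rw [← ge]; noncomm_ring
      _ = _ := by rw [gg, hp]
  have gp : g * p = p := by rw [hp, ← mul_assoc, gg]
  have hgh : g * h = h * g := comm _ hgM _ hm
  have sM : s ∈ M := by
    refine sum_mem fun i _ => ?_
    have : (l i : ℝ) • q i = ((l i : ℝ) : ℂ) • q i := by rw [Complex.coe_smul]
    rw [this]; exact SMulMemClass.smul_mem _ (hq i).2
  have ssa : star s = s := by
    rw [hsdef, star_sum]
    exact Finset.sum_congr rfl fun i _ => by rw [star_smul, qs, star_trivial]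
  -- order estimates for h
  have d1 : h - s ≤ algebraMap ℝ A (t / 8) := by
    have hsad : IsSelfAdjoint (h - s) := by
      show star (h - s) = h - s
      rw [star_sub, hsa, ssa]
    refine (hsad.le_algebraMap_norm_self).trans ?_
    rw [← sub_nonneg, ← map_sub]
    exact algebraMap_nonneg _ (by linarith)
  have d2 : -(algebraMap ℝ A (t / 8)) ≤ h - s := by
    have hsad : IsSelfAdjoint (h - s) := by
      show star (h - s) = h - s
      rw [star_sub, hsa, ssa]
    refine le_trans ?_ (hsad.neg_algebraMap_norm_le_self)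
    rw [neg_le_neg_iff, ← sub_nonneg, ← map_sub]
    exact algebraMap_nonneg _ (by linarith)
  have proj_nonneg : ∀ i, 0 ≤ q i := fun i => by
    rw [← qq i]; nth_rewrite 1 [← qs i]; exact star_mul_self_nonneg _
  -- upper part
  have gms : IsStarProjection (g - p) := by
    refine ⟨?_, ?_⟩
    · show (g - p) * (g - p) = g - p
      rw [sub_mul, mul_sub, mul_sub, gg, gp, pg, pp]; abel
    · show star (g - p) = g - p
      rw [star_sub, gs, ps]
  have up : s * (1 - e) ≤ algebraMap ℝ A (5 * t / 8) := by
    have h1 : s * (1 - e) = ∑ i, (if i ∈ I then 0 else l i • q i) := by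
      rw [hsdef, Finset.sum_mul]
      refine Finset.sum_congr rfl fun i _ => ?_
      rw [mul_sub, mul_one, smul_mul_assoc, qe]
      split_ifs <;> simp
    rw [h1]
    have h2 : algebraMap ℝ A (5 * t / 8) = ∑ i, (5 * t / 8 : ℝ) • q i := by
      rw [← Finset.smul_sum, hs, Algebra.algebraMap_eq_smul_one]
    rw [h2]
    refine Finset.sum_le_sum fun i _ => ?_
    split_ifs with hi
    · exact smul_nonneg (by positivity) (proj_nonneg i)
    · refine smul_le_smul_of_nonneg_right ?_ (proj_nonneg i)
      simpa [hI] using hi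
  have lo : (5 * t / 8 : ℝ) • e ≤ s * e := by
    have h1 : s * e = ∑ i ∈ I, l i • q i := by
      rw [hsdef, Finset.sum_mul, hI, Finset.sum_filter]
      refine Finset.sum_congr rfl fun i _ => ?_
      rw [smul_mul_assoc, qe]
      simp only [hI, Finset.mem_filter, Finset.mem_univ, true_and]
      split_ifs <;> simp
    rw [h1, he, Finset.smul_sum]
    refine Finset.sum_le_sum fun i hi => ?_
    refine smul_le_smul_of_nonneg_right ?_ (proj_nonneg i)
    have : 5 * t / 8 < l i := by simpa [hI] using hi
    exact this.le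
  have es' : e * s = s * e := comm _ eM _ sM
  have gs' : g * s = s * g := comm _ hgM _ sM
  refine ⟨p, ?_⟩
  -- norm bound
  have nb : ‖y * (g - p)‖ ^ 2 ≤ t := by
    have h1 : ‖y * (g - p)‖ ^ 2 = ‖(g - p) * h * (g - p)‖ := by
      rw [sq, ← CStarRing.norm_star_mul_self, star_mul, gms.isSelfAdjoint.star_eq, hh]
      congr 1; noncomm_ring
    rw [h1]
    have hn : 0 ≤ (g - p) * h * (g - p) := by
      have := star_left_conjugate_nonneg h0 (g - p)
      rwa [gms.isSelfAdjoint.star_eq] at this
    rw [CStarAlgebra.norm_le_iff_le_algebraMap _ ht.le]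
    have h2 : h ≤ s + algebraMap ℝ A (t / 8) := by
      have := d1; rw [sub_le_iff_le_add] at this; rwa [add_comm] at this
    have h3 := IsSelfAdjoint.conjugate_le_conjugate h2 gms.isSelfAdjoint
    refine h3.trans ?_
    have h4 : (g - p) * (s + algebraMap ℝ A (t / 8)) * (g - p) =
        g * (s * (1 - e)) * g + (t / 8 : ℝ) • (g - p) := by
      have e1 : g - p = g * (1 - e) := by rw [hp]; noncomm_ring
      have e2 : g - p = (1 - e) * g := by rw [hp, ge]; noncomm_ring
      have e3 : (1 - e) * (1 - e) = 1 - e := by rw [sub_mul, mul_sub, mul_sub, ee]; simp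
      have e4 : (1 - e) * s = s * (1 - e) := by rw [sub_mul, mul_sub, es']; simp
      rw [mul_add, add_mul, Algebra.algebraMap_eq_smul_one, mul_smul_comm, mul_one, smul_mul_assoc,
        gms.isIdempotentElem.eq]
      congr 1
      nth_rewrite 2 [e2]
      rw [e1]
      calc g * (1 - e) * s * ((1 - e) * g) = g * ((1 - e) * s) * (1 - e) * g := by noncomm_ring
        _ = g * (s * ((1 - e) * (1 - e))) * g := by rw [e4]; noncomm_ring
        _ = _ := by rw [e3]
    rw [h4]
    have h5 : g * (s * (1 - e)) * g ≤ algebraMap ℝ A (5 * t / 8) := by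
      have h6 := IsSelfAdjoint.conjugate_le_conjugate up hg.isSelfAdjoint
      refine h6.trans ?_
      rw [Algebra.algebraMap_eq_smul_one, mul_smul_comm, mul_one, smul_mul_assoc, gg]
      exact smul_le_smul_of_nonneg_left hg.le_one (by positivity)
    have h7 : (t / 8 : ℝ) • (g - p) ≤ algebraMap ℝ A (t / 8) := by
      rw [Algebra.algebraMap_eq_smul_one]
      exact smul_le_smul_of_nonneg_left gms.le_one (by positivity)
    refine (add_le_add h5 h7).trans ?_
    rw [← map_add, ← sub_nonneg, ← map_sub]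
    exact algebraMap_nonneg _ (by linarith)
  -- lower bound
  have lb : (t / 2 : ℝ) • p ≤ h * p := by
    have h1 : p * h * p = h * p := by rw [ph, mul_assoc, pp]
    have h2 : s - algebraMap ℝ A (t / 8) ≤ h := by
      have := d2
      rw [neg_le_sub_iff_le_add] at this
      rw [sub_le_iff_le_add]; exact this
    have h3 := IsSelfAdjoint.conjugate_le_conjugate h2 (c := p) ps
    rw [h1] at h3
    refine le_trans ?_ h3
    have h4 : p * (s - algebraMap ℝ A (t / 8)) * p = g * (s * e) * g - (t / 8 : ℝ) • p := by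
      have e2 : p = e * g := by rw [hp, ge]
      rw [mul_sub, sub_mul, Algebra.algebraMap_eq_smul_one, mul_smul_comm, mul_one, smul_mul_assoc,
        pp]
      congr 1
      nth_rewrite 2 [e2]
      rw [hp]
      calc g * e * s * (e * g) = g * (e * s) * e * g := by noncomm_ring
        _ = g * (s * (e * e)) * g := by rw [es']; noncomm_ring
        _ = _ := by rw [ee]
    rw [h4]
    have h5 := IsSelfAdjoint.conjugate_le_conjugate lo hg.isSelfAdjoint
    have h6 : g * ((5 * t / 8 : ℝ) • e) * g = (5 * t / 8 : ℝ) • p := by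
      rw [mul_smul_comm, smul_mul_assoc, ← hp, pg]
    rw [h6] at h5
    have h7 : (t / 2 : ℝ) • p = (5 * t / 8 : ℝ) • p - (t / 8 : ℝ) • p := by
      rw [← sub_smul]; congr 1; ring
    rw [h7]
    exact sub_le_sub_right h5 _
  have pproj : IsStarProjection p := ⟨pp, ps⟩
  -- the inverse
  have p1s : IsStarProjection (1 - p) := pproj.one_sub
  set c := h * p + (1 - p) with hc
  have clb : algebraMap ℝ A (min (t / 2) 1) ≤ c := by
    have h1 : algebraMap ℝ A (min (t / 2) 1) =
        (min (t / 2) 1 : ℝ) • p + (min (t / 2) 1 : ℝ) • (1 - p) := by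
      rw [← smul_add, Algebra.algebraMap_eq_smul_one]; congr 1; abel
    rw [h1, hc]
    refine add_le_add ?_ ?_
    · refine le_trans ?_ lb
      exact smul_le_smul_of_nonneg_right (min_le_left _ _) pproj.nonneg
    · have : (1 - p) = (1 : ℝ) • (1 - p) := (one_smul _ _).symm
      nth_rewrite 2 [this]
      exact smul_le_smul_of_nonneg_right (min_le_right _ _) p1s.nonneg
  have hmin : 0 < min (t / 2) 1 := lt_min (by positivity) one_pos
  have cu : IsUnit c := by
    have h1 : IsStrictlyPositive (algebraMap ℝ A (min (t / 2) 1)) :=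
      ⟨algebraMap_nonneg _ hmin.le, (IsUnit.mk0 _ hmin.ne').map (algebraMap ℝ A)⟩
    exact CStarAlgebra.isUnit_of_le _ clb h1
  obtain ⟨ci, hci1, hci2⟩ := isUnit_iff_exists.1 cu
  have cp : c * p = h * p := by rw [hc, add_mul, mul_assoc, pp, sub_mul, pp]; simp
  have pc : p * c = h * p := by rw [hc, mul_add, ← mul_assoc, ph, mul_assoc, pp, mul_sub, pp]; simp
  have cip : ci * p = p * ci := by
    calc ci * p = ci * (p * c) * ci := by rw [mul_assoc, mul_assoc, hci1, mul_one]
      _ = (ci * c) * p * ci := by rw [pc, ← cp]; noncomm_ring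
      _ = _ := by rw [hci2, one_mul]
  have cs : star c = c := by
    rw [hc, star_add, star_mul, star_sub, star_one, ps, hsa, ph]
  have cis : star ci = ci := by
    have h1 : star ci * c = 1 := by
      have := congrArg star hci1
      rwa [star_mul, cs, star_one] at this
    calc star ci = star ci * (c * ci) := by rw [hci1, mul_one]
      _ = ci := by rw [← mul_assoc, h1, one_mul]
  obtain ⟨k, hk⟩ : ∃ k, k = ci * p := ⟨_, rfl⟩
  have ks : star k = k := by rw [hk, star_mul, ps, cis, cip]
  have pk : p * k = k := by rw [hk, cip, ← mul_assoc, pp]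
  have kp : k * p = k := by rw [hk, mul_assoc, pp]
  have kh : k * h = p := by
    calc k * h = ci * (p * h) := by rw [hk, mul_assoc]
      _ = ci * (c * p) := by rw [ph, ← cp]
      _ = p := by rw [← mul_assoc, hci2, one_mul]
  have hk' : h * k = p := by
    have := congrArg star kh
    rwa [star_mul, hsa, ks, ps] at this
  have khk : k * h * k = k := by rw [kh, pk]
  have k0 : 0 ≤ k := by
    have := star_left_conjugate_nonneg h0 k
    rwa [ks, khk] at this
  have kk : (t / 2 : ℝ) • (k * k) ≤ k := by
    have h1 := IsSelfAdjoint.conjugate_le_conjugate lb (c := k) ks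
    have h2 : k * (h * p) * k = k := by rw [mul_assoc k, mul_assoc h, pk, ← mul_assoc, khk]
    have h3 : k * ((t / 2 : ℝ) • p) * k = (t / 2 : ℝ) • (k * k) := by
      rw [mul_smul_comm, smul_mul_assoc, kp]
    rwa [h2, h3] at h1
  have kn : ‖k‖ ≤ 2 / t := by
    have h0' : 0 ≤ (t / 2 : ℝ) • (k * k) := by
      refine smul_nonneg (by positivity) ?_
      have := star_mul_self_nonneg k
      rwa [ks] at this
    have h1 := CStarAlgebra.norm_le_norm_of_nonneg_of_le h0' kk
    rw [norm_smul, Real.norm_of_nonneg (by positivity)] at h1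
    have h2 : ‖k * k‖ = ‖k‖ * ‖k‖ := by
      have := CStarRing.norm_star_mul_self (x := k)
      rwa [ks] at this
    rw [h2] at h1
    by_cases hk0 : ‖k‖ = 0
    · rw [hk0]; positivity
    · have hpos : 0 < ‖k‖ := lt_of_le_of_ne (norm_nonneg _) (Ne.symm hk0)
      rw [le_div_iff₀ ht]
      have h3 : t / 2 * ‖k‖ ≤ 1 := by
        by_contra hcon
        push Not at hcon
        nlinarith
      linarith
  -- square root
  obtain ⟨r, hr⟩ : ∃ r, r = CFC.sqrt k := ⟨_, rfl⟩
  have r0 : 0 ≤ r := hr ▸ CFC.sqrt_nonneg k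
  have rr : r * r = k := by rw [hr]; exact CFC.sqrt_mul_sqrt_self k k0
  have rs : star r = r := (IsSelfAdjoint.of_nonneg r0).star_eq
  have rcomm : ∀ z : A, k * z = z * k → r * z = z * r := by
    intro z hz
    rw [hr]
    exact (Commute.cfcₙ_nnreal (a := k) (b := z) hz NNReal.sqrt)
  have rp : r * p = p * r := rcomm p (by rw [kp, pk])
  have rp1 : r * p = r := by
    have h1 : (r * (1 - p)) = 0 := by
      have h2 : star (r * (1 - p)) * (r * (1 - p)) = 0 := by
        rw [star_mul, rs, star_sub, star_one, ps]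
        calc (1 - p) * r * (r * (1 - p)) = (1 - p) * (r * r) * (1 - p) := by noncomm_ring
          _ = 0 := by rw [rr, sub_mul 1 p k, pk]; simp
      exact CStarRing.star_mul_self_eq_zero_iff _ |>.1 h2
    rw [mul_sub, mul_one, sub_eq_zero] at h1
    exact h1.symm
  exact ⟨k, pproj, pM, pg, ks, pk, kh, hk', nb, kn, r, rs, rr,
    rcomm h (by rw [kh, hk']), by rw [← rp, rp1], rp1, rcomm⟩

theorem cut (hA : IsAWStar A) {M : StarSubalgebra ℂ A} (hM : IsMasa M) {y g : A}
    (hm : star y * y ∈ M) (hgM : g ∈ M) (hg : IsStarProjection g) {t : ℝ} (ht : 0 < t) :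
    ∃ p k : A, IsStarProjection p ∧ p ∈ M ∧ p * g = p ∧ star k = k ∧ p * k = k ∧
      k * (star y * y) = p ∧ (star y * y) * k = p ∧ ‖y * (g - p)‖ ^ 2 ≤ t ∧ ‖k‖ ≤ 2 / t ∧
      (∃ r : A, star r = r ∧ r * r = k ∧ r * (star y * y) = (star y * y) * r ∧ p * r = r ∧
        r * p = r) := by
  obtain ⟨p, k, h1, h2, h3, h4, h5, h6, h7, h8, h9, r, r1, r2, r3, r4, r5, _⟩ :=
    cut' hA hM hm hgM hg ht
  exact ⟨p, k, h1, h2, h3, h4, h5, h6, h7, h8, h9, r, r1, r2, r3, r4, r5⟩

end Pool.Agent.X205.AW
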