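import Mathlib

/-!
AW*-algebras, factors, infinite projections, clean rings.
-/

namespace Pool.Agent.X205.AW

/-- An `AW*`-algebra (unital C*-algebra `A`): every family of pairwise orthogonal projections has a
least upper bound among the projections (`p ≤ q` means `p * q = p`), and every maximal commutative
self-adjoint subalgebra is generated (as a norm closed self-adjoint subalgebra) by the projections
it contains. -/
structure IsAWStar (A : Type*) [CStarAlgebra A] : Prop where
  lub : ∀ S : Set A, (∀ p ∈ S, IsStarProjection p) → (∀ p ∈ S, ∀ q ∈ S, p ≠ q → p * q = 0) →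
    ∃ s, IsStarProjection s ∧ (∀ p ∈ S, p * s = p) ∧
      ∀ t, IsStarProjection t → (∀ p ∈ S, p * t = p) → s * t = s
  masa : ∀ M : StarSubalgebra ℂ A,
    Maximal (fun N : StarSubalgebra ℂ A => ∀ x ∈ N, ∀ y ∈ N, x * y = y * x) M →
    (M : Set A) = closure (StarAlgebra.adjoin ℂ {p : A | p ∈ M ∧ IsStarProjection p} : Set A)

/-- The center of `A` is `ℂ 1`. -/
def IsFactor (A : Type*) [CStarAlgebra A] : Prop :=
  ∀ z : A, (∀ a : A, z * a = a * z) → ∃ c : ℂ, z = algebraMap ℂ A c

/-- Murray-von Neumann equivalence. -/
def Equivalent {A : Type*} [CStarAlgebra A] (e f : A) : Prop :=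
  ∃ v : A, star v * v = e ∧ v * star v = f

/-- The projection `e` is finite: `e ∼ f ≤ e` forces `f = e`. -/
def IsFiniteProj {A : Type*} [CStarAlgebra A] (e : A) : Prop :=
  ∀ f : A, IsStarProjection f → Equivalent e f → f * e = f → f = e

/-- A ring is clean if each element is the sum of a unit and an idempotent. -/
def IsCleanRing (R : Type*) [Ring R] : Prop :=
  ∀ x : R, ∃ u e : R, IsUnit u ∧ e * e = e ∧ x = u + e

end Pool.Agent.X205.AW
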