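import Pool.Agent.X205.AW.Rp

/-!
Corners of finite projections are clean; elements which are almost idempotent off a finite
projection are clean.
-/

namespace Pool.Agent.X205.AW

variable {A : Type*} [CStarAlgebra A]

theorem near {g N : A} (hg : g * g = g) (h1 : g * N = N) (h2 : N * g = N)
    (h : ‖g - N‖ < 1) : ∃ W, g * W = W ∧ W * g = W ∧ N * W = g ∧ W * N = g := by
  have hu : IsUnit (1 - (g - N)) := isUnit_one_sub_of_norm_lt_one h
  obtain ⟨ui, hu1, hu2⟩ := isUnit_iff_exists.1 hu
  set u := 1 - (g - N) with hudef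
  have ug : u * g = N := by rw [hudef, sub_mul, sub_mul, hg, h2]; simp
  have gu : g * u = N := by rw [hudef, mul_sub, mul_sub, hg, h1]; simp
  have gui : g * ui = ui * g := by
    calc g * ui = ui * (u * g) * ui := by rw [← mul_assoc, hu2, one_mul]
      _ = ui * (g * u) * ui := by rw [ug, gu]
      _ = ui * g * (u * ui) := by noncomm_ring
      _ = _ := by rw [hu1, mul_one]
  refine ⟨ui * g, ?_, ?_, ?_, ?_⟩
  · rw [← mul_assoc, gui, mul_assoc, hg]
  · rw [mul_assoc, hg]
  · rw [← gui, ← mul_assoc, h2, ← gu, mul_assoc, hu1, mul_one]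
  · rw [mul_assoc, h1, ← ug, ← mul_assoc, hu2, one_mul]

theorem CU_near {g N : A} (hg : g * g = g) (h1 : g * N = N) (h2 : N * g = N)
    (h : ‖g - N‖ < 1) : CU g N := ⟨h1, h2, near hg h1 h2 h⟩

/-- finiteness, internal form -/
def FinP (g : A) : Prop := ∀ v : A, star v * v = g → g * v = v → v * star v = g

theorem FinP.sub {g e : A} (hg : IsStarProjection g) (he : IsStarProjection e)
    (hle : e * g = e) (hf : FinP g) : FinP e := by
  intro v hv ev
  have ge := comm_of_le he hg hle
  have vp : IsStarProjection (star v * v) := by rw [hv]; exact he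
  have ve : v * e = v := by rw [← hv]; exact pi_mul vp
  have sve : star v * e = star v := by
    have := congrArg star ev; rwa [star_mul, ss he] at this
  have esv : e * star v = star v := by
    have := congrArg star ve; rwa [star_mul, ss he] at this
  have hgep := proj_sub he hg hle
  have c1 : star v * (g - e) = 0 := by
    rw [← sve, mul_assoc, mul_sub, hle, mm he]; simp
  have c2 : (g - e) * v = 0 := by
    have := congrArg star c1; rwa [star_mul, star_star, ss hgep, star_zero] at this
  have c3 : v * (g - e) = 0 := by rw [← ve, mul_assoc, mul_sub, hle, mm he]; simp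
  have c4 : (g - e) * star v = 0 := by
    have := congrArg star c3; rwa [star_mul, ss hgep, star_zero] at this
  have h1 := hf (v + (g - e)) (by
    rw [star_add, ss hgep, add_mul, mul_add, mul_add, hv, c1, c2, mm hgep]; abel) (by
    have : g * v = v := by rw [← ev, ← mul_assoc, ge]
    rw [mul_add, this, mul_sub, mm hg, ge])
  rw [star_add, ss hgep, add_mul, mul_add, mul_add, c3, c4, mm hgep] at h1
  have h2 : v * star v + (g - e) = e + (g - e) := by
    have : v * star v + 0 + (0 + (g - e)) = v * star v + (g - e) := by abel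
    rw [← this, h1]; abel
  exact add_right_cancel h2

theorem FinP.equiv {g w : A} (hg : IsStarProjection g) (hf : FinP g)
    (hw : star w * w = g) : FinP (w * star w) := by
  intro v hv fv
  have wp : IsStarProjection (star w * w) := by rw [hw]; exact hg
  have rp := pi_star wp
  have vp : IsStarProjection (star v * v) := by rw [hv]; exact rp
  have wg : w * g = w := by rw [← hw]; exact pi_mul wp
  have gws : g * star w = star w := by
    have := congrArg star wg; rwa [star_mul, ss hg] at this
  have vf : v * (w * star w) = v := by rw [← hv]; exact pi_mul vp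
  have h1 := hf (star w * v * w) (by
    rw [star_mul, star_mul, star_star]
    calc star w * (star v * w) * (star w * v * w) =
        star w * (star v * ((w * star w) * v)) * w := by noncomm_ring
      _ = (star w * w) * (star w * w) := by rw [fv, hv]; noncomm_ring
      _ = g := by rw [hw, mm hg]) (by
    calc g * (star w * v * w) = (g * star w) * v * w := by noncomm_ring
      _ = _ := by rw [gws])
  have h2 : v * star v = (w * star w) * (v * star v) * (w * star w) := by
    have h3 : star v * (w * star w) = star v := by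
      have := congrArg star fv; rwa [star_mul, ss rp] at this
    calc v * star v = ((w * star w) * v) * (star v * (w * star w)) := by rw [fv, h3]
      _ = _ := by noncomm_ring
  calc v * star v = (w * star w) * (v * star v) * (w * star w) := h2
    _ = w * (star w * (v * star v) * w) * star w := by noncomm_ring
    _ = w * (star w * ((v * (w * star w)) * star v) * w) * star w := by rw [vf]
    _ = w * ((star w * v * w) * star (star w * v * w)) * star w := by
        rw [star_mul, star_mul, star_star]; noncomm_ring
    _ = w * star w := by rw [h1, wg]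

theorem fin_compl (hA : IsAWStar A) (hF : IsFactor A) {s1 s2 : A} (hs : Prop2 s1 s2)
    {g p l v : A} (hg : IsStarProjection g) (hf : FinP g) (hp : IsStarProjection p)
    (hl : IsStarProjection l) (pg : p * g = p) (lg : l * g = l) (hv : star v * v = p)
    (hv' : v * star v = l) : ∃ w, star w * w = g - p ∧ w * star w = g - l := by
  have gp := comm_of_le hp hg pg
  have gl := comm_of_le hl hg lg
  have Ep := proj_sub hp hg pg
  have Fp := proj_sub hl hg lg
  have vp : IsStarProjection (star v * v) := by rw [hv]; exact hp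
  have vpm : v * p = v := by rw [← hv]; exact pi_mul vp
  have lv : l * v = v := by rw [← hv']; exact pi_left vp
  have vsl : star v * l = star v := by
    have := congrArg star lv; rwa [star_mul, ss hl] at this
  have pvs : p * star v = star v := by
    have := congrArg star vpm; rwa [star_mul, ss hp] at this
  have gv : g * v = v := by rw [← lv, ← mul_assoc, gl]
  have gvs : g * star v = star v := by rw [← pvs, ← mul_assoc, gp]
  rcases comp hA hF hs Ep Fp with h | h
  · obtain ⟨w, hw1, hw2⟩ := h
    have wp : IsStarProjection (star w * w) := by rw [hw1]; exact Ep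
    have wE : w * (g - p) = w := by rw [← hw1]; exact pi_mul wp
    have ws : (g - p) * star w = star w := by
      have := congrArg star wE; rwa [star_mul, ss Ep] at this
    have c1 : star v * w = 0 := by
      rw [← vsl, ← hw2, mul_assoc, ← mul_assoc l, mul_sub, lg, mm hl]; simp
    have c2 : star w * v = 0 := by
      have := congrArg star c1; rwa [star_mul, star_star, star_zero] at this
    have c3 : v * star w = 0 := by
      rw [← vpm, ← ws, mul_assoc, ← mul_assoc p, mul_sub, pg, mm hp]; simp
    have c4 : w * star v = 0 := by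
      have := congrArg star c3; rwa [star_mul, star_star, star_zero] at this
    have h1 := hf (v + w) (by
      rw [star_add, add_mul, mul_add, mul_add, hv, hw1, c1, c2]; abel) (by
      have : g * w = w := by rw [← hw2, ← mul_assoc, mul_sub, mm hg, gl]
      rw [mul_add, gv, this])
    rw [star_add, add_mul, mul_add, mul_add, hv', c3, c4] at h1
    refine ⟨w, hw1, ?_⟩
    have : w * star w = (l + 0 + (0 + w * star w)) - l := by abel
    rw [this, h1]
  · obtain ⟨w, hw1, hw2⟩ := h
    have wp : IsStarProjection (star w * w) := by rw [hw1]; exact Fp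
    have wF : w * (g - l) = w := by rw [← hw1]; exact pi_mul wp
    have ws : (g - l) * star w = star w := by
      have := congrArg star wF; rwa [star_mul, ss Fp] at this
    have c1 : v * w = 0 := by
      rw [← vpm, ← hw2, mul_assoc, ← mul_assoc p, mul_sub, pg, mm hp]; simp
    have c2 : star w * star v = 0 := by
      have := congrArg star c1; rwa [star_mul, star_zero] at this
    have c3 : star v * star w = 0 := by
      rw [← vsl, ← ws, mul_assoc, ← mul_assoc l, mul_sub, lg, mm hl]; simp
    have c4 : w * v = 0 := by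
      have := congrArg star c3; rwa [star_mul, star_star, star_star, star_zero] at this
    have h1 := hf (star v + w) (by
      rw [star_add, star_star, add_mul, mul_add, mul_add, hv', hw1, c1, c2]; abel) (by
      have : g * w = w := by rw [← hw2, ← mul_assoc, mul_sub, mm hg, gp]
      rw [mul_add, gvs, this])
    rw [star_add, star_star, add_mul, mul_add, mul_add, hv, c3, c4] at h1
    refine ⟨star w, ?_, ?_⟩
    · rw [star_star]
      have : w * star w = (p + 0 + (0 + w * star w)) - p := by abel
      rw [this, h1]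
    · rw [star_star, hw1]

theorem fin_compl2 (hA : IsAWStar A) (hF : IsFactor A) {s1 s2 : A} (hs : Prop2 s1 s2)
    {E F w0 p l v : A} (hE : IsStarProjection E) (hFp : IsStarProjection F) (hf : FinP E)
    (hw : star w0 * w0 = E) (hw' : w0 * star w0 = F)
    (hp : IsStarProjection p)
    (hl : IsStarProjection l) (pE : p * E = p) (lF : l * F = l) (hv : star v * v = p)
    (hv' : v * star v = l) : ∃ w, star w * w = E - p ∧ w * star w = F - l := by
  have wp : IsStarProjection (star w0 * w0) := by rw [hw]; exact hE
  have w0E : w0 * E = w0 := by rw [← hw]; exact pi_mul wp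
  have Fw0 : F * w0 = w0 := by rw [← hw']; exact pi_left wp
  have Fl := comm_of_le hl hFp lF
  have vp : IsStarProjection (star v * v) := by rw [hv]; exact hp
  have lv : l * v = v := by rw [← hv']; exact pi_left vp
  have Fv : F * v = v := by rw [← lv, ← mul_assoc, Fl]
  have e1 : star (star w0 * v) * (star w0 * v) = p := by
    rw [star_mul, star_star]
    calc star v * w0 * (star w0 * v) = star v * ((w0 * star w0) * v) := by noncomm_ring
      _ = p := by rw [hw', Fv, hv]
  have e2 : (star w0 * v) * star (star w0 * v) = star w0 * l * w0 := by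
    rw [star_mul, star_star]
    calc star w0 * v * (star v * w0) = star w0 * (v * star v) * w0 := by noncomm_ring
      _ = _ := by rw [hv']
  have lp' : IsStarProjection (star w0 * l * w0) := by
    rw [← e2]; exact pi_star (by rw [e1]; exact hp)
  obtain ⟨w, h1, h2⟩ := fin_compl hA hF hs hE hf hp lp' pE (by
    rw [mul_assoc, w0E]) e1 e2
  refine ⟨w0 * w, ?_, ?_⟩
  · have hwp : IsStarProjection (star w * w) := by rw [h1]; exact proj_sub hp hE pE
    have Ew : E * w = w := by
      have h3 : E * (w * star w) = w * star w := by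
        rw [h2, mul_sub, mm hE]
        congr 1
        have : E * star w0 = star w0 := by
          have := congrArg star w0E; rwa [star_mul, ss hE] at this
        rw [← mul_assoc, ← mul_assoc, this]
      rw [← pi_left hwp, ← mul_assoc, h3]
    rw [star_mul]
    calc star w * star w0 * (w0 * w) = star w * ((star w0 * w0) * w) := by noncomm_ring
      _ = _ := by rw [hw, Ew, h1]
  · rw [star_mul]
    calc w0 * w * (star w * star w0) = w0 * (w * star w) * star w0 := by noncomm_ring
      _ = (w0 * E) * star w0 - (w0 * star w0) * l * (w0 * star w0) := by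
          rw [h2]; noncomm_ring
      _ = _ := by rw [w0E, hw', Fl, lF]

/-- Corners of finite projections are clean. -/
theorem finite_clean (hA : IsAWStar A) (hF : IsFactor A) {s1 s2 : A} (hs : Prop2 s1 s2)
    {g T : A} (hg : IsStarProjection g) (hf : FinP g) (gT : g * T = T) (Tg : T * g = T) :
    CC g T := by
  obtain ⟨p, k, hp, pg, ks, pk, kh, hk, hn, _, r, rs, rr, rh, pr, rp⟩ :=
    cutg hA hg Tg (t := 1 / 16) (by norm_num)
  have gp := comm_of_le hp hg pg
  have kp : k * p = k := by
    have := congrArg star pk; rwa [star_mul, ks, ss hp] at this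
  have gk : g * k = k := by rw [← pk, ← mul_assoc, gp]
  have Tsg : star T * g = star T := by
    have := congrArg star gT; rwa [star_mul, ss hg] at this
  obtain ⟨l, hl⟩ : ∃ l, l = T * k * star T := ⟨_, rfl⟩
  have e1 : star (T * r) * (T * r) = p := by
    rw [star_mul, rs]
    calc r * star T * (T * r) = (r * (star T * T)) * r := by noncomm_ring
      _ = (star T * T) * (r * r) := by rw [rh]; noncomm_ring
      _ = p := by rw [rr, hk]
  have e2 : (T * r) * star (T * r) = l := by
    rw [star_mul, rs, hl]
    calc T * r * (r * star T) = T * (r * r) * star T := by noncomm_ring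
      _ = _ := by rw [rr]
  have lp : IsStarProjection l := by rw [← e2]; exact pi_star (by rw [e1]; exact hp)
  have gl : g * l = l := by rw [hl, ← mul_assoc, ← mul_assoc, gT]
  have lg : l * g = l := by rw [hl, mul_assoc _ (star T) g, Tsg]
  obtain ⟨w0, hw0, hw0'⟩ := fin_compl hA hF hs hg hf hp lp pg lg e1 e2
  obtain ⟨E, hE⟩ : ∃ E, E = g - p := ⟨_, rfl⟩
  obtain ⟨F, hF'⟩ : ∃ F, F = g - l := ⟨_, rfl⟩
  rw [← hE] at hw0 hn
  rw [← hF'] at hw0'
  have Ep : IsStarProjection E := by rw [hE]; exact proj_sub hp hg pg
  have Fp : IsStarProjection F := by rw [hF']; exact proj_sub lp hg lg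
  have Eg : E * g = E := by rw [hE, sub_mul, mm hg, pg]
  have gE : g * E = E := comm_of_le Ep hg Eg
  have gF : g * F = F := by rw [hF', mul_sub, mm hg, gl]
  have Fg : F * g = F := by rw [hF', sub_mul, mm hg, lg]
  have pE : p * E = 0 := by rw [hE, mul_sub, pg, mm hp, sub_self]
  have Ep0 : E * p = 0 := orth_symm hp Ep pE
  have lF : l * F = 0 := by rw [hF', mul_sub, lg, mm lp, sub_self]
  have Fl : F * l = 0 := orth_symm lp Fp lF
  have Efin : FinP E := hf.sub hg Ep Eg
  have TE : ‖T * E‖ ≤ 1 / 4 := by
    have h4 : ‖T * E‖ ^ 2 ≤ (1 / 4) ^ 2 := by norm_num at hn ⊢; exact hn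
    exact (le_abs_self _).trans (abs_le_of_sq_le_sq h4 (by norm_num))
  -- the map a = F E
  obtain ⟨a, ha⟩ : ∃ a, a = F * E := ⟨_, rfl⟩
  have aE : a * E = a := by rw [ha, mul_assoc, mm Ep]
  have Fa : F * a = a := by rw [ha, ← mul_assoc, mm Fp]
  have asF : star a * F = star a := by
    have := congrArg star Fa; rwa [star_mul, ss Fp] at this
  have Eas : E * star a = star a := by
    have := congrArg star aE; rwa [star_mul, ss Ep] at this
  obtain ⟨p1, k1, hp1, p1E, k1s, p1k, k1h, hk1, hn1, kn1, r1, r1s, rr1, rh1, pr1, rp1⟩ :=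
    cutg hA Ep aE (t := 1 / 2) (by norm_num)
  have Ep1 := comm_of_le hp1 Ep p1E
  have k1p : k1 * p1 = k1 := by
    have := congrArg star p1k; rwa [star_mul, k1s, ss hp1] at this
  have Ek1 : E * k1 = k1 := by rw [← p1k, ← mul_assoc, Ep1]
  obtain ⟨F1, hF1⟩ : ∃ F1, F1 = a * k1 * star a := ⟨_, rfl⟩
  have e3 : star (a * r1) * (a * r1) = p1 := by
    rw [star_mul, r1s]
    calc r1 * star a * (a * r1) = (r1 * (star a * a)) * r1 := by noncomm_ring
      _ = (star a * a) * (r1 * r1) := by rw [rh1]; noncomm_ring
      _ = p1 := by rw [rr1, hk1]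
  have e4 : (a * r1) * star (a * r1) = F1 := by
    rw [star_mul, r1s, hF1]
    calc a * r1 * (r1 * star a) = a * (r1 * r1) * star a := by noncomm_ring
      _ = _ := by rw [rr1]
  have F1p : IsStarProjection F1 := by rw [← e4]; exact pi_star (by rw [e3]; exact hp1)
  have FF1 : F * F1 = F1 := by rw [hF1, ← mul_assoc, ← mul_assoc, Fa]
  have F1F : F1 * F = F1 := by rw [hF1, mul_assoc _ (star a) F, asF]
  obtain ⟨w1, hw1, hw1'⟩ := fin_compl2 hA hF hs Ep Fp Efin hw0 hw0' hp1 F1p p1E F1F e3 e4
  obtain ⟨G, hG⟩ : ∃ G, G = E - p1 := ⟨_, rfl⟩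
  obtain ⟨H, hH⟩ : ∃ H, H = F - F1 := ⟨_, rfl⟩
  rw [← hG] at hw1 hn1
  rw [← hH] at hw1'
  have Gp : IsStarProjection G := by rw [hG]; exact proj_sub hp1 Ep p1E
  have Hp : IsStarProjection H := by rw [hH]; exact proj_sub F1p Fp F1F
  have EG : E * G = G := by rw [hG, mul_sub, mm Ep, Ep1]
  have GE : G * E = G := by rw [hG, sub_mul, mm Ep, p1E]
  have FH : F * H = H := by rw [hH, mul_sub, mm Fp, FF1]
  have HF : H * F = H := by rw [hH, sub_mul, mm Fp, F1F]
  have p1G : p1 * G = 0 := by rw [hG, mul_sub, p1E, mm hp1, sub_self]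
  have w1p : IsStarProjection (star w1 * w1) := by rw [hw1]; exact Gp
  have w1G : w1 * G = w1 := by rw [← hw1]; exact pi_mul w1p
  have Hw1 : H * w1 = w1 := by rw [← hw1']; exact pi_left w1p
  have w1sH : star w1 * H = star w1 := by
    have := congrArg star Hw1; rwa [star_mul, ss Hp] at this
  have w1E : w1 * E = w1 := by rw [← w1G, mul_assoc, GE]
  have Fw1 : F * w1 = w1 := by rw [← Hw1, ← mul_assoc, FH]
  -- commutation facts
  have F1a : F1 * a = a * p1 := by
    rw [hF1]
    calc a * k1 * star a * a = a * (k1 * (star a * a)) := by noncomm_ring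
      _ = _ := by rw [k1h]
  have Ha : H * a = a * G := by
    rw [hH, sub_mul, Fa, F1a, hG, mul_sub, aE]
  have asH : star a * H = G * star a := by
    have := congrArg star Ha; rwa [star_mul, star_mul, ss Hp, ss Gp] at this
  have GG' : a * G * star a = H * (a * star a) := by rw [← Ha]; noncomm_ring
  have X1 : H * (a * G * star a) = a * G * star a := by
    calc H * (a * G * star a) = (H * a) * G * star a := by noncomm_ring
      _ = a * (G * G) * star a := by rw [Ha]; noncomm_ring
      _ = _ := by rw [mm Gp]
  have X2 : (a * G * star a) * H = a * G * star a := by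
    calc (a * G * star a) * H = a * G * (star a * H) := by noncomm_ring
      _ = a * (G * G) * star a := by rw [asH]; noncomm_ring
      _ = _ := by rw [mm Gp]
  have nX : ‖a * G * star a‖ ≤ 1 / 2 := by
    have : a * G * star a = (a * G) * star (a * G) := by
      rw [star_mul, ss Gp]
      calc a * G * star a = a * (G * G) * star a := by rw [mm Gp]
        _ = _ := by noncomm_ring
    rw [this, CStarRing.norm_self_mul_star, ← sq]; exact hn1
  obtain ⟨M, HM, MH, hM1, hM2⟩ := near (g := H) (N := H - a * G * star a) (mm Hp)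
    (by rw [mul_sub, mm Hp, X1]) (by rw [sub_mul, mm Hp, X2])
    (by
      have : H - (H - a * G * star a) = a * G * star a := by abel
      rw [this]; linarith)
  -- the operator B
  obtain ⟨B, hB⟩ : ∃ B, B = p * F * M * (w1 - a * G) := ⟨_, rfl⟩
  have pB : p * B = B := by rw [hB, ← mul_assoc, ← mul_assoc, ← mul_assoc, mm hp]
  have BE : B * E = B := by
    rw [hB, mul_assoc, sub_mul, w1E, mul_assoc a, GE]
  have EB : E * B = 0 := by rw [← pB, ← mul_assoc, Ep0, zero_mul]
  have Bp : B * p = 0 := by rw [← BE, mul_assoc, Ep0, mul_zero]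
  have gB : g * B = B := by rw [← pB, ← mul_assoc, gp]
  have Bg : B * g = B := by rw [← BE, mul_assoc, Eg]
  have FpF : F * p * F = F - a * star a := by
    have h5 : p = g - E := by rw [hE]; abel
    rw [h5, mul_sub, Fg, sub_mul, mm Fp, ha, star_mul, ss Ep, ss Fp]
    congr 1
    calc F * E * F = F * (E * E) * F := by rw [mm Ep]
      _ = _ := by noncomm_ring
  have FB : F * B = w1 - a * G := by
    have h6 : (F - a * star a) * M = H := by
      have h7 : (F - a * star a) * H = H - a * G * star a := by
        rw [sub_mul, FH, mul_assoc, asH]; noncomm_ring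
      calc (F - a * star a) * M = (F - a * star a) * H * M := by rw [mul_assoc, HM]
        _ = H := by rw [h7, hM1]
    calc F * B = (F * p * F) * M * (w1 - a * G) := by rw [hB]; noncomm_ring
      _ = H * (w1 - a * G) := by rw [FpF, h6]
      _ = w1 - a * G := by
        rw [mul_sub, Hw1, ← mul_assoc, Ha, mul_assoc, mm Gp]
  -- K0 and its inverse
  obtain ⟨K0, hK0⟩ : ∃ K0, K0 = a * p1 + w1 := ⟨_, rfl⟩
  obtain ⟨Ki, hKi⟩ : ∃ Ki, Ki = k1 * star a + star w1 := ⟨_, rfl⟩
  have c1 : k1 * star a * w1 = 0 := by
    calc k1 * star a * w1 = k1 * star a * (H * w1) := by rw [Hw1]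
      _ = k1 * (star a * H) * w1 := by noncomm_ring
      _ = (k1 * p1) * G * star a * w1 := by rw [asH, k1p]; noncomm_ring
      _ = k1 * (p1 * G) * star a * w1 := by noncomm_ring
      _ = 0 := by rw [p1G]; simp
  have c2 : star w1 * (a * p1) = 0 := by
    calc star w1 * (a * p1) = star w1 * H * (a * p1) := by rw [w1sH]
      _ = star w1 * (H * a) * p1 := by noncomm_ring
      _ = star w1 * a * (G * p1) := by rw [Ha]; noncomm_ring
      _ = 0 := by rw [orth_symm hp1 Gp p1G, mul_zero]
  have KiK0 : Ki * K0 = E := by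
    rw [hKi, hK0, add_mul, mul_add, mul_add, c1, c2, hw1]
    have : k1 * star a * (a * p1) = p1 := by
      calc k1 * star a * (a * p1) = (k1 * (star a * a)) * p1 := by noncomm_ring
        _ = _ := by rw [k1h, mm hp1]
    rw [this, hG]; abel
  have K0Ki : K0 * Ki = F := by
    rw [hKi, hK0, add_mul, mul_add, mul_add, hw1']
    have d1 : a * p1 * (k1 * star a) = F1 := by
      rw [hF1]
      calc a * p1 * (k1 * star a) = a * (p1 * k1) * star a := by noncomm_ring
        _ = _ := by rw [p1k]
    have d2 : a * p1 * star w1 = 0 := by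
      have := congrArg star c2
      rw [star_mul, star_mul, star_star, ss hp1, star_zero] at this
      have h8 : star w1 = G * star w1 := by
        have := congrArg star w1G; rw [star_mul, ss Gp] at this; exact this.symm
      rw [h8, mul_assoc, ← mul_assoc p1, p1G]; simp
    have d3 : w1 * (k1 * star a) = 0 := by
      calc w1 * (k1 * star a) = (w1 * G) * ((p1 * k1) * star a) := by rw [w1G, p1k]
        _ = w1 * (G * p1) * k1 * star a := by noncomm_ring
        _ = 0 := by rw [orth_symm hp1 Gp p1G]; simp
    rw [d1, d2, d3, hH]; abel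
  have EKi : E * Ki = Ki := by
    have h8 : E * star w1 = star w1 := by
      have := congrArg star w1E; rwa [star_mul, ss Ep] at this
    rw [hKi, mul_add, ← mul_assoc, Ek1, h8]
  have KiF : Ki * F = Ki := by
    have h8 : star w1 * F = star w1 := by
      have := congrArg star Fw1; rwa [star_mul, ss Fp] at this
    rw [hKi, add_mul, mul_assoc, asF, h8]
  have nKi : ‖Ki‖ ≤ 3 := by
    have n1 : ‖k1 * star a‖ ≤ 2 := by
      have h9 : ‖k1 * star a‖ ^ 2 ≤ 2 ^ 2 := by
        rw [sq, ← CStarRing.norm_self_mul_star, star_mul, star_star, k1s]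
        have : k1 * star a * (a * k1) = k1 := by
          calc k1 * star a * (a * k1) = (k1 * (star a * a)) * k1 := by noncomm_ring
            _ = _ := by rw [k1h, p1k]
        rw [this]; norm_num at kn1 ⊢; exact kn1
      exact (le_abs_self _).trans (abs_le_of_sq_le_sq h9 (by norm_num))
    have n2 : ‖star w1‖ ≤ 1 := by
      rw [norm_star]
      have h9 : ‖w1‖ ^ 2 ≤ 1 ^ 2 := by
        rw [sq, ← CStarRing.norm_star_mul_self, hw1, one_pow]; exact proj_norm_le Gp
      exact (le_abs_self _).trans (abs_le_of_sq_le_sq h9 (by norm_num))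
    rw [hKi]; exact (norm_add_le _ _).trans (by linarith)
  obtain ⟨Y, hY⟩ : ∃ Y, Y = Ki * (F * T * E) := ⟨_, rfl⟩
  have nY : ‖Y‖ < 1 := by
    have h10 : ‖F * T * E‖ ≤ 1 / 4 := by
      rw [mul_assoc]
      calc ‖F * (T * E)‖ ≤ ‖F‖ * ‖T * E‖ := norm_mul_le _ _
        _ ≤ 1 * (1 / 4) := mul_le_mul (proj_norm_le Fp) TE (norm_nonneg _) (by norm_num)
        _ = _ := by norm_num
    calc ‖Y‖ ≤ ‖Ki‖ * ‖F * T * E‖ := by rw [hY]; exact norm_mul_le _ _
      _ ≤ 3 * (1 / 4) := mul_le_mul nKi h10 (norm_nonneg _) (by norm_num)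
      _ < 1 := by norm_num
  have EY : E * Y = Y := by rw [hY, ← mul_assoc, EKi]
  have YE : Y * E = Y := by rw [hY, mul_assoc, mul_assoc (F * T), mm Ep]
  obtain ⟨Z, EZ, ZE, hZ1, hZ2⟩ := near (g := E) (N := E - Y) (mm Ep)
    (by rw [mul_sub, mm Ep, EY]) (by rw [sub_mul, mm Ep, YE])
    (by
      have : E - (E - Y) = Y := by abel
      rw [this]; exact nY)
  have K0E : K0 * E = K0 := by rw [hK0, add_mul, mul_assoc, p1E, w1E]
  -- K = F T E - K0
  have hK : F * T * E - K0 = -(K0 * (E - Y)) := by
    have h11 : K0 * Y = F * T * E := by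
      rw [hY, ← mul_assoc, K0Ki, ← mul_assoc, ← mul_assoc, mm Fp]
    rw [mul_sub, K0E, h11]; abel
  obtain ⟨w, hw⟩ : ∃ w, w = -(Z * Ki) := ⟨_, rfl⟩
  have Kw : (F * T * E - K0) * w = F := by
    rw [hK, hw, neg_mul_neg]
    calc K0 * (E - Y) * (Z * Ki) = K0 * ((E - Y) * Z) * Ki := by noncomm_ring
      _ = F := by rw [hZ1, K0E, K0Ki]
  have wK : w * (F * T * E - K0) = E := by
    rw [hK, hw, neg_mul_neg]
    calc Z * Ki * (K0 * (E - Y)) = Z * ((Ki * K0) * (E - Y)) := by noncomm_ring
      _ = Z * (E * (E - Y)) := by rw [KiK0]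
      _ = E := by rw [mul_sub E E Y, mm Ep, EY, hZ2]
  have Ew : E * w = w := by rw [hw, mul_neg, ← mul_assoc, EZ]
  have wF : w * F = w := by rw [hw, neg_mul, mul_assoc, KiF]
  have gw : g * w = w := by rw [← Ew, ← mul_assoc, gE]
  have wg : w * g = w := by rw [← wF, mul_assoc, Fg]
  -- the idempotent
  refine ⟨E + B, ?_, ?_, ?_, ?_⟩
  · rw [add_mul, mul_add, mul_add, mm Ep, EB, BE]
    have : B * B = 0 := by
      calc B * B = (B * E) * B := by rw [BE]
        _ = B * (E * B) := by rw [mul_assoc]
        _ = 0 := by rw [EB, mul_zero]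
    rw [this]; abel
  · rw [mul_add, gE, gB]
  · rw [add_mul, Eg, Bg]
  obtain ⟨N, hN⟩ : ∃ N, N = T - (E + B) := ⟨_, rfl⟩
  rw [← hN]
  have gN : g * N = N := by rw [hN, mul_sub, gT, mul_add, gE, gB]
  have Ng : N * g = N := by rw [hN, sub_mul, Tg, add_mul, Eg, Bg]
  have gu : g * (k * star T) = k * star T := by rw [← mul_assoc, gk]
  have ug : (k * star T) * g = k * star T := by rw [mul_assoc, Tsg]
  have EBk : (E + B) * k = 0 := by
    rw [← pk, ← mul_assoc, add_mul, Ep0, Bp]; simp
  have Nu : N * (k * star T) = l := by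
    rw [hN, sub_mul, ← mul_assoc (E + B), EBk, zero_mul, sub_zero, hl, mul_assoc]
  have FNu : F * N * (k * star T) = 0 := by rw [mul_assoc, Nu, Fl]
  have FNE : F * N * E = F * T * E - K0 := by
    rw [hN, mul_sub, sub_mul, mul_add, add_mul, mul_assoc F B E, BE, FB, mul_assoc F E E, mm Ep,
      ← ha, hK0, hG, mul_sub, aE]
    abel
  apply lemU (u := k * star T) (w := w) (e := p) (f := E) (e' := l) (f' := F) gN Ng gu ug gw wg
    (mm hg) (by rw [hE]; abel) (by rw [hF']; abel)
  · have h12 : N * p = T * p := by
      rw [hN, sub_mul, add_mul, Ep0, Bp]; simp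
    calc k * star T * N * p = k * star T * (N * p) := by noncomm_ring
      _ = (k * (star T * T)) * p := by rw [h12]; noncomm_ring
      _ = p := by rw [kh, mm hp]
  · rw [mul_assoc, Nu, mm lp]
  · calc F * (N - N * (k * star T) * N) * w = (F * N - (F * N * (k * star T)) * N) * w := by
          noncomm_ring
      _ = F * N * (E * w) := by rw [FNu, zero_mul, sub_zero, Ew]
      _ = (F * N * E) * w := by noncomm_ring
      _ = F := by rw [FNE, Kw]
  · calc w * (N - N * (k * star T) * N) * E = w * F * (N - N * (k * star T) * N) * E := by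
          rw [wF]
      _ = w * (F * N * E - (F * N * (k * star T)) * N * E) := by noncomm_ring
      _ = E := by rw [FNu, zero_mul, zero_mul, sub_zero, FNE, wK]

end Pool.Agent.X205.AW
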