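import Pool.Agent.X205.AW.Comp

/-!
Halving of infinite projections in a factor.
-/

namespace Pool.Agent.X205.AW

variable {A : Type*} [CStarAlgebra A]

theorem sup_unique {S : Set A} {s t : A} (hs : IsSup S s) (ht : IsSup S t) : s = t := by
  have h1 := hs.2.2 t ht.1 ht.2.1
  have h2 := ht.2.2 s hs.1 hs.2.1
  rw [← h1]; exact comm_of_le ht.1 hs.1 h2

/-- a family of partial isometries with common domain `q` and orthogonal ranges below `p` -/
structure Fam (p q : A) (W : Set A) : Prop where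
  dom : ∀ w ∈ W, star w * w = q
  ran : ∀ w ∈ W, p * w = w
  orth : ∀ v ∈ W, ∀ w ∈ W, v ≠ w → star v * w = 0

section fam

variable {p q : A} {W : Set A}

theorem Fam.pr (hW : Fam p q W) (hq : IsStarProjection q) {w : A} (hw : w ∈ W) :
    IsStarProjection (star w * w) := by rw [hW.dom w hw]; exact hq

theorem Fam.prr (hW : Fam p q W) (hq : IsStarProjection q) {w : A} (hw : w ∈ W) :
    IsStarProjection (w * star w) := pi_star (hW.pr hq hw)

theorem Fam.wq (hW : Fam p q W) (hq : IsStarProjection q) {w : A} (hw : w ∈ W) :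
    w * q = w := by
  have := pi_mul (hW.pr hq hw); rwa [hW.dom w hw] at this

theorem Fam.sup (hA : IsAWStar A) (hW : Fam p q W) (hq : IsStarProjection q) {I : Set A}
    (hI : I ⊆ W) : ∃ s, IsSup ((fun w => w * star w) '' I) s := by
  refine hA.lub _ ?_ ?_
  · rintro _ ⟨w, hw, rfl⟩; exact hW.prr hq (hI hw)
  · rintro _ ⟨v, hv, rfl⟩ _ ⟨w, hw, rfl⟩ hne
    have hvw : v ≠ w := fun h => hne (by rw [h])
    show v * star v * (w * star w) = 0
    calc v * star v * (w * star w) = v * (star v * w) * star w := by noncomm_ring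
      _ = 0 := by rw [hW.orth v (hI hv) w (hI hw) hvw]; simp

theorem Fam.sup_zero (hA : IsAWStar A) (hW : Fam p q W) (hq : IsStarProjection q) {I J : Set A}
    (hI : I ⊆ W) (hJ : J ⊆ W) (hd : Disjoint I J) {s t : A}
    (hs : IsSup ((fun w => w * star w) '' I) s) (ht : IsSup ((fun w => w * star w) '' J) t) :
    s * t = 0 := by
  refine sup_mul hA (by rintro _ ⟨w, hw, rfl⟩; exact hW.prr hq (hJ hw)) ht ?_
  rintro _ ⟨w, hw, rfl⟩
  refine sup_mul' hA (by rintro _ ⟨v, hv, rfl⟩; exact hW.prr hq (hI hv)) hs ?_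
  rintro _ ⟨v, hv, rfl⟩
  have hvw : v ≠ w := fun h => (Set.disjoint_left.1 hd hv) (h ▸ hw)
  show v * star v * (w * star w) = 0
  calc v * star v * (w * star w) = v * (star v * w) * star w := by noncomm_ring
    _ = 0 := by rw [hW.orth v (hI hv) w (hJ hw) hvw]; simp

theorem Fam.union (hA : IsAWStar A) (hW : Fam p q W) (hq : IsStarProjection q) {I J K : Set A}
    (hI : I ⊆ W) (hJ : J ⊆ W) (hd : Disjoint I J) (hK : K = I ∪ J) {s t r : A}
    (hs : IsSup ((fun w => w * star w) '' I) s) (ht : IsSup ((fun w => w * star w) '' J) t)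
    (hr : IsSup ((fun w => w * star w) '' K) r) : r = s + t := by
  have hst := hW.sup_zero hA hq hI hJ hd hs ht
  refine sup_unique hr ⟨proj_add hs.1 ht.1 hst, ?_, ?_⟩
  · rintro _ ⟨w, hw, rfl⟩
    rw [hK] at hw
    rcases hw with hw | hw
    · have h1 : w * star w * s = w * star w := hs.2.1 _ ⟨w, hw, rfl⟩
      show w * star w * (s + t) = w * star w
      rw [mul_add, h1]
      have : w * star w * t = 0 := by rw [← h1, mul_assoc, hst, mul_zero]
      rw [this, add_zero]
    · have h1 : w * star w * t = w * star w := ht.2.1 _ ⟨w, hw, rfl⟩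
      show w * star w * (s + t) = w * star w
      rw [mul_add, h1]
      have : w * star w * s = 0 := by
        rw [← h1, mul_assoc, orth_symm hs.1 ht.1 hst, mul_zero]
      rw [this, zero_add]
  · intro u hu hp
    rw [add_mul, hs.2.2 u hu, ht.2.2 u hu]
    · rintro _ ⟨w, hw, rfl⟩; exact hp _ ⟨w, hK ▸ Or.inr hw, rfl⟩
    · rintro _ ⟨w, hw, rfl⟩; exact hp _ ⟨w, hK ▸ Or.inl hw, rfl⟩

theorem Fam.dom_of_inj (hA : IsAWStar A) (hW : Fam p q W) (hq : IsStarProjection q)
    {I J : Set A} (hI : I ⊆ W) (hJ : J ⊆ W) (hd : Disjoint I J) (σ : A → A)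
    (hσ : ∀ i ∈ I, σ i ∈ J) (hinj : Set.InjOn σ I) {s t : A}
    (hs : IsSup ((fun w => w * star w) '' I) s) (ht : IsSup ((fun w => w * star w) '' J) t) :
    Dom s t := by
  set K := σ '' I with hK
  have hKJ : K ⊆ J := by rintro _ ⟨i, hi, rfl⟩; exact hσ i hi
  obtain ⟨f, hf⟩ := hW.sup hA hq (hKJ.trans hJ)
  have hsf := hW.sup_zero hA hq hI (hKJ.trans hJ) (hd.mono_right hKJ) hs hf
  have hft : f * t = f := hf.2.2 t ht.1 (by
    rintro _ ⟨w, hw, rfl⟩; exact ht.2.1 _ ⟨w, hKJ hw, rfl⟩)
  have hvv : ∀ i ∈ I, star (σ i * star i) * (σ i * star i) = i * star i := by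
    intro i hi
    rw [star_mul, star_star]
    calc i * star (σ i) * (σ i * star i) = i * (star (σ i) * σ i) * star i := by noncomm_ring
      _ = i * star i := by rw [hW.dom _ (hJ (hσ i hi)), hW.wq hq (hI hi)]
  have hvv' : ∀ i ∈ I, (σ i * star i) * star (σ i * star i) = σ i * star (σ i) := by
    intro i hi
    rw [star_mul, star_star]
    calc σ i * star i * (i * star (σ i)) = σ i * (star i * i) * star (σ i) := by noncomm_ring
      _ = _ := by rw [hW.dom _ (hI hi), hW.wq hq (hJ (hσ i hi))]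
  have hne : ∀ i j : I, i ≠ j → (i : A) ≠ (j : A) := fun i j h h' => h (Subtype.ext h')
  have hne' : ∀ i j : I, i ≠ j → σ (i : A) ≠ σ (j : A) := fun i j h h' =>
    h (Subtype.ext (hinj i.2 j.2 h'))
  obtain ⟨w, hw1, hw2⟩ := orth_add hA (ι := I) (v := fun i : I => σ (i : A) * star (i : A))
    (e := s) (f := f) (fun i => by
      show IsStarProjection (star (σ i * star (i : A)) * (σ i * star (i : A)))
      rw [hvv i i.2]; exact hW.prr hq (hI i.2))
    (fun i j hij => by
      show σ (i : A) * star (i : A) * star (σ (j : A) * star (j : A)) = 0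
      rw [star_mul, star_star]
      calc σ (i : A) * star (i : A) * ((j : A) * star (σ (j : A))) =
          σ (i : A) * (star (i : A) * (j : A)) * star (σ (j : A)) := by noncomm_ring
        _ = 0 := by rw [hW.orth _ (hI i.2) _ (hI j.2) (hne i j hij)]; simp)
    (fun i j hij => by
      show star (σ (i : A) * star (i : A)) * (σ (j : A) * star (j : A)) = 0
      rw [star_mul, star_star]
      calc (i : A) * star (σ (i : A)) * (σ (j : A) * star (j : A)) =
          (i : A) * (star (σ (i : A)) * σ (j : A)) * star (j : A) := by noncomm_ring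
        _ = 0 := by
          rw [hW.orth _ (hJ (hσ i i.2)) _ (hJ (hσ j j.2)) (hne' i j hij)]; simp)
    (by
      have : (Set.range fun i : I => star (σ (i : A) * star (i : A)) * (σ (i : A) * star (i : A)))
          = (fun w => w * star w) '' I := by
        ext x
        constructor
        · rintro ⟨i, rfl⟩; exact ⟨i, i.2, (hvv i i.2).symm⟩
        · rintro ⟨i, hi, rfl⟩; exact ⟨⟨i, hi⟩, hvv i hi⟩
      rw [this]; exact hs)
    (by
      have : (Set.range fun i : I => (σ (i : A) * star (i : A)) * star (σ (i : A) * star (i : A)))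
          = (fun w => w * star w) '' K := by
        ext x
        constructor
        · rintro ⟨i, rfl⟩; exact ⟨σ i, ⟨i, i.2, rfl⟩, (hvv' i i.2).symm⟩
        · rintro ⟨_, ⟨i, hi, rfl⟩, rfl⟩; exact ⟨⟨i, hi⟩, hvv' i hi⟩
      rw [this]; exact hf) hsf
  refine Dom.trans ⟨w, hw1, ?_⟩ (dom_of_le hf.1 ht.1 hft)
  rw [← hw2]; exact pi_left (by rw [hw1]; exact hs.1)

end fam

/-- Halving: an infinite projection of a factor contains two orthogonal copies of itself. -/
theorem halving (hA : IsAWStar A) (hF : IsFactor A) {p v : A} (hp : IsStarProjection p)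
    (hv : star v * v = p) (pv : p * v = v) (hne : v * star v ≠ p) :
    ∃ s1 s2 : A, star s1 * s1 = p ∧ star s2 * s2 = p ∧ p * s1 = s1 ∧ p * s2 = s2 ∧
      star s1 * s2 = 0 ∧ star s2 * s1 = 0 := by
  have hvp : IsStarProjection (star v * v) := by rw [hv]; exact hp
  have vp : v * p = v := by rw [← hv]; exact pi_mul hvp
  have hrp : IsStarProjection (v * star v) := pi_star hvp
  have hrle : (v * star v) * p = v * star v := by
    have h1 := range_of hvp pv
    have := congrArg star h1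
    rwa [star_mul, ss hp, ss hrp] at this
  obtain ⟨q, hq⟩ : ∃ q, q = p - v * star v := ⟨_, rfl⟩
  have qp : IsStarProjection q := by rw [hq]; exact proj_sub hrp hp hrle
  have q0 : q ≠ 0 := by rw [hq]; exact sub_ne_zero.2 hne.symm
  have pq : p * q = q := by rw [hq, mul_sub, mm hp, range_of hvp pv]
  have qv : q * v = 0 := by rw [hq, sub_mul, pv, pi_left hvp, sub_self]
  -- the initial sequence
  set u : ℕ → A := fun n => v ^ n * q with hu
  have vu : ∀ n, v * u n = u (n + 1) := fun n => by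
    simp only [hu]; rw [← mul_assoc, ← pow_succ']
  have u0 : u 0 = q := by simp only [hu, pow_zero, one_mul]
  have pu : ∀ n, p * u n = u n := by
    intro n
    cases n with
    | zero => rw [u0]; exact pq
    | succ n => rw [← vu, ← mul_assoc, pv]
  have uu : ∀ n, star (u n) * u n = q := by
    intro n
    induction n with
    | zero => rw [u0, ss qp, mm qp]
    | succ n ih => rw [← vu n, star_mul, mul_assoc, ← mul_assoc (star v), hv, pu, ih]
  have uo : ∀ m n, m < n → star (u m) * u n = 0 := by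
    intro m
    induction m with
    | zero =>
      intro n hn
      obtain ⟨k, rfl⟩ := Nat.exists_eq_succ_of_ne_zero hn.ne'
      rw [u0, ss qp]
      show q * u (k + 1) = 0
      rw [← vu, ← mul_assoc, qv, zero_mul]
    | succ m ih =>
      intro n hn
      obtain ⟨k, rfl⟩ := Nat.exists_eq_succ_of_ne_zero (Nat.ne_of_gt (Nat.zero_lt_of_lt hn))
      rw [← vu m]
      show star (v * u m) * u (k + 1) = 0
      rw [← vu k, star_mul, mul_assoc, ← mul_assoc (star v), hv, pu]
      exact ih k (Nat.lt_of_succ_lt_succ hn)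
  have uo' : ∀ m n, m ≠ n → star (u m) * u n = 0 := by
    intro m n h
    rcases lt_or_gt_of_ne h with h | h
    · exact uo m n h
    · have := congrArg star (uo n m h); rwa [star_mul, star_star, star_zero] at this
  have uinj : Function.Injective u := by
    intro m n h
    by_contra hmn
    have h1 := uo' m n hmn
    rw [← h, uu] at h1
    exact q0 h1
  -- maximal family
  obtain ⟨W, hW0, hW⟩ := zorn_subset_nonempty {W : Set A | Fam p q W} (by
      intro c hc hch _
      refine ⟨⋃₀ c, ⟨?_, ?_, ?_⟩, fun s hs => Set.subset_sUnion_of_mem hs⟩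
      · rintro p ⟨S, hS, hp⟩; exact (hc hS).dom p hp
      · rintro p ⟨S, hS, hp⟩; exact (hc hS).ran p hp
      · rintro p ⟨S, hS, hp⟩ q ⟨S', hS', hq⟩ hpq
        rcases hch.total hS hS' with h | h
        · exact (hc hS').orth p (h hp) q hq hpq
        · exact (hc hS).orth p hp q (h hq) hpq) (Set.range u) ⟨by
        rintro _ ⟨n, rfl⟩; exact uu n, by rintro _ ⟨n, rfl⟩; exact pu n, by
        rintro _ ⟨m, rfl⟩ _ ⟨n, rfl⟩ h
        exact uo' m n (fun h' => h (by rw [h']))⟩
  obtain ⟨hWF, hmax⟩ := hW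
  have hWF : Fam p q W := hWF
  have hWinf : W.Infinite := (Set.infinite_range_of_injective uinj).mono hW0
  haveI : Infinite W := hWinf.to_subtype
  obtain ⟨Φ⟩ : Nonempty (W × Fin 4 ≃ W) := by
    rw [← Cardinal.eq, Cardinal.mk_prod, Cardinal.lift_uzero]
    have h1 : Cardinal.aleph0 ≤ Cardinal.mk W := Cardinal.aleph0_le_mk W
    rw [Cardinal.mul_eq_left h1]
    · simp only [Cardinal.mk_fin, Nat.cast_ofNat, Cardinal.lift_ofNat]
      exact (Cardinal.natCast_lt_aleph0 (n := 4)).le.trans h1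
    · simp
  let S : Fin 4 → Set A := fun j => {w | ∃ h : w ∈ W, (Φ.symm ⟨w, h⟩).2 = j}
  have SW : ∀ j, S j ⊆ W := fun j w hw => hw.1
  have Sd : ∀ i j, i ≠ j → Disjoint (S i) (S j) := by
    intro i j hij
    rw [Set.disjoint_left]
    rintro w ⟨h1, h2⟩ ⟨h3, h4⟩
    exact hij (h2.symm.trans h4)
  classical
  let σ : Fin 4 → A → A := fun j w => if h : w ∈ W then (Φ (⟨w, h⟩, j) : A) else w
  have σS : ∀ j, ∀ w ∈ W, σ j w ∈ S j := by
    intro j w hw
    simp only [σ, hw, dif_pos]
    refine ⟨(Φ (⟨w, hw⟩, j)).2, ?_⟩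
    simp
  have σi : ∀ j, Set.InjOn (σ j) W := by
    intro j w hw w' hw' h
    simp only [σ, hw, hw', dif_pos] at h
    have := Φ.injective (Subtype.ext h)
    exact congrArg (fun x => ((x : W × Fin 4).1 : A)) this
  have hcov : ∀ w ∈ W, ∃ j, w ∈ S j := fun w hw => ⟨_, hw, rfl⟩
  -- suprema
  obtain ⟨H, hH⟩ := hWF.sup hA qp (Set.Subset.refl W)
  obtain ⟨H0, hH0⟩ := hWF.sup hA qp (SW 0)
  obtain ⟨H1, hH1⟩ := hWF.sup hA qp (SW 1)
  obtain ⟨H2, hH2⟩ := hWF.sup hA qp (SW 2)
  obtain ⟨H3, hH3⟩ := hWF.sup hA qp (SW 3)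
  have s123 : (S 1 ∪ S 2) ∪ S 3 ⊆ W := Set.union_subset (Set.union_subset (SW 1) (SW 2)) (SW 3)
  have s013 : (S 0 ∪ S 1) ∪ S 3 ⊆ W := Set.union_subset (Set.union_subset (SW 0) (SW 1)) (SW 3)
  have s13 : S 1 ∪ S 3 ⊆ W := Set.union_subset (SW 1) (SW 3)
  obtain ⟨H123, hH123⟩ := hWF.sup hA qp s123
  obtain ⟨H013, hH013⟩ := hWF.sup hA qp s013
  obtain ⟨H13, hH13⟩ := hWF.sup hA qp s13
  have d0_123 : Disjoint (S 0) ((S 1 ∪ S 2) ∪ S 3) := by
    simp only [Set.disjoint_union_right]
    exact ⟨⟨Sd 0 1 (by decide), Sd 0 2 (by decide)⟩, Sd 0 3 (by decide)⟩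
  have d2_013 : Disjoint ((S 0 ∪ S 1) ∪ S 3) (S 2) := by
    simp only [Set.disjoint_union_left]
    exact ⟨⟨Sd 0 2 (by decide), Sd 1 2 (by decide)⟩, Sd 3 2 (by decide)⟩
  have eqW : W = S 0 ∪ ((S 1 ∪ S 2) ∪ S 3) := by
    ext w
    constructor
    · intro hw
      obtain ⟨j, hj⟩ := hcov w hw
      fin_cases j
      · exact Or.inl hj
      · exact Or.inr (Or.inl (Or.inl hj))
      · exact Or.inr (Or.inl (Or.inr hj))
      · exact Or.inr (Or.inr hj)
    · rintro (hw | hw)
      · exact SW 0 hw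
      · exact s123 hw
  have e1 : H = H0 + H123 := hWF.union hA qp (SW 0) s123 d0_123 eqW hH0 hH123 hH
  have e2 : H13 = H1 + H3 := hWF.union hA qp (SW 1) (SW 3) (Sd 1 3 (by decide)) rfl hH1 hH3 hH13
  have e3 : H013 = H0 + H13 := by
    refine hWF.union hA qp (SW 0) s13 ?_ ?_ hH0 hH13 hH013
    · simp only [Set.disjoint_union_right]
      exact ⟨Sd 0 1 (by decide), Sd 0 3 (by decide)⟩
    · rw [Set.union_assoc]
  -- the remainder
  have Hle : H * p = H := hH.2.2 p hp (by
    rintro _ ⟨w, hw, rfl⟩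
    show w * star w * p = w * star w
    have h1 : p * (w * star w) = w * star w := by rw [← mul_assoc, hWF.ran w hw]
    have := congrArg star h1
    rwa [star_mul, ss hp, ss (hWF.prr qp hw)] at this)
  obtain ⟨r, hr⟩ : ∃ r, r = p - H := ⟨_, rfl⟩
  have rp : IsStarProjection r := by rw [hr]; exact proj_sub hH.1 hp Hle
  have rH : r * H = 0 := by rw [hr, sub_mul, comm_of_le hH.1 hp Hle, mm hH.1, sub_self]
  have Hw : ∀ w ∈ W, H * w = w := by
    intro w hw
    have h1 : H * (w * star w) = w * star w :=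
      comm_of_le (hWF.prr qp hw) hH.1 (hH.2.1 _ ⟨w, hw, rfl⟩)
    rw [← pi_left (hWF.pr qp hw), ← mul_assoc, h1]
  have rw0 : ∀ w ∈ W, r * w = 0 := fun w hw => by
    rw [← Hw w hw, ← mul_assoc, rH, zero_mul]
  have qW : q ∈ W := hW0 ⟨0, u0⟩
  have rq : r * q = 0 := rw0 q qW
  have hrq : Dom r q := by
    rcases comp_orth hA hF rp qp rq with h | h
    · exact h
    · exfalso
      obtain ⟨w, hw1, hw2⟩ := h
      have hw3 : ∀ w' ∈ W, star w * w' = 0 := by
        intro w' hw'
        have h1 : star w * r = star w := by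
          have := congrArg star hw2; rwa [star_mul, ss rp] at this
        rw [← h1, mul_assoc, rw0 w' hw', mul_zero]
      have hwW : w ∉ W := by
        intro h
        have h4 := hw3 w h
        rw [hw1] at h4; exact q0 h4
      have := hmax (y := insert w W) ⟨by
        intro x hx
        rcases Set.mem_insert_iff.1 hx with rfl | hx
        · exact hw1
        · exact hWF.dom x hx, by
        intro x hx
        rcases Set.mem_insert_iff.1 hx with rfl | hx
        · have h5 : p * r = r := by rw [hr, mul_sub, mm hp, comm_of_le hH.1 hp Hle]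
          rw [← hw2, ← mul_assoc, h5]
        · exact hWF.ran x hx, by
        intro x hx y hy hxy
        rcases Set.mem_insert_iff.1 hx with rfl | hx1
        · rcases Set.mem_insert_iff.1 hy with rfl | hy1
          · exact absurd rfl hxy
          · exact hw3 y hy1
        · rcases Set.mem_insert_iff.1 hy with rfl | hy1
          · have := congrArg star (hw3 x hx1); rwa [star_mul, star_star, star_zero] at this
          · exact hWF.orth x hx1 y hy1 hxy⟩ (Set.subset_insert _ _)
      exact hwW (this (Set.mem_insert _ _))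
  have hqH3 : Dom q H3 := by
    have h1 := σS 3 q qW
    refine ⟨σ 3 q, hWF.dom _ (SW 3 h1), ?_⟩
    have h2 : H3 * (σ 3 q * star (σ 3 q)) = σ 3 q * star (σ 3 q) :=
      comm_of_le (hWF.prr qp (SW 3 h1)) hH3.1 (hH3.2.1 _ ⟨_, h1, rfl⟩)
    rw [← pi_left (hWF.pr qp (SW 3 h1)), ← mul_assoc, h2]
  have k1 : Dom H0 H1 := hWF.dom_of_inj hA qp (SW 0) (SW 1) (Sd 0 1 (by decide)) (σ 1)
    (fun i hi => σS 1 i (SW 0 hi)) ((σi 1).mono (SW 0)) hH0 hH1
  have k2 : Dom H123 H0 := hWF.dom_of_inj hA qp s123 (SW 0) d0_123.symm (σ 0)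
    (fun i hi => σS 0 i (s123 hi)) ((σi 0).mono s123) hH123 hH0
  have k3 : Dom H013 H2 := hWF.dom_of_inj hA qp s013 (SW 2) d2_013 (σ 2)
    (fun i hi => σS 2 i (s013 hi)) ((σi 2).mono s013) hH013 hH2
  have k4 : Dom H2 H1 := hWF.dom_of_inj hA qp (SW 2) (SW 1) (Sd 2 1 (by decide)) (σ 1)
    (fun i hi => σS 1 i (SW 2 hi)) ((σi 1).mono (SW 2)) hH2 hH1
  have o13 : H1 * H3 = 0 := hWF.sup_zero hA qp (SW 1) (SW 3) (Sd 1 3 (by decide)) hH1 hH3
  have o0_13 : H0 * H13 = 0 := hWF.sup_zero hA qp (SW 0) s13 (by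
    simp only [Set.disjoint_union_right]
    exact ⟨Sd 0 1 (by decide), Sd 0 3 (by decide)⟩) hH0 hH13
  have k5 : Dom (H0 + r) H13 := by
    rw [e2]
    exact dom_add hH1.1 hH3.1 o13 k1 (hrq.trans hqH3)
  have k6 : Dom p H013 := by
    have : p = H123 + (H0 + r) := by rw [hr, e1]; abel
    rw [this, e3]
    exact dom_add hH0.1 hH13.1 o0_13 k2 k5
  have k7 : Dom p H2 := k6.trans k3
  have k8 : Dom p H1 := k7.trans k4
  have o12 : H1 * H2 = 0 := hWF.sup_zero hA qp (SW 1) (SW 2) (Sd 1 2 (by decide)) hH1 hH2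
  obtain ⟨s1, a1, a2⟩ := k8
  obtain ⟨s2, b1, b2⟩ := k7
  have hs1 : star s1 * H1 = star s1 := by
    have := congrArg star a2; rwa [star_mul, ss hH1.1] at this
  have hss : star s1 * s2 = 0 := by
    rw [← hs1, ← b2, mul_assoc, ← mul_assoc H1, o12]; simp
  have Hjp : ∀ {j : Fin 4} {x : A}, IsSup ((fun w => w * star w) '' S j) x → p * x = x := by
    intro j x hx
    refine comm_of_le hx.1 hp (hx.2.2 p hp ?_)
    rintro _ ⟨w, hw, rfl⟩
    show w * star w * p = w * star w
    have h1 : p * (w * star w) = w * star w := by rw [← mul_assoc, hWF.ran w (SW j hw)]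
    have := congrArg star h1
    rwa [star_mul, ss hp, ss (hWF.prr qp (SW j hw))] at this
  refine ⟨s1, s2, a1, b1, ?_, ?_, hss, ?_⟩
  · rw [← a2, ← mul_assoc, Hjp hH1]
  · rw [← b2, ← mul_assoc, Hjp hH2]
  · have := congrArg star hss; rwa [star_mul, star_star, star_zero] at this

end Pool.Agent.X205.AW
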