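import Pool.Agent.X205.AW.Compress

/-!
Sequences of isometries compressing a finite set of elements to scalars.
-/

open Filter Topology ComplexConjugate

namespace Pool.Agent.X205.AW

variable {A : Type*} [CStarAlgebra A]

theorem norm_one_of {g : A} (hg : IsStarProjection g) (hne : g ≠ 0) : ‖g‖ = 1 := by
  have h := CStarRing.norm_star_mul_self (x := g)
  rw [ss hg, mm hg] at h
  have h0 : 0 < ‖g‖ := norm_pos_iff.2 hne
  nlinarith

theorem exists_seq (hA : IsAWStar A) (hF : IsFactor A) {s1 s2 : A} (hs : Prop2 s1 s2)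
    {g t1 t2 : A} (hg : Dbl g t1 t2) {ι : Type} [Fintype ι] (z : ι → A) :
    ∃ (ξ : ℕ → A) (c : ι → ℂ), (∀ n, star (ξ n) * ξ n = g) ∧ (∀ n, g * ξ n = ξ n) ∧
      ∀ i, Tendsto (fun n => star (ξ n) * z i * ξ n) atTop (𝓝 (c i • g)) := by
  classical
  have n1 := norm_one_of hg.pr hg.ne
  have key : ∀ n : ℕ, ∃ (ξ : A) (c : ι → ℂ), star ξ * ξ = g ∧ g * ξ = ξ ∧
      ∀ i, ‖star ξ * z i * ξ - c i • g‖ ≤ 1 / ((n : ℝ) + 1) := by
    intro n
    obtain ⟨ξ, h1, h2, h3⟩ := compressC hA hF hs hg (ε := 1 / ((n : ℝ) + 1)) (by positivity)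
      ((Finset.univ : Finset ι).toList.map z)
    have h4 : ∀ i, ∃ c : ℂ, ‖star ξ * z i * ξ - c • g‖ ≤ 1 / ((n : ℝ) + 1) := fun i =>
      h3 _ (List.mem_map_of_mem (by simp))
    choose c hc using h4
    exact ⟨ξ, c, h1, h2, hc⟩
  choose ξ c h1 h2 h3 using key
  obtain ⟨K, hK⟩ : ∃ K : ℝ, K = ∑ i, ‖z i‖ := ⟨_, rfl⟩
  have hKi : ∀ i, ‖z i‖ ≤ K := fun i => by
    rw [hK]; exact Finset.single_le_sum (fun j _ => norm_nonneg (z j)) (Finset.mem_univ i)
  have K0 : 0 ≤ K := by rw [hK]; positivity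
  have hb : ∀ n, c n ∈ Metric.closedBall (0 : ι → ℂ) (K + 1) := by
    intro n
    rw [mem_closedBall_zero_iff, pi_norm_le_iff_of_nonneg (by linarith)]
    intro i
    have e1 : c n i • g = star (ξ n) * z i * ξ n - (star (ξ n) * z i * ξ n - c n i • g) := by abel
    have e2 : ‖c n i‖ = ‖c n i • g‖ := by rw [norm_smul, n1, mul_one]
    rw [e2, e1]
    calc _ ≤ ‖star (ξ n) * z i * ξ n‖ + ‖star (ξ n) * z i * ξ n - c n i • g‖ := norm_sub_le _ _
      _ ≤ K + 1 := by
          refine add_le_add ((conj_norm hg.pr (h1 n) _).trans (hKi i)) ((h3 n i).trans ?_)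
          rw [div_le_one (by positivity)]
          have : (0 : ℝ) ≤ n := Nat.cast_nonneg n
          linarith
  obtain ⟨a, _, φ, hφ, hlim⟩ := tendsto_subseq_of_bounded Metric.isBounded_closedBall hb
  refine ⟨fun n => ξ (φ n), a, fun n => h1 _, fun n => h2 _, fun i => ?_⟩
  have l1 : Tendsto (fun n => star (ξ (φ n)) * z i * ξ (φ n) - c (φ n) i • g) atTop (𝓝 0) := by
    have l2 : Tendsto (fun n : ℕ => 1 / ((φ n : ℝ) + 1)) atTop (𝓝 0) :=
      tendsto_one_div_add_atTop_nhds_zero_nat.comp hφ.tendsto_atTop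
    exact squeeze_zero_norm (fun n => h3 (φ n) i) l2
  have l3 : Tendsto (fun n => c (φ n) i • g) atTop (𝓝 (a i • g)) := by
    have : Tendsto (fun n => c (φ n) i) atTop (𝓝 (a i)) := (tendsto_pi_nhds.1 hlim) i
    exact this.smul_const g
  have l4 := l1.add l3
  simpa using l4

/-- Limits of the sesquilinear form along the two sequences. -/
structure BL (g : A) (p q : ℕ → A) (w w' : A) (c : ℂ) : Prop where
  pp : Tendsto (fun n => star (w * p n) * (w' * p n)) atTop (𝓝 (c • g))
  pq : Tendsto (fun n => star (w * p n) * (w' * q n)) atTop (𝓝 0)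
  qp : Tendsto (fun n => star (w * q n) * (w' * p n)) atTop (𝓝 0)
  qq : Tendsto (fun n => star (w * q n) * (w' * q n)) atTop (𝓝 (c • g))

theorem BL.symm {g : A} (hg : IsStarProjection g) {p q : ℕ → A} {w w' : A} {c : ℂ}
    (h : BL g p q w w' c) : BL g p q w' w (conj c) := by
  have e : ∀ a b : A, star (star a * b) = star b * a := fun a b => by rw [star_mul, star_star]
  refine ⟨?_, ?_, ?_, ?_⟩
  · have := h.pp.star
    simp only [e, star_smul, ss hg] at this
    exact this
  · have := h.qp.star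
    simp only [e, star_zero] at this
    exact this
  · have := h.pq.star
    simp only [e, star_zero] at this
    exact this
  · have := h.qq.star
    simp only [e, star_smul, ss hg] at this
    exact this

theorem BL.comb {g : A} {p q : ℕ → A} {w1 w2 w' : A} {c1 c2 : ℂ} (a : ℂ)
    (h1 : BL g p q w' w1 c1) (h2 : BL g p q w' w2 c2) :
    BL g p q w' (w1 - a • w2) (c1 - a * c2) := by
  have e : ∀ x y z : A, star (w' * x) * ((w1 - a • w2) * y) =
      star (w' * x) * (w1 * y) - a • (star (w' * x) * (w2 * y)) := by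
    intro x y z
    rw [sub_mul, mul_sub, smul_mul_assoc, mul_smul_comm]
  refine ⟨?_, ?_, ?_, ?_⟩
  · have := h1.pp.sub (h2.pp.const_smul a)
    rw [smul_smul, ← sub_smul] at this
    refine this.congr (fun n => (e _ _ 0).symm)
  · have := h1.pq.sub (h2.pq.const_smul a)
    rw [smul_zero, sub_zero] at this
    refine this.congr (fun n => (e _ _ 0).symm)
  · have := h1.qp.sub (h2.qp.const_smul a)
    rw [smul_zero, sub_zero] at this
    refine this.congr (fun n => (e _ _ 0).symm)
  · have := h1.qq.sub (h2.qq.const_smul a)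
    rw [smul_smul, ← sub_smul] at this
    refine this.congr (fun n => (e _ _ 0).symm)

theorem BL.comb' {g : A} (hg : IsStarProjection g) {p q : ℕ → A} {w1 w2 w' : A} {c1 c2 : ℂ} (a : ℂ)
    (h1 : BL g p q w1 w' c1) (h2 : BL g p q w2 w' c2) :
    BL g p q (w1 - a • w2) w' (c1 - conj a * c2) := by
  have h := ((h1.symm hg).comb a (h2.symm hg)).symm hg
  simpa using h

theorem BL.uniq {g : A} (hne : g ≠ 0) {p q : ℕ → A} {w w' : A} {c d : ℂ}
    (h1 : BL g p q w w' c) (h2 : BL g p q w w' d) : c = d := by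
  have h := tendsto_nhds_unique h1.pp h2.pp
  have h3 : (c - d) • g = 0 := by rw [sub_smul, h, sub_self]
  rcases smul_eq_zero.1 h3 with h4 | h4
  · exact sub_eq_zero.1 h4
  · exact absurd h4 hne

/-- null vectors -/
theorem BL.null {g : A} {p q : ℕ → A} {w : A} (h : BL g p q w w 0) :
    Tendsto (fun n => w * p n) atTop (𝓝 0) := by
  have h1 := h.pp.norm
  simp only [zero_smul, norm_zero, CStarRing.norm_star_mul_self] at h1
  rw [tendsto_zero_iff_norm_tendsto_zero]
  have h2 := h1.sqrt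
  simp only [Real.sqrt_zero] at h2
  refine h2.congr (fun n => ?_)
  exact Real.sqrt_mul_self (norm_nonneg _)

/-- if `y * w * p n = p n` then `w * p n` does not tend to `0`. -/
theorem not_null {g : A} (hne : g ≠ 0) {p : ℕ → A} (hp : ∀ n, star (p n) * p n = g) {w y : A}
    (hy : ∀ n, y * (w * p n) = p n) (h : Tendsto (fun n => w * p n) atTop (𝓝 0)) : False := by
  have h1 : Tendsto p atTop (𝓝 0) := by
    have := h.const_mul y
    rw [mul_zero] at this
    exact this.congr hy
  have h2 : Tendsto (fun n => star (p n) * p n) atTop (𝓝 0) := by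
    have := h1.star.mul h1
    simpa using this
  have h3 : Tendsto (fun n : ℕ => g) atTop (𝓝 0) := h2.congr hp
  exact hne (tendsto_nhds_unique tendsto_const_nhds h3)

/-- If `w` is null then `B(w', w) = 0`. -/
theorem BL.null_left {g : A} (hne : g ≠ 0) {p q : ℕ → A} (hb : ∀ n, ‖p n‖ ≤ 1) {w w' : A} {c : ℂ}
    (h : BL g p q w w 0) (h' : BL g p q w' w c) : c = 0 := by
  have h1 := h.null
  have h2 : Tendsto (fun n => star (w' * p n) * (w * p n)) atTop (𝓝 0) := by
    rw [tendsto_zero_iff_norm_tendsto_zero]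
    have h3 : Tendsto (fun n => ‖w'‖ * ‖w * p n‖) atTop (𝓝 0) := by
      have := h1.norm.const_mul ‖w'‖
      simpa using this
    refine squeeze_zero (fun n => norm_nonneg _) (fun n => ?_) h3
    calc ‖star (w' * p n) * (w * p n)‖ ≤ ‖star (w' * p n)‖ * ‖w * p n‖ := norm_mul_le _ _
      _ ≤ ‖w'‖ * ‖w * p n‖ := by
          refine mul_le_mul_of_nonneg_right ?_ (norm_nonneg _)
          rw [norm_star]
          calc ‖w' * p n‖ ≤ ‖w'‖ * ‖p n‖ := norm_mul_le _ _
            _ ≤ ‖w'‖ * 1 := mul_le_mul_of_nonneg_left (hb n) (norm_nonneg _)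
            _ = _ := mul_one _
  have h3 := tendsto_nhds_unique h'.pp h2
  rcases smul_eq_zero.1 h3 with h4 | h4
  · exact h4
  · exact absurd h4 hne

theorem exists_BL (hA : IsAWStar A) (hF : IsFactor A) {s1 s2 : A} (hs : Prop2 s1 s2)
    {g t1 t2 : A} (hg : Dbl g t1 t2) {m : ℕ} (u : Fin m → A) :
    ∃ (p q : ℕ → A) (G : Fin m → Fin m → ℂ), (∀ n, star (p n) * p n = g) ∧ (∀ n, g * p n = p n) ∧
      (∀ n, star (q n) * q n = g) ∧ (∀ n, g * q n = q n) ∧ ∀ i j, BL g p q (u i) (u j) (G i j) := by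
  obtain ⟨ξ, c, h1, h2, h3⟩ := exists_seq hA hF hs hg
    (fun ij : Fin m × Fin m => star (u ij.1) * u ij.2)
  have gs := ss hg.pr
  have t1g : star t1 * g = star t1 := by
    have := congrArg star hg.g1; rwa [star_mul, gs] at this
  have t2g : star t2 * g = star t2 := by
    have := congrArg star hg.g2; rwa [star_mul, gs] at this
  have o' : star t2 * t1 = 0 := by
    have := congrArg star hg.o; rwa [star_mul, star_star, star_zero] at this
  have key : ∀ (a b : A) (i j : Fin m) (d : A), star a * g * b = d →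
      Tendsto (fun n => star (u i * (ξ n * a)) * (u j * (ξ n * b))) atTop (𝓝 (c (i, j) • d)) := by
    intro a b i j d hd
    have := ((h3 (i, j)).const_mul (star a)).mul_const b
    rw [mul_smul_comm, smul_mul_assoc, hd] at this
    refine this.congr (fun n => ?_)
    simp only [star_mul]; noncomm_ring
  refine ⟨fun n => ξ n * t1, fun n => ξ n * t2, fun i j => c (i, j), fun n => ?_, fun n => ?_,
    fun n => ?_, fun n => ?_, fun i j => ⟨?_, ?_, ?_, ?_⟩⟩
  · rw [star_mul, mul_assoc, ← mul_assoc (star (ξ n)), h1, hg.g1, hg.a1]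
  · show g * (ξ n * t1) = _; rw [← mul_assoc, h2]
  · rw [star_mul, mul_assoc, ← mul_assoc (star (ξ n)), h1, hg.g2, hg.a2]
  · show g * (ξ n * t2) = _; rw [← mul_assoc, h2]
  · exact key t1 t1 i j g (by rw [t1g, hg.a1])
  · have := key t1 t2 i j 0 (by rw [t1g, hg.o])
    rwa [smul_zero] at this
  · have := key t2 t1 i j 0 (by rw [t2g, o'])
    rwa [smul_zero] at this
  · exact key t2 t2 i j g (by rw [t2g, hg.a2])

end Pool.Agent.X205.AW
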