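import Pool.Agent.X205.AW.Cut

/-!
Suprema, orthogonal additivity, orthogonal comparability.
-/

namespace Pool.Agent.X205.AW

variable {A : Type*} [CStarAlgebra A]

/-- least upper bound among projections -/
def IsSup (S : Set A) (s : A) : Prop :=
  IsStarProjection s ∧ (∀ p ∈ S, p * s = p) ∧
    ∀ t, IsStarProjection t → (∀ p ∈ S, p * t = p) → s * t = s

/-- `e ≾ f`. -/
def Dom (e f : A) : Prop := ∃ v : A, star v * v = e ∧ f * v = v

theorem cut1 (hA : IsAWStar A) (y : A) {t : ℝ} (ht : 0 < t) :
    ∃ p k : A, IsStarProjection p ∧ star k = k ∧ p * k = k ∧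
      k * (star y * y) = p ∧ (star y * y) * k = p ∧ ‖y * (1 - p)‖ ^ 2 ≤ t ∧ ‖k‖ ≤ 2 / t ∧
      (∃ r : A, star r = r ∧ r * r = k ∧ r * (star y * y) = (star y * y) * r ∧ p * r = r ∧
        r * p = r) := by
  obtain ⟨M, h1, h2, hM⟩ := exists_masa_pair (h := star y * y) (g := 1)
    (by rw [star_mul, star_star]) (by simp) (by simp)
  obtain ⟨p, k, hp, _, _, h3⟩ := cut hA hM h1 h2 (.one A) ht
  exact ⟨p, k, hp, h3⟩

theorem cutg (hA : IsAWStar A) {y g : A} (hg : IsStarProjection g) (hy : y * g = y)
    {t : ℝ} (ht : 0 < t) :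
    ∃ p k : A, IsStarProjection p ∧ p * g = p ∧ star k = k ∧ p * k = k ∧
      k * (star y * y) = p ∧ (star y * y) * k = p ∧ ‖y * (g - p)‖ ^ 2 ≤ t ∧ ‖k‖ ≤ 2 / t ∧
      (∃ r : A, star r = r ∧ r * r = k ∧ r * (star y * y) = (star y * y) * r ∧ p * r = r ∧
        r * p = r) := by
  have hy' : g * star y = star y := by
    have := congrArg star hy
    rwa [star_mul, ss hg] at this
  obtain ⟨M, h1, h2, hM⟩ := exists_masa_pair (h := star y * y) (g := g)
    (by rw [star_mul, star_star]) (ss hg) (by rw [mul_assoc, hy, ← mul_assoc, hy'])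
  obtain ⟨p, k, hp, _, h3⟩ := cut hA hM h1 h2 hg ht
  exact ⟨p, k, hp, h3⟩

theorem comm_of_le {p q : A} (hp : IsStarProjection p) (hq : IsStarProjection q)
    (h : p * q = p) : q * p = p := by
  have := congrArg star h
  rwa [star_mul, ss hp, ss hq] at this

theorem orth_symm {p q : A} (hp : IsStarProjection p) (hq : IsStarProjection q)
    (h : p * q = 0) : q * p = 0 := by
  have := congrArg star h
  rwa [star_mul, ss hp, ss hq, star_zero] at this

theorem proj_norm_le {p : A} (hp : IsStarProjection p) : ‖p‖ ≤ 1 := by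
  have h : ‖p‖ * ‖p‖ = ‖p‖ := by
    have := CStarRing.norm_star_mul_self (x := p)
    rw [ss hp, mm hp] at this
    exact this.symm
  rcases eq_or_lt_of_le (norm_nonneg p) with h0 | h0
  · rw [← h0]; exact zero_le_one
  · nlinarith

theorem sup_mul (hA : IsAWStar A) {S : Set A} {s : A} (hS : ∀ p ∈ S, IsStarProjection p)
    (hs : IsSup S s) {y : A} (hy : ∀ p ∈ S, y * p = 0) : y * s = 0 := by
  obtain ⟨hsp, hs1, hs2⟩ := hs
  have key : ∀ t : ℝ, 0 < t → ‖y * s‖ ^ 2 ≤ t := by
    intro t ht
    obtain ⟨p, k, hp, _, _, hk, _, hn, _⟩ := cut1 hA y ht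
    have h1 : ∀ d ∈ S, d * (1 - p) = d := by
      intro d hd
      have : p * d = 0 := by rw [← hk, mul_assoc, mul_assoc, hy d hd]; simp
      rw [mul_sub, mul_one, orth_symm hp (hS d hd) this, sub_zero]
    have h2 := hs2 _ hp.one_sub h1
    have h3 : (1 - p) * s = s := comm_of_le hsp hp.one_sub h2
    have h4 : y * s = (y * (1 - p)) * s := by rw [mul_assoc, h3]
    calc ‖y * s‖ ^ 2 ≤ (‖y * (1 - p)‖ * ‖s‖) ^ 2 := by
          rw [h4]; exact pow_le_pow_left₀ (norm_nonneg _) (norm_mul_le _ _) 2
      _ ≤ (‖y * (1 - p)‖ * 1) ^ 2 := by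
          refine pow_le_pow_left₀ (by positivity) ?_ 2
          exact mul_le_mul_of_nonneg_left (proj_norm_le hsp) (norm_nonneg _)
      _ ≤ t := by rw [mul_one]; exact hn
  have h0 : ‖y * s‖ ^ 2 ≤ 0 := by
    by_contra hcon
    push Not at hcon
    have := key (‖y * s‖ ^ 2 / 2) (by positivity)
    linarith
  have : ‖y * s‖ = 0 := by
    have := le_antisymm h0 (by positivity)
    exact pow_eq_zero_iff (by norm_num) |>.1 this
  exact norm_eq_zero.1 this

theorem sup_mul' (hA : IsAWStar A) {S : Set A} {s : A} (hS : ∀ p ∈ S, IsStarProjection p)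
    (hs : IsSup S s) {y : A} (hy : ∀ p ∈ S, p * y = 0) : s * y = 0 := by
  have h1 : star y * s = 0 := sup_mul hA hS hs (fun p hp => by
    have := congrArg star (hy p hp)
    rwa [star_mul, ss (hS p hp), star_zero] at this)
  have := congrArg star h1
  rwa [star_mul, star_star, ss hs.1, star_zero] at this

/-- Nonzero corners in a factor. -/
theorem corner_ne (hA : IsAWStar A) (hF : IsFactor A) {e f : A} (he : IsStarProjection e)
    (hf : IsStarProjection f) (he0 : e ≠ 0) (hf0 : f ≠ 0) : ∃ a, e * a * f ≠ 0 := by
  by_contra hcon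
  push Not at hcon
  -- maximal orthogonal family in N
  obtain ⟨S, hS⟩ := zorn_subset {S : Set A | (∀ p ∈ S, IsStarProjection p ∧ ∀ a, p * a * f = 0) ∧
    ∀ p ∈ S, ∀ q ∈ S, p ≠ q → p * q = 0} (by
      intro c hc hch
      refine ⟨⋃₀ c, ⟨?_, ?_⟩, fun s hs => Set.subset_sUnion_of_mem hs⟩
      · rintro p ⟨S, hS, hp⟩; exact (hc hS).1 p hp
      · rintro p ⟨S, hS, hp⟩ q ⟨S', hS', hq⟩ hpq
        rcases hch.total hS hS' with h | h
        · exact (hc hS').2 p (h hp) q hq hpq
        · exact (hc hS).2 p hp q (h hq) hpq)
  obtain ⟨⟨h1, h2⟩, hmax⟩ := hS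
  obtain ⟨s, hs⟩ := hA.lub S (fun p hp => (h1 p hp).1) h2
  have hs : IsSup S s := hs
  have hSp : ∀ p ∈ S, IsStarProjection p := fun p hp => (h1 p hp).1
  have sN : ∀ a, s * a * f = 0 := by
    intro a
    rw [mul_assoc]
    exact sup_mul' hA hSp hs (fun p hp => by rw [← mul_assoc]; exact (h1 p hp).2 a)
  have hN : ∀ y, (∀ a, y * a * f = 0) → y * (1 - s) = 0 := by
    intro y hy
    by_contra hne
    set y' := y * (1 - s) with hy'
    have hpos : 0 < ‖y'‖ := norm_pos_iff.2 hne
    obtain ⟨p, k, hp, _, _, hk, _, hn, _⟩ := cut1 hA y' (t := ‖y'‖ ^ 2 / 2) (by positivity)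
    have hp0 : p ≠ 0 := by
      intro h0
      rw [h0, sub_zero, mul_one] at hn
      have : 0 < ‖y'‖ ^ 2 := by positivity
      linarith
    have hyN : ∀ a, y' * a * f = 0 := by
      intro a
      rw [hy', mul_assoc y]; exact hy _
    have hpN : ∀ a, p * a * f = 0 := by
      intro a
      calc p * a * f = k * star y' * (y' * a * f) := by rw [← hk]; noncomm_ring
        _ = 0 := by rw [hyN, mul_zero]
    have hps : p * s = 0 := by
      have : y' * s = 0 := by rw [hy', mul_assoc, sub_mul, mm hs.1]; simp
      calc p * s = k * star y' * (y' * s) := by rw [← hk]; noncomm_ring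
        _ = 0 := by rw [this, mul_zero]
    have horth : ∀ d ∈ S, p * d = 0 := by
      intro d hd
      have h3 : s * d = d := comm_of_le (hSp d hd) hs.1 (hs.2.1 d hd)
      rw [← h3, ← mul_assoc, hps, zero_mul]
    have hnot : p ∉ S := by
      intro hpS
      have := horth p hpS
      rw [mm hp] at this
      exact hp0 this
    have := hmax (y := insert p S) ⟨by
      intro q hq
      rcases Set.mem_insert_iff.1 hq with rfl | hq
      · exact ⟨hp, hpN⟩
      · exact h1 q hq, by
      intro q hq q' hq' hqq
      rcases Set.mem_insert_iff.1 hq with rfl | hq1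
      · rcases Set.mem_insert_iff.1 hq' with rfl | hq2
        · exact absurd rfl hqq
        · exact horth q' hq2
      · rcases Set.mem_insert_iff.1 hq' with rfl | hq2
        · exact orth_symm hp (hSp q hq1) (horth q hq1)
        · exact h2 q hq1 q' hq2 hqq⟩ (Set.subset_insert _ _)
    exact hnot (this (Set.mem_insert _ _))
  have hcent : ∀ a, s * a = a * s := by
    have h3 : ∀ a, s * a * (1 - s) = 0 := fun a => hN _ (fun b => by
      rw [mul_assoc s a b]; exact sN _)
    intro a
    have e1 : s * a = s * a * s := by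
      have := h3 a; rwa [mul_sub, mul_one, sub_eq_zero] at this
    have e2 : a * s = s * a * s := by
      have := congrArg star (h3 (star a))
      rw [star_mul, star_mul, star_star, star_sub, star_one, ss hs.1, star_zero] at this
      rw [← mul_assoc, sub_mul, one_mul, sub_mul, sub_eq_zero] at this
      exact this
    rw [e1, ← e2]
  obtain ⟨c, hc⟩ := hF s hcent
  have hc' : c = 0 ∨ c = 1 := by
    have h1' : (1 : A) ≠ 0 := fun h => he0 (by rw [← mul_one e, h, mul_zero])
    haveI : Nontrivial A := ⟨⟨1, 0, h1'⟩⟩
    have h4 := mm hs.1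
    rw [hc, ← map_mul] at h4
    have h5 := (algebraMap ℂ A).injective h4
    have h6 : c * (c - 1) = 0 := by rw [mul_sub, mul_one, h5, sub_self]
    rcases mul_eq_zero.1 h6 with h7 | h7
    · exact Or.inl h7
    · exact Or.inr (sub_eq_zero.1 h7)
  rcases hc' with h0 | h0
  · have h3 := hN e (fun a => hcon a)
    rw [hc, h0, map_zero, sub_zero, mul_one] at h3
    exact he0 h3
  · have h3 := sN 1
    rw [hc, h0, map_one, one_mul, one_mul] at h3
    exact hf0 h3

/-- Nonzero projections in a factor have nonzero equivalent subprojections. -/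
theorem exists_piece (hA : IsAWStar A) (hF : IsFactor A) {e f : A} (he : IsStarProjection e)
    (hf : IsStarProjection f) (he0 : e ≠ 0) (hf0 : f ≠ 0) :
    ∃ v : A, v ≠ 0 ∧ IsStarProjection (star v * v) ∧ (star v * v) * e = star v * v ∧
      f * v = v := by
  obtain ⟨a, ha⟩ := corner_ne hA hF hf he hf0 he0
  set y := f * a * e with hy
  have hpos : 0 < ‖y‖ := norm_pos_iff.2 ha
  have hye : y * e = y := by rw [hy, mul_assoc, mm he]
  obtain ⟨p, k, hp, hpe, _, _, _, hk, hn, _, r, hr, rr, rh, pr, rp⟩ :=
    cutg hA he hye (t := ‖y‖ ^ 2 / 2) (by positivity)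
  have hp0 : p ≠ 0 := by
    intro h0
    rw [h0, sub_zero, hye] at hn
    have : 0 < ‖y‖ ^ 2 := by positivity
    linarith
  have hvv : star (y * r) * (y * r) = p := by
    rw [star_mul, hr]
    calc r * star y * (y * r) = r * (star y * y) * r := by noncomm_ring
      _ = (star y * y) * (r * r) := by rw [rh]; noncomm_ring
      _ = p := by rw [rr, hk]
  refine ⟨y * r, ?_, ?_, ?_, ?_⟩
  · intro h0
    rw [h0, star_zero, zero_mul] at hvv
    exact hp0 hvv.symm
  · rw [hvv]; exact hp
  · rw [hvv]; exact hpe
  · rw [← mul_assoc, hy, ← mul_assoc, ← mul_assoc, mm hf]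

theorem pi_mul {v : A} (h : IsStarProjection (star v * v)) : v * (star v * v) = v := by
  have h1 : star (v * (1 - star v * v)) * (v * (1 - star v * v)) = 0 := by
    rw [star_mul, star_sub, star_one, ss h]
    calc (1 - star v * v) * star v * (v * (1 - star v * v)) =
        (star v * v) - (star v * v) * (star v * v) - ((star v * v) * (star v * v) -
          (star v * v) * (star v * v) * (star v * v)) := by noncomm_ring
      _ = 0 := by rw [mm h, mm h]; abel
  have h2 := (CStarRing.star_mul_self_eq_zero_iff _).1 h1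
  rw [mul_sub, mul_one, sub_eq_zero] at h2
  exact h2.symm

theorem pi_star {v : A} (h : IsStarProjection (star v * v)) : IsStarProjection (v * star v) := by
  refine ⟨?_, ?_⟩
  · show v * star v * (v * star v) = v * star v
    calc v * star v * (v * star v) = (v * (star v * v)) * star v := by noncomm_ring
      _ = _ := by rw [pi_mul h]
  · show star (v * star v) = v * star v
    rw [star_mul, star_star]

/-- Orthogonal additivity. -/
theorem orth_add (hA : IsAWStar A) {ι : Type*} {v : ι → A} {e f : A}
    (hv : ∀ i, IsStarProjection (star (v i) * v i))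
    (hd : ∀ i j, i ≠ j → v i * star (v j) = 0) (hr : ∀ i j, i ≠ j → star (v i) * v j = 0)
    (he : IsSup (Set.range fun i => star (v i) * v i) e)
    (hf : IsSup (Set.range fun i => v i * star (v i)) f) (hef : e * f = 0) :
    ∃ w, star w * w = e ∧ w * star w = f := by
  have vd : ∀ i, v i * (star (v i) * v i) = v i := fun i => pi_mul (hv i)
  have vd' : ∀ i, (star (v i) * v i) * star (v i) = star (v i) := fun i => by
    have := congrArg star (vd i)
    rwa [star_mul, ss (hv i)] at this
  have hvr : ∀ i, IsStarProjection (v i * star (v i)) := fun i => pi_star (hv i)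
  have hfe : f * e = 0 := orth_symm he.1 hf.1 hef
  have de : ∀ i, (star (v i) * v i) * e = star (v i) * v i := fun i => he.2.1 _ ⟨i, rfl⟩
  have ed : ∀ i, e * (star (v i) * v i) = star (v i) * v i := fun i =>
    comm_of_le (hv i) he.1 (de i)
  have rf : ∀ i, (v i * star (v i)) * f = v i * star (v i) := fun i => hf.2.1 _ ⟨i, rfl⟩
  have fr : ∀ i, f * (v i * star (v i)) = v i * star (v i) := fun i =>
    comm_of_le (hvr i) hf.1 (rf i)
  have ve : ∀ i, v i * e = v i := fun i => by
    rw [← vd i, mul_assoc, de]
  have fv : ∀ i, f * v i = v i := fun i => by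
    have h1 : (v i * star (v i)) * v i = v i := by rw [mul_assoc, vd]
    rw [← h1, ← mul_assoc, fr]
  have vsf : ∀ i, star (v i) * f = star (v i) := fun i => by
    have := congrArg star (fv i); rwa [star_mul, ss hf.1] at this
  have evs : ∀ i, e * star (v i) = star (v i) := fun i => by
    have := congrArg star (ve i); rwa [star_mul, ss he.1] at this
  have ev : ∀ i, e * v i = 0 := fun i => by rw [← fv i, ← mul_assoc, hef, zero_mul]
  have vf : ∀ i, v i * f = 0 := fun i => by rw [← ve i, mul_assoc, hef, mul_zero]
  have vv : ∀ i j, v i * v j = 0 := fun i j => by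
    rw [← ve i, mul_assoc, ev, mul_zero]
  have vsvs : ∀ i j, star (v i) * star (v j) = 0 := fun i j => by
    rw [← star_mul, vv, star_zero]
  -- the projections g_i
  set G : ι → A := fun i => (1 / 2 : ℝ) • (star (v i) * v i + v i * star (v i) + (v i + star (v i)))
    with hG
  have mul4 : ∀ i j, (star (v i) * v i + v i * star (v i) + (v i + star (v i))) *
      (star (v j) * v j + v j * star (v j) + (v j + star (v j))) =
      star (v i) * (v i * star (v j)) * v j + v i * (star (v i) * v j) * star (v j) +
      star (v i) * (v i * star (v j)) + v i * (star (v i) * v j) +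
      (v i * star (v j)) * v j + (star (v i) * v j) * star (v j) + v i * star (v j) +
      star (v i) * v j := by
    intro i j
    have e1 := vv i j
    have e2 := vsvs i j
    calc _ = star (v i) * (v i * star (v j)) * v j + v i * (star (v i) * v j) * star (v j) +
      star (v i) * (v i * star (v j)) + v i * (star (v i) * v j) +
      (v i * star (v j)) * v j + (star (v i) * v j) * star (v j) + v i * star (v j) +
      star (v i) * v j + (star (v i) * (v i * v j) * star (v j) + v i * (star (v i) * star (v j)) * v j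
        + star (v i) * (v i * v j) + v i * (star (v i) * star (v j)) + v i * v j * star (v j)
        + star (v i) * star (v j) * v j + v i * v j + star (v i) * star (v j)) := by noncomm_ring
      _ = _ := by rw [e1, e2]; simp
  have GG : ∀ i, G i * G i = G i := by
    intro i
    simp only [hG]
    rw [smul_mul_smul_comm, mul4]
    have e1 : star (v i) * (v i * star (v i)) = star (v i) := by rw [← mul_assoc, vd']
    have e2 : v i * (star (v i) * v i) * star (v i) = v i * star (v i) := by rw [vd]
    have e3 : (v i * star (v i)) * v i = v i := by rw [mul_assoc, vd]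
    rw [e1, e2, vd, e3, vd']
    have : (1 / 2 * (1 / 2) : ℝ) • (star (v i) * v i + v i * star (v i) + star (v i) + v i + v i +
        star (v i) + v i * star (v i) + star (v i) * v i) =
        (1 / 2 * (1 / 2) : ℝ) • ((2 : ℝ) • (star (v i) * v i + v i * star (v i) +
          (v i + star (v i)))) := by
      congr 1; rw [two_smul]; abel
    rw [this, smul_smul]; norm_num
  have Gs : ∀ i, star (G i) = G i := by
    intro i
    simp only [hG, star_smul, star_add, star_mul, star_star, star_trivial]
    congr 1; abel
  have GO : ∀ i j, i ≠ j → G i * G j = 0 := by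
    intro i j hij
    simp only [hG]
    rw [smul_mul_smul_comm, mul4, hd i j hij, hr i j hij]
    simp
  have Gp : ∀ i, IsStarProjection (G i) := fun i => ⟨GG i, Gs i⟩
  obtain ⟨Γ, hΓ⟩ := hA.lub (Set.range G) (by rintro _ ⟨i, rfl⟩; exact Gp i) (by
    rintro _ ⟨i, rfl⟩ _ ⟨j, rfl⟩ hij
    exact GO i j (fun h => hij (by rw [h])))
  have hΓ : IsSup (Set.range G) Γ := hΓ
  have hGpr : ∀ p ∈ Set.range G, IsStarProjection p := by rintro _ ⟨i, rfl⟩; exact Gp i
  have GΓ : ∀ i, G i * Γ = G i := fun i => hΓ.2.1 _ ⟨i, rfl⟩
  -- m_i Γ = G_i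
  have mG : ∀ i, (star (v i) * v i + v i * star (v i)) * G i = G i := by
    intro i
    simp only [hG, mul_smul_comm]
    congr 1
    have e1 : star (v i) * (v i * star (v i)) = star (v i) := by rw [← mul_assoc, vd']
    have e3 : (v i * star (v i)) * v i = v i := by rw [mul_assoc, vd]
    calc (star (v i) * v i + v i * star (v i)) *
        (star (v i) * v i + v i * star (v i) + (v i + star (v i))) =
        (star (v i) * v i) * (star (v i) * v i) + star (v i) * (v i * v i) * star (v i) +
        star (v i) * (v i * v i) + (star (v i) * v i) * star (v i) +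
        v i * (star (v i) * star (v i)) * v i + (v i * star (v i)) * (v i * star (v i)) +
        (v i * star (v i)) * v i + v i * (star (v i) * star (v i)) := by noncomm_ring
      _ = _ := by rw [mm (hv i), mm (hvr i), vv, vsvs, e3, vd']; simp; abel
  have mGj : ∀ i j, i ≠ j → (star (v i) * v i + v i * star (v i)) * G j = 0 := by
    intro i j hij
    simp only [hG, mul_smul_comm]
    have e1 := hd i j hij
    have e2 := hr i j hij
    have : (star (v i) * v i + v i * star (v i)) *
        (star (v j) * v j + v j * star (v j) + (v j + star (v j))) =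
        star (v i) * (v i * star (v j)) * v j + star (v i) * (v i * v j) * star (v j) +
        star (v i) * (v i * v j) + star (v i) * (v i * star (v j)) +
        v i * (star (v i) * star (v j)) * v j + v i * (star (v i) * v j) * star (v j) +
        v i * (star (v i) * v j) + v i * (star (v i) * star (v j)) := by noncomm_ring
    rw [this, e1, e2, vv, vsvs]; simp
  have mΓ : ∀ i, (star (v i) * v i + v i * star (v i)) * Γ = G i := by
    intro i
    have h1 : (star (v i) * v i + v i * star (v i)) * (1 - G i) * Γ = 0 := by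
      refine sup_mul hA hGpr hΓ ?_
      rintro _ ⟨j, rfl⟩
      by_cases h : i = j
      · subst h; rw [mul_assoc, sub_mul, one_mul, GG, sub_self, mul_zero]
      · rw [mul_assoc, sub_mul, one_mul, GO i j h, sub_zero, mGj i j h]
    have h2 : (star (v i) * v i + v i * star (v i)) * Γ =
        (star (v i) * v i + v i * star (v i)) * (1 - G i) * Γ +
        (star (v i) * v i + v i * star (v i)) * G i * Γ := by noncomm_ring
    rw [h2, h1, mG, GΓ, zero_add]
  have Γm : ∀ i, Γ * (star (v i) * v i + v i * star (v i)) = G i := by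
    intro i
    have := congrArg star (mΓ i)
    rwa [star_mul, star_add, ss (hv i), ss (hvr i), ss hΓ.1, Gs] at this
  -- the partial isometry
  have Γd : ∀ i, Γ * (star (v i) * v i) = (1 / 2 : ℝ) • (star (v i) * v i + v i) := by
    intro i
    have h1 : star (v i) * v i = (star (v i) * v i + v i * star (v i)) * (star (v i) * v i) := by
      have : (star (v i) * v i + v i * star (v i)) * (star (v i) * v i) =
        (star (v i) * v i) * (star (v i) * v i) + v i * (star (v i) * star (v i)) * v i := by
        noncomm_ring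
      rw [this, mm (hv i), vsvs]; simp
    nth_rewrite 1 [h1]
    rw [← mul_assoc, Γm]
    simp only [hG, smul_mul_assoc]
    congr 1
    calc (star (v i) * v i + v i * star (v i) + (v i + star (v i))) * (star (v i) * v i) =
        (star (v i) * v i) * (star (v i) * v i) + v i * (star (v i) * star (v i)) * v i +
        v i * (star (v i) * v i) + (star (v i) * star (v i)) * v i := by noncomm_ring
      _ = _ := by rw [mm (hv i), vsvs, vd]; simp
  have Γr : ∀ i, Γ * (v i * star (v i)) = (1 / 2 : ℝ) • (v i * star (v i) + star (v i)) := by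
    intro i
    have h1 : v i * star (v i) = (star (v i) * v i + v i * star (v i)) * (v i * star (v i)) := by
      have : (star (v i) * v i + v i * star (v i)) * (v i * star (v i)) =
        (v i * star (v i)) * (v i * star (v i)) + star (v i) * (v i * v i) * star (v i) := by
        noncomm_ring
      rw [this, mm (hvr i), vv]; simp
    nth_rewrite 1 [h1]
    rw [← mul_assoc, Γm]
    simp only [hG, smul_mul_assoc]
    congr 1
    calc (star (v i) * v i + v i * star (v i) + (v i + star (v i))) * (v i * star (v i)) =
        (v i * star (v i)) * (v i * star (v i)) + star (v i) * (v i * v i) * star (v i) +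
        (v i * v i) * star (v i) + (star (v i) * v i) * star (v i) := by noncomm_ring
      _ = _ := by rw [mm (hvr i), vv, vd']; simp
  obtain ⟨w, hw⟩ : ∃ w, w = (2 : ℝ) • (f * Γ * e) := ⟨_, rfl⟩
  have ws : star w = (2 : ℝ) • (e * Γ * f) := by
    rw [hw, star_smul, star_mul, star_mul, ss he.1, ss hf.1, ss hΓ.1, star_trivial, ← mul_assoc]
  have wd : ∀ i, w * (star (v i) * v i) = v i := by
    intro i
    rw [hw, smul_mul_assoc, mul_assoc (f * Γ), ed, mul_assoc f, Γd, mul_smul_comm, smul_smul,
      mul_add, fv]
    have : f * (star (v i) * v i) = 0 := by rw [← ed i, ← mul_assoc, hfe, zero_mul]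
    rw [this]; norm_num
  have wr : ∀ i, star w * (v i * star (v i)) = star (v i) := by
    intro i
    rw [ws, smul_mul_assoc, mul_assoc (e * Γ), fr, mul_assoc e, Γr, mul_smul_comm, smul_smul,
      mul_add, evs]
    have : e * (v i * star (v i)) = 0 := by rw [← mul_assoc, ev, zero_mul]
    rw [this]; norm_num
  have we : w * e = w := by rw [hw, smul_mul_assoc, mul_assoc, mm he.1]
  have wsf : star w * f = star w := by rw [ws, smul_mul_assoc, mul_assoc, mm hf.1]
  refine ⟨w, ?_, ?_⟩
  · have h1 : (star w * w - e) * e = 0 := by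
      refine sup_mul hA (by rintro _ ⟨i, rfl⟩; exact hv i) he ?_
      rintro _ ⟨i, rfl⟩
      show (star w * w - e) * (star (v i) * v i) = 0
      rw [sub_mul, ed, mul_assoc, wd]
      have h2 : star w * v i = star (v i) * v i := by
        have : v i = (v i * star (v i)) * v i := by rw [mul_assoc, vd]
        nth_rewrite 1 [this]
        rw [← mul_assoc, wr]
      rw [h2, sub_self]
    rw [sub_mul, mm he.1, mul_assoc, we, sub_eq_zero] at h1
    exact h1
  · have h1 : (w * star w - f) * f = 0 := by
      refine sup_mul hA (by rintro _ ⟨i, rfl⟩; exact hvr i) hf ?_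
      rintro _ ⟨i, rfl⟩
      show (w * star w - f) * (v i * star (v i)) = 0
      rw [sub_mul, fr, mul_assoc, wr]
      have h2 : w * star (v i) = v i * star (v i) := by
        have : star (v i) = (star (v i) * v i) * star (v i) := (vd' i).symm
        nth_rewrite 1 [this]
        rw [← mul_assoc, wd]
      rw [h2, sub_self]
    rw [sub_mul, mm hf.1, mul_assoc, wsf, sub_eq_zero] at h1
    exact h1

end Pool.Agent.X205.AW
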