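import Pool.Agent.X205.AW.Fin

/-!
Elements which are almost idempotent off a finite projection are clean.
-/

namespace Pool.Agent.X205.AW

variable {A : Type*} [CStarAlgebra A]

theorem near_clean (hA : IsAWStar A) (hF : IsFactor A) {s1 s2 : A} (hs : Prop2 s1 s2)
    {g p T : A} (hg : IsStarProjection g) (hp : IsStarProjection p)
    (hf : FinP p) (gT : g * T = T) (Tg : T * g = T) {R ε : ℝ} (hR : ‖T‖ + 1 ≤ R)
    (hε : ‖(T * T - T) * (g - p)‖ ≤ ε) (hεR : 2048 * R ^ 3 * ε ≤ 1) : CC g T := by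
  have hR1 : 1 ≤ R := by have := norm_nonneg T; linarith
  have hTR : ‖T‖ ≤ R := by linarith
  obtain ⟨δ, hδ⟩ : ∃ δ : ℝ, δ = 1 / (16 * R) := ⟨_, rfl⟩
  have δ0 : 0 < δ := by rw [hδ]; positivity
  have δR : δ * R = 1 / 16 := by rw [hδ]; field_simp
  have δ1 : δ ≤ 1 / 16 := by
    have : δ * 1 ≤ δ * R := mul_le_mul_of_nonneg_left hR1 δ0.le
    linarith
  obtain ⟨q, k, hq, qg, ks, qk, kh, hk, hn, kn, _⟩ :=
    cutg hA hg Tg (t := δ ^ 2) (by positivity)
  have gq := comm_of_le hq hg qg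
  obtain ⟨E, hE⟩ : ∃ E, E = g - q := ⟨_, rfl⟩
  rw [← hE] at hn
  have Ep : IsStarProjection E := by rw [hE]; exact proj_sub hq hg qg
  have Eg : E * g = E := by rw [hE, sub_mul, mm hg, qg]
  have gE : g * E = E := comm_of_le Ep hg Eg
  have qE : q * E = 0 := by rw [hE, mul_sub, qg, mm hq, sub_self]
  have Eq : E * q = 0 := orth_symm hq Ep qE
  have nTE : ‖T * E‖ ≤ δ := (le_abs_self _).trans (abs_le_of_sq_le_sq hn δ0.le)
  have nk : ‖k‖ ≤ 512 * R ^ 2 := by
    refine kn.trans (le_of_eq ?_)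
    rw [hδ]; field_simp; norm_num
  have pn : ∀ {x : A}, IsStarProjection x → ∀ y, ‖x * y‖ ≤ ‖y‖ := by
    intro x hx y
    calc ‖x * y‖ ≤ ‖x‖ * ‖y‖ := norm_mul_le _ _
      _ ≤ 1 * ‖y‖ := mul_le_mul_of_nonneg_right (proj_norm_le hx) (norm_nonneg _)
      _ = _ := one_mul _
  have pn' : ∀ {x : A}, IsStarProjection x → ∀ y, ‖y * x‖ ≤ ‖y‖ := by
    intro x hx y
    calc ‖y * x‖ ≤ ‖y‖ * ‖x‖ := norm_mul_le _ _
      _ ≤ ‖y‖ * 1 := mul_le_mul_of_nonneg_left (proj_norm_le hx) (norm_nonneg _)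
      _ = _ := mul_one _
  -- Z1
  obtain ⟨Z, EZ, ZE, hZ1, hZ2⟩ := near (g := E) (N := E - E * T * E) (mm Ep)
    (by rw [mul_sub, mm Ep, ← mul_assoc, ← mul_assoc, mm Ep])
    (by rw [sub_mul, mm Ep, mul_assoc _ E E, mm Ep])
    (by
      have : E - (E - E * T * E) = E * (T * E) := by noncomm_ring
      rw [this]
      exact lt_of_le_of_lt ((pn Ep _).trans nTE) (by linarith))
  have nZ : ‖Z‖ ≤ 2 := by
    have h1 : Z = E + E * (T * E) * Z := by
      have := hZ1
      rw [sub_mul, EZ] at this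
      calc Z = (Z - E * T * E * Z) + E * T * E * Z := by abel
        _ = E + E * T * E * Z := by rw [this]
        _ = _ := by noncomm_ring
    have h2 : ‖Z‖ ≤ 1 + δ * ‖Z‖ := by
      calc ‖Z‖ = ‖E + E * (T * E) * Z‖ := by rw [← h1]
        _ ≤ ‖E‖ + ‖E * (T * E) * Z‖ := norm_add_le _ _
        _ ≤ 1 + δ * ‖Z‖ := by
            refine add_le_add (proj_norm_le Ep) ?_
            refine (norm_mul_le _ _).trans ?_
            exact mul_le_mul_of_nonneg_right ((pn Ep _).trans nTE) (norm_nonneg _)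
    nlinarith [norm_nonneg Z]
  -- range projection of p q
  obtain ⟨ρ, l, hρ, hl, y1, y2, y3, y4, w, hw1, hw2⟩ := range_proj hA hs (p * q)
  have ρq : ρ * q = ρ := by
    have := y3 (1 - q) (by rw [mul_assoc, mul_sub, mul_one, mm hq, sub_self, mul_zero])
    rw [mul_sub, mul_one, sub_eq_zero] at this; exact this.symm
  have qρ := comm_of_le hρ hq ρq
  have pl : p * l = l := by
    have := y4 (1 - p) (by rw [← mul_assoc, sub_mul, one_mul, mm hp, sub_self, zero_mul])
    rw [sub_mul, one_mul, sub_eq_zero] at this; exact this.symm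
  have lp : l * p = l := by
    have := congrArg star pl; rwa [star_mul, ss hp, ss hl] at this
  have ρfin : FinP ρ := by
    have h1 : FinP l := hf.sub hp hl lp
    have h2 := h1.equiv (w := star w) hl (by rw [star_star, hw2])
    rwa [star_star, hw1] at h2
  obtain ⟨q', hq'⟩ : ∃ q', q' = q - ρ := ⟨_, rfl⟩
  have q'p : IsStarProjection q' := by rw [hq']; exact proj_sub hρ hq ρq
  have qq' : q * q' = q' := by rw [hq', mul_sub, mm hq, qρ]
  have q'q : q' * q = q' := by rw [hq', sub_mul, mm hq, ρq]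
  have gq' : g * q' = q' := by rw [← qq', ← mul_assoc, gq]
  have q'ρ : q' * ρ = 0 := by rw [hq', sub_mul, qρ, mm hρ, sub_self]
  have ρq' : ρ * q' = 0 := orth_symm q'p hρ q'ρ
  have pq' : p * q' = 0 := by
    have h1 : p * q * q' = p * q' := by rw [mul_assoc, qq']
    rw [← h1, ← y1, mul_assoc, ρq', mul_zero]
  obtain ⟨S, hS⟩ : ∃ S, S = q * T * q - q * T * (-Z) * T * q := ⟨_, rfl⟩
  have qS : q * S = S := by
    rw [hS, mul_sub]; simp only [← mul_assoc]; rw [mm hq]
  have Sq : S * q = S := by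
    rw [hS, sub_mul, mul_assoc _ q q, mul_assoc _ q q, mm hq]
  have est : ‖(q - S) * q'‖ ≤ 3 / 8 := by
    have e1 : (q - S) * q' = -(k * star T * ((T * T - T) * (g - p)) * q') -
        q * (T * E) * Z * (T * q') := by
      have f1 : (T * T - T) * (g - p) * q' = (T * T - T) * q' := by
        rw [mul_assoc, sub_mul g p, gq', pq', sub_zero]
      have f2 : k * star T * ((T * T - T) * (g - p)) * q' = q * T * q' - q' := by
        calc k * star T * ((T * T - T) * (g - p)) * q' =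
            k * star T * ((T * T - T) * (g - p) * q') := by noncomm_ring
          _ = (k * (star T * T)) * T * q' - (k * (star T * T)) * q' := by rw [f1]; noncomm_ring
          _ = _ := by rw [kh, qq']
      have f3 : q * (T * E) * Z * (T * q') = q * T * Z * T * q' := by
        calc q * (T * E) * Z * (T * q') = q * T * (E * Z) * T * q' := by noncomm_ring
          _ = _ := by rw [EZ]
      rw [f2, f3, sub_mul, qq', hS, sub_mul, mul_assoc _ q q', mul_assoc _ q q', qq']
      noncomm_ring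
    rw [e1]
    have n1 : ‖-(k * star T * ((T * T - T) * (g - p)) * q')‖ ≤ 1 / 4 := by
      rw [norm_neg]
      refine (pn' q'p _).trans ?_
      calc ‖k * star T * ((T * T - T) * (g - p))‖ ≤ (‖k‖ * ‖star T‖) * ‖(T * T - T) * (g - p)‖ :=
            (norm_mul_le _ _).trans (mul_le_mul_of_nonneg_right (norm_mul_le _ _)
              (norm_nonneg _))
        _ ≤ (512 * R ^ 2 * R) * ε := by
            refine mul_le_mul ?_ hε (norm_nonneg _) (by positivity)
            rw [norm_star]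
            exact mul_le_mul nk hTR (norm_nonneg _) (by positivity)
        _ = (2048 * R ^ 3 * ε) / 4 := by ring
        _ ≤ 1 / 4 := by linarith
    have n2 : ‖q * (T * E) * Z * (T * q')‖ ≤ 1 / 8 := by
      calc ‖q * (T * E) * Z * (T * q')‖ ≤ ‖q * (T * E) * Z‖ * ‖T * q'‖ := norm_mul_le _ _
        _ ≤ (‖q * (T * E)‖ * ‖Z‖) * ‖T * q'‖ :=
            mul_le_mul_of_nonneg_right (norm_mul_le _ _) (norm_nonneg _)
        _ ≤ (δ * 2) * R := by
            refine mul_le_mul ?_ ((pn' q'p _).trans hTR) (norm_nonneg _) (by positivity)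
            exact mul_le_mul ((pn hq _).trans nTE) nZ (norm_nonneg _) δ0.le
        _ = 2 * (δ * R) := by ring
        _ = 1 / 8 := by rw [δR]; norm_num
    calc _ ≤ _ + _ := norm_sub_le _ _
      _ ≤ 1 / 4 + 1 / 8 := add_le_add n1 n2
      _ = 3 / 8 := by norm_num
  -- inner corner q'
  obtain ⟨W, qW, Wq, hW1, hW2⟩ := near (g := q') (N := q' * S * q') (mm q'p)
    (by rw [← mul_assoc, ← mul_assoc, mm q'p]) (by rw [mul_assoc _ q' q', mm q'p])
    (by
      have : q' - q' * S * q' = q' * ((q - S) * q') := by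
        rw [sub_mul, mul_sub, qq', mm q'p]; noncomm_ring
      rw [this]
      exact lt_of_le_of_lt ((pn q'p _).trans est) (by norm_num))
  have CCS : CC q S := by
    refine HN (e := q') (f := ρ) (P1 := 0) (W1 := W) (mm q'p) (mm hρ) q'ρ ρq'
      (by rw [hq']; abel) qS Sq (by simp) (by simp) (by simp) qW Wq (by rw [sub_zero, hW1])
      (by rw [sub_zero, hW2]) ?_
    refine finite_clean hA hF hs hρ ρfin ?_ ?_
    · rw [mul_sub]; simp only [← mul_assoc]; rw [mm hρ]
    · rw [sub_mul, mul_assoc _ ρ ρ, mul_assoc _ ρ ρ, mm hρ]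
  refine HN (e := E) (f := q) (P1 := E) (W1 := -Z) (mm Ep) (mm hq) Eq qE
    (by rw [hE]; abel) gT Tg (mm Ep) (mm Ep) (mm Ep) (by rw [mul_neg, EZ]) (by rw [neg_mul, ZE])
    ?_ ?_ ?_
  · have : (E * T * E - E) * -Z = (E - E * T * E) * Z := by noncomm_ring
    rw [this, hZ1]
  · have : -Z * (E * T * E - E) = Z * (E - E * T * E) := by noncomm_ring
    rw [this, hZ2]
  · rw [← hS]; exact CCS

end Pool.Agent.X205.AW
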