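import Mathlib

/-!
Ring-theoretic part: units and clean elements of corners.
-/

namespace Pool.Agent.X205.AW

section ring
variable {R : Type*} [Ring R]

/-- `N` is a unit of the corner ring `gRg`. -/
def CU (g N : R) : Prop :=
  g * N = N ∧ N * g = N ∧ ∃ W, g * W = W ∧ W * g = W ∧ N * W = g ∧ W * N = g

/-- `T` is clean in the corner ring `gRg` (for `T` in the corner). -/
def CC (g T : R) : Prop := ∃ P, P * P = P ∧ g * P = P ∧ P * g = P ∧ CU g (T - P)

theorem ra {a b c : R} (h : a * b = c) (x : R) : a * (b * x) = c * x := by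
  rw [← mul_assoc, h]

theorem lemU {g N u w e f e' f' : R} (hN1 : g * N = N) (hN2 : N * g = N)
    (hu1 : g * u = u) (hu2 : u * g = u) (hw1 : g * w = w) (hw2 : w * g = w)
    (hg : g * g = g)
    (hef : e + f = g) (hef' : e' + f' = g)
    (h1 : u * N * e = e) (h2 : e' * N * u = e')
    (h3 : f' * (N - N * u * N) * w = f') (h4 : w * (N - N * u * N) * f = f) : CU g N := by
  have a1 : e' * (N - N * u * N) = 0 := by
    have : e' * (N * u * N) = e' * N := by
      rw [← mul_assoc, ← mul_assoc, h2]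
    rw [mul_sub, this, sub_self]
  have a2 : (N - N * u * N) * e = 0 := by
    have : (N * u * N) * e = N * e := by
      rw [mul_assoc N u N, mul_assoc N (u * N) e, h1]
    rw [sub_mul, this, sub_self]
  have gM : g * (N - N * u * N) = N - N * u * N := by
    rw [mul_sub, ← mul_assoc, ← mul_assoc, hN1]
  have Mg : (N - N * u * N) * g = N - N * u * N := by
    rw [sub_mul, mul_assoc (N * u) N g, hN2]
  have k1 : (N - N * u * N) * w = f' := by
    have : g * ((N - N * u * N) * w) = f' := by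
      rw [← hef', add_mul, ← mul_assoc, ← mul_assoc, a1, h3, zero_mul, zero_add]
    rw [← mul_assoc, gM] at this
    exact this
  have k2 : w * (N - N * u * N) = f := by
    have : (w * (N - N * u * N)) * g = f := by
      rw [← hef, mul_add, h4, mul_assoc w _ e, a2, mul_zero, zero_add]
    rw [mul_assoc, Mg] at this
    exact this
  have f'g : f' * g = f' := by rw [← k1, mul_assoc, hw2]
  have gf : g * f = f := by rw [← k2, ← mul_assoc, hw1]
  have ge : g * e = e := by
    have := hef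
    have h5 : e = g - f := by rw [← hef]; abel
    rw [h5, mul_sub, hg, gf]
  have e'g : e' * g = e' := by
    have h5 : e' = g - f' := by rw [← hef']; abel
    rw [h5, sub_mul, hg, f'g]
  refine ⟨hN1, hN2, u + (g - u * N) * w * (g - N * u), ?_, ?_, ?_, ?_⟩
  · have : g * (g - u * N) = g - u * N := by rw [mul_sub, hg, ← mul_assoc, hu1]
    rw [mul_add, hu1, ← mul_assoc, ← mul_assoc, this]
  · have : (g - N * u) * g = g - N * u := by rw [sub_mul, hg, mul_assoc, hu2]
    rw [add_mul, hu2, mul_assoc _ (g - N * u) g, this]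
  · have e1 : N * (u + (g - u * N) * w * (g - N * u)) =
        N * u + (N - N * u * N) * w * (g - N * u) := by
      have : N * ((g - u * N) * w * (g - N * u)) = (N * g - N * u * N) * w * (g - N * u) := by
        noncomm_ring
      rw [mul_add, this, hN2]
    rw [e1, k1, mul_sub, f'g]
    have : N * u = e' + f' * (N * u) := by
      have h6 : g * (N * u) = N * u := by rw [← mul_assoc, hN1]
      calc N * u = g * (N * u) := h6.symm
        _ = e' * N * u + f' * (N * u) := by rw [← hef', add_mul]; simp only [mul_assoc]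
        _ = _ := by rw [h2]
    calc N * u + (f' - f' * (N * u)) = (e' + f' * (N * u)) + (f' - f' * (N * u)) := by
          rw [← this]
      _ = e' + f' := by abel
      _ = g := hef'
  · have e1 : (u + (g - u * N) * w * (g - N * u)) * N =
        u * N + (g - u * N) * (w * (N - N * u * N)) := by
      have : ((g - u * N) * w * (g - N * u)) * N = (g - u * N) * (w * (g * N - N * u * N)) := by
        noncomm_ring
      rw [add_mul, this, hN1]
    rw [e1, k2, sub_mul, gf]
    have : u * N = e + u * N * f := by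
      calc u * N = u * N * g := by rw [mul_assoc, hN2]
        _ = u * N * e + u * N * f := by rw [← hef, mul_add]
        _ = _ := by rw [h1]
    calc u * N + (f - u * N * f) = (e + u * N * f) + (f - u * N * f) := by rw [← this]
      _ = e + f := by abel
      _ = g := hef

/-- Han-Nicholson in corners. -/
theorem HN {g e f T P1 W1 : R} (he : e * e = e) (hf : f * f = f) (hef : e * f = 0)
    (hfe : f * e = 0) (hg : e + f = g) (hT1 : g * T = T) (hT2 : T * g = T)
    (hP : P1 * P1 = P1) (eP : e * P1 = P1) (Pe : P1 * e = P1)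
    (eW : e * W1 = W1) (We : W1 * e = W1)
    (hW : (e * T * e - P1) * W1 = e) (hW' : W1 * (e * T * e - P1) = e)
    (h2 : CC f (f * T * f - f * T * W1 * T * f)) : CC g T := by
  obtain ⟨P2, hP2, fP2, P2f, hfs, hsf, W2, fW2, W2f, hS, hS'⟩ := h2
  have gg : g * g = g := by
    rw [← hg, add_mul, mul_add, mul_add, he, hf, hef, hfe]; abel
  have eg : e * g = e := by rw [← hg, mul_add, he, hef, add_zero]
  have ge : g * e = e := by rw [← hg, add_mul, he, hfe, add_zero]
  have fg : f * g = f := by rw [← hg, mul_add, hf, hfe, zero_add]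
  have gf : g * f = f := by rw [← hg, add_mul, hf, hef, zero_add]
  have gP1 : g * P1 = P1 := by rw [← eP, ← mul_assoc, ge]
  have P1g : P1 * g = P1 := by rw [← Pe, mul_assoc, eg]
  have gP2 : g * P2 = P2 := by rw [← fP2, ← mul_assoc, gf]
  have P2g : P2 * g = P2 := by rw [← P2f, mul_assoc, fg]
  have P1P2 : P1 * P2 = 0 := by rw [← Pe, ← fP2, mul_assoc, ← mul_assoc e, hef, zero_mul, mul_zero]
  have P2P1 : P2 * P1 = 0 := by rw [← P2f, ← eP, mul_assoc, ← mul_assoc f, hfe, zero_mul, mul_zero]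
  have P2e : P2 * e = 0 := by rw [← P2f, mul_assoc, hfe, mul_zero]
  have eP2 : e * P2 = 0 := by rw [← fP2, ← mul_assoc, hef, zero_mul]
  have P1f : P1 * f = 0 := by rw [← Pe, mul_assoc, hef, mul_zero]
  have fP1 : f * P1 = 0 := by rw [← eP, ← mul_assoc, hfe, zero_mul]
  have W1P2 : W1 * P2 = 0 := by rw [← We, mul_assoc, eP2, mul_zero]
  have P2W1 : P2 * W1 = 0 := by rw [← eW, ← mul_assoc, P2e, zero_mul]
  have gW1 : g * W1 = W1 := by rw [← eW, ← mul_assoc, ge]
  have W1g : W1 * g = W1 := by rw [← We, mul_assoc, eg]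
  have gW2 : g * W2 = W2 := by rw [← fW2, ← mul_assoc, gf]
  have W2g : W2 * g = W2 := by rw [← W2f, mul_assoc, fg]
  have W1f : W1 * f = 0 := by rw [← We, mul_assoc, hef, mul_zero]
  have fW1 : f * W1 = 0 := by rw [← eW, ← mul_assoc, hfe, zero_mul]
  refine ⟨P1 + P2, ?_, ?_, ?_, ?_⟩
  · rw [add_mul, mul_add, mul_add, hP, hP2, P1P2, P2P1]; abel
  · rw [mul_add, gP1, gP2]
  · rw [add_mul, P1g, P2g]
  · have key : ∀ x, x = T - (P1 + P2) → f * (x - x * W1 * x) * f =
        f * T * f - f * T * W1 * T * f - P2 := by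
      intro x hx
      have a1 : f * x = f * T - P2 := by
        rw [hx, mul_sub, mul_add, fP1, fP2, zero_add]
      have a2 : x * f = T * f - P2 := by
        rw [hx, sub_mul, add_mul, P1f, P2f, zero_add]
      calc f * (x - x * W1 * x) * f = (f * x) * f - (f * x) * W1 * (x * f) := by noncomm_ring
        _ = (f * T - P2) * f - (f * T - P2) * W1 * (T * f - P2) := by rw [a1, a2]
        _ = f * T * f - P2 * f - (f * T * W1 * T * f - f * T * (W1 * P2)
              - (P2 * W1) * T * f + (P2 * W1) * P2) := by noncomm_ring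
        _ = _ := by rw [P2f, W1P2, P2W1]; noncomm_ring
    apply lemU (u := W1) (w := W2) (e := e) (f := f) (e' := e) (f' := f)
    · rw [mul_sub, hT1, mul_add, gP1, gP2]
    · rw [sub_mul, hT2, add_mul, P1g, P2g]
    · exact gW1
    · exact W1g
    · exact gW2
    · exact W2g
    · exact gg
    · exact hg
    · exact hg
    · have : W1 * (T - (P1 + P2)) * e = W1 * (e * T * e - P1) := by
        calc W1 * (T - (P1 + P2)) * e = W1 * e * (T * e) - W1 * (P1 * e) - (W1 * P2) * e := by
              rw [We]; noncomm_ring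
          _ = _ := by rw [Pe, W1P2]; noncomm_ring
      rw [this, hW']
    · have : e * (T - (P1 + P2)) * W1 = (e * T * e - P1) * W1 := by
        calc e * (T - (P1 + P2)) * W1 = (e * T) * (e * W1) - (e * P1) * W1 - (e * P2) * W1 := by
              rw [eW]; noncomm_ring
          _ = _ := by rw [eP, eP2]; noncomm_ring
      rw [this, hW]
    · set x := T - (P1 + P2) with hx
      have : f * (x - x * W1 * x) * W2 = (f * (x - x * W1 * x) * f) * W2 := by
        rw [mul_assoc _ f W2, fW2]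
      rw [this, key x hx, hS]
    · set x := T - (P1 + P2) with hx
      have : W2 * (x - x * W1 * x) * f = W2 * (f * (x - x * W1 * x) * f) := by
        rw [← mul_assoc, ← mul_assoc, W2f]
      rw [this, key x hx, hS']

theorem CC_of_CU {g T : R} (h : CU g T) : CC g T :=
  ⟨0, by simp, by simp, by simp, by simpa using h⟩

theorem CC_sub {g T : R} (hg : g * g = g) (h : CC g (g - T)) : CC g T := by
  obtain ⟨P, hP, gP, Pg, h1, h2, W, gW, Wg, h3, h4⟩ := h
  refine ⟨g - P, ?_, ?_, ?_, ?_, ?_, -W, ?_, ?_, ?_, ?_⟩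
  · rw [sub_mul, mul_sub, mul_sub, hg, gP, Pg, hP]; abel
  · rw [mul_sub, hg, gP]
  · rw [sub_mul, hg, Pg]
  · have : T - (g - P) = -(g - T - P) := by abel
    rw [this, mul_neg, h1]
  · have : T - (g - P) = -(g - T - P) := by abel
    rw [this, neg_mul, h2]
  · rw [mul_neg, gW]
  · rw [neg_mul, Wg]
  · have : T - (g - P) = -(g - T - P) := by abel
    rw [this, neg_mul_neg, h3]
  · have : T - (g - P) = -(g - T - P) := by abel
    rw [this, neg_mul_neg, h4]

end ring

section alg
variable {R : Type*} [Ring R] [Algebra ℂ R]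

/-- The three-block lemma. -/
theorem blockB {g T x y1 y2 c c' ti Vi : R} {s : ℂ} (hs : s ≠ 0)
    (hg : g * g = g) (gT : g * T = T) (Tg : T * g = T) (gx : g * x = x) (xg : x * g = x)
    (gy1 : g * y1 = y1) (y1g : y1 * g = y1) (gy2 : g * y2 = y2) (y2g : y2 * g = y2)
    (gc : g * c = c) (cg : c * g = c) (gc' : g * c' = c') (c'g : c' * g = c')
    (d11 : y1 * x = g) (d12 : y1 * (T * x) = 0) (d21 : y2 * x = 0) (d22 : y2 * (T * x) = g)
    (cc' : c * c' = g) (c'c : c' * c = g - (x * y1 + T * x * y2))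
    (gti : g * ti = ti) (tig : ti * g = ti)
    (t1 : y1 * (T * (T * x)) * ti = g) (t2 : ti * (y1 * (T * (T * x))) = g)
    (gVi : g * Vi = Vi) (Vig : Vi * g = Vi)
    (v1 : (y2 * T * c' - s⁻¹ • g - y2 * (T * (T * x)) * ti * (y1 * T * c')) * Vi = g)
    (v2 : Vi * (y2 * T * c' - s⁻¹ • g - y2 * (T * (T * x)) * ti * (y1 * T * c')) = g) :
    CC g T := by
  have ss : s * s⁻¹ = 1 := mul_inv_cancel₀ hs
  have ss' : s⁻¹ * s = 1 := inv_mul_cancel₀ hs
  have cx : c * x = 0 := by
    have h : c * x = c * ((c' * c) * x) := by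
      rw [← mul_assoc, ← mul_assoc, cc', gc]
    rw [h, c'c, sub_mul, add_mul, mul_assoc x, d11, mul_assoc (T * x), d21, gx, xg]; simp
  have cTx : c * (T * x) = 0 := by
    have h : c * (T * x) = c * ((c' * c) * (T * x)) := by
      calc c * (T * x) = (g * c) * (T * x) := by rw [gc]
        _ = (c * c') * c * (T * x) := by rw [cc']
        _ = _ := by noncomm_ring
    rw [h, c'c, sub_mul, add_mul, mul_assoc x, d12, mul_assoc (T * x), d22, ← mul_assoc g, gT,
      mul_assoc T x g, xg]; simp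
  have y1c' : y1 * c' = 0 := by
    have h : y1 * c' = y1 * ((c' * c) * c') := by
      rw [mul_assoc, cc', c'g]
    rw [h, c'c, sub_mul, add_mul, gc', mul_sub, mul_add, mul_assoc x, mul_assoc (T * x),
      ra d11, ra d12, ra gy1]; simp
  have y2c' : y2 * c' = 0 := by
    have h : y2 * c' = y2 * ((c' * c) * c') := by
      rw [mul_assoc, cc', c'g]
    rw [h, c'c, sub_mul, add_mul, gc', mul_sub, mul_add, mul_assoc x, mul_assoc (T * x),
      ra d21, ra d22, ra gy2]; simp
  obtain ⟨α, hα⟩ : ∃ α, α = T * x + s • c' := ⟨_, rfl⟩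
  obtain ⟨β, hβ⟩ : ∃ β, β = y1 + s⁻¹ • c := ⟨_, rfl⟩
  have βα : β * α = g := by
    rw [hα, hβ, add_mul, mul_add, mul_add, d12, mul_smul_comm, y1c', smul_mul_assoc, cTx,
      smul_mul_smul_comm, cc', ss']; simp
  have gα : g * α = α := by rw [hα, mul_add, ← mul_assoc, gT, mul_smul_comm, gc']
  have αg : α * g = α := by rw [hα, add_mul, mul_assoc, xg, smul_mul_assoc, c'g]
  have gβ : g * β = β := by rw [hβ, mul_add, gy1, mul_smul_comm, gc]
  have βg : β * g = β := by rw [hβ, add_mul, y1g, smul_mul_assoc, cg]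
  have βx : β * x = g := by rw [hβ, add_mul, d11, smul_mul_assoc, cx]; simp
  have βTx : β * (T * x) = 0 := by rw [hβ, add_mul, d12, smul_mul_assoc, cTx]; simp
  have βc' : β * c' = s⁻¹ • g := by rw [hβ, add_mul, y1c', smul_mul_assoc, cc']; simp
  have cα : c * α = s • g := by rw [hα, mul_add, cTx, mul_smul_comm, cc', zero_add]
  have y1α : y1 * α = 0 := by rw [hα, mul_add, d12, mul_smul_comm, y1c']; simp
  have y2α : y2 * α = g := by rw [hα, mul_add, d22, mul_smul_comm, y2c']; simp
  refine ⟨α * β, ?_, ?_, ?_, ?_⟩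
  · rw [mul_assoc α, ra βα, gβ]
  · rw [← mul_assoc, gα]
  · rw [mul_assoc, βg]
  obtain ⟨N, hN⟩ : ∃ N, N = T - α * β := ⟨_, rfl⟩
  rw [← hN]
  have Nx : N * x = -(s • c') := by
    rw [hN, sub_mul, mul_assoc, βx, αg, hα]; abel
  have NTx : N * (T * x) = T * (T * x) := by
    rw [hN, sub_mul, mul_assoc α, βTx]; simp
  have Nc' : N * c' = T * c' - s⁻¹ • α := by
    rw [hN, sub_mul, mul_assoc, βc', mul_smul_comm, αg]
  have gN : g * N = N := by rw [hN, mul_sub, gT, ← mul_assoc, gα]
  have Ng : N * g = N := by rw [hN, sub_mul, Tg, mul_assoc, βg]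
  obtain ⟨u, hu⟩ : ∃ u, u = -(s⁻¹ • (x * c)) := ⟨_, rfl⟩
  have Nu : N * u = c' * c := by
    rw [hu, mul_neg, mul_smul_comm, ← mul_assoc, Nx, neg_mul, smul_neg, neg_neg, smul_mul_assoc,
      smul_smul, ss', one_smul]
  obtain ⟨κ, hκ⟩ : ∃ κ, κ = Vi * (y2 - y2 * (T * (T * x)) * ti * y1) := ⟨_, rfl⟩
  obtain ⟨ρ, hρ⟩ : ∃ ρ, ρ = ti * (y1 - y1 * T * c' * κ) := ⟨_, rfl⟩
  have gκ : g * κ = κ := by rw [hκ, ← mul_assoc, gVi]
  have κg : κ * g = κ := by
    rw [hκ, mul_assoc, sub_mul, y2g, mul_assoc _ y1 g, y1g]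
  have gρ : g * ρ = ρ := by rw [hρ, ← mul_assoc, gti]
  have ρg : ρ * g = ρ := by rw [hρ, mul_assoc, sub_mul, y1g, mul_assoc _ κ g, κg]
  have κc' : κ * c' = 0 := by
    rw [hκ, mul_assoc, sub_mul, y2c', mul_assoc _ y1 c', y1c']; simp
  have ρc' : ρ * c' = 0 := by
    rw [hρ, mul_assoc, sub_mul, y1c', mul_assoc _ κ c', κc']; simp
  obtain ⟨w, hw⟩ : ∃ w, w = T * x * ρ + c' * κ := ⟨_, rfl⟩
  have wc' : w * c' = 0 := by
    rw [hw, add_mul, mul_assoc (T * x), ρc', mul_assoc c', κc']; simp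
  have κNTx : κ * (N * (T * x)) = 0 := by
    rw [NTx, hκ, mul_assoc, sub_mul, mul_assoc _ y1, mul_assoc _ ti, t2, ← mul_assoc y2 T,
      mul_assoc (y2 * T) (T * x) g, mul_assoc T x g, xg]; simp
  have ρNTx : ρ * (N * (T * x)) = g := by
    rw [hρ, mul_assoc, sub_mul, mul_assoc _ κ, κNTx, NTx]; simp [t2]
  have κNc' : κ * (N * c') = g := by
    rw [Nc', hκ, mul_assoc, ← v2]
    congr 1
    rw [sub_mul, mul_sub, mul_smul_comm, y2α, mul_assoc _ y1, mul_sub, mul_smul_comm, y1α,
      smul_zero, sub_zero, mul_assoc y2 T c', mul_assoc y1 T c']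
  have ρNc' : ρ * (N * c') = 0 := by
    have e1 : y1 * (N * c') = y1 * T * c' := by
      rw [Nc', mul_sub, mul_smul_comm, y1α, smul_zero, sub_zero, mul_assoc]
    calc ρ * (N * c') = ti * (y1 * (N * c') - y1 * T * c' * (κ * (N * c'))) := by
          rw [hρ]; noncomm_ring
      _ = 0 := by rw [e1, κNc', mul_assoc _ c' g, c'g, sub_self, mul_zero]
  have wNTx : w * (N * (T * x)) = T * x := by
    rw [hw, add_mul, mul_assoc _ ρ, ρNTx, mul_assoc c', κNTx, mul_assoc, xg]; simp
  have wNc' : w * (N * c') = c' := by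
    rw [hw, add_mul, mul_assoc _ ρ, ρNc', mul_assoc c', κNc', c'g]; simp
  have wNx : w * (N * x) = 0 := by
    rw [Nx, mul_neg, mul_smul_comm, wc']; simp
  have gw : g * w = w := by
    rw [hw, mul_add, ← mul_assoc, ← mul_assoc, gT, ← mul_assoc, gc']
  have wg : w * g = w := by rw [hw, add_mul, mul_assoc _ ρ, ρg, mul_assoc c', κg]
  have Nw : N * w = T * (T * x) * ρ + (T * c' - s⁻¹ • α) * κ := by
    calc N * w = (N * (T * x)) * ρ + (N * c') * κ := by rw [hw]; noncomm_ring
      _ = _ := by rw [NTx, Nc']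
  have y1N : y1 * (N * w) = y1 := by
    have e1 : y1 * (T * c' - s⁻¹ • α) = y1 * T * c' := by
      rw [mul_sub, mul_smul_comm, y1α, smul_zero, sub_zero, mul_assoc]
    calc y1 * (N * w) = (y1 * (T * (T * x)) * ti) * (y1 - y1 * T * c' * κ) +
          (y1 * (T * c' - s⁻¹ • α)) * κ := by rw [Nw, hρ]; noncomm_ring
      _ = (g * y1) - (g * y1) * T * c' * κ + y1 * T * c' * κ := by
          rw [t1, e1]; noncomm_ring
      _ = y1 := by rw [gy1]; abel
  have y2N : y2 * (N * w) = y2 := by
    have e1 : y2 * (T * c' - s⁻¹ • α) = y2 * T * c' - s⁻¹ • g := by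
      rw [mul_sub, mul_smul_comm, y2α, mul_assoc]
    have h2 : y2 * (N * w) = y2 * (T * (T * x)) * ti * y1 +
        (y2 * T * c' - s⁻¹ • g - y2 * (T * (T * x)) * ti * (y1 * T * c')) * κ := by
      calc y2 * (N * w) = y2 * (T * (T * x)) * ti * y1 +
          ((y2 * (T * c' - s⁻¹ • α)) - y2 * (T * (T * x)) * ti * (y1 * T * c')) * κ := by
            rw [Nw, hρ]; noncomm_ring
        _ = _ := by rw [e1]
    rw [h2, hκ, ← mul_assoc _ Vi, v1, mul_sub, gy2]
    have e2 : g * (y2 * (T * (T * x)) * ti * y1) = y2 * (T * (T * x)) * ti * y1 := by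
      calc g * (y2 * (T * (T * x)) * ti * y1) = (g * y2) * (T * (T * x)) * ti * y1 := by
            noncomm_ring
        _ = _ := by rw [gy2]
    rw [e2]; abel
  have ceq : g - c' * c = x * y1 + T * x * y2 := by rw [c'c]; abel
  have hNuN : N - N * u * N = (g - c' * c) * N := by rw [Nu, sub_mul, gN]
  apply lemU (u := u) (w := w) (e := x * y1) (f := g - x * y1) (e' := c' * c) (f' := g - c' * c)
    gN Ng _ _ gw wg hg (by abel) (by abel)
  · rw [mul_assoc, ← mul_assoc N x y1, Nx, hu, neg_mul, smul_mul_assoc, neg_mul, mul_neg,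
      smul_mul_assoc, mul_smul_comm, mul_assoc x c, ← mul_assoc c c' y1, cc', gy1, smul_neg,
      neg_neg, smul_smul, ss', one_smul]
  · rw [mul_assoc, Nu, mul_assoc, ra cc', gc]
  · rw [hNuN, ceq]
    have e1 : (x * y1 + T * x * y2) * (x * y1 + T * x * y2) = x * y1 + T * x * y2 := by
      simp only [add_mul, mul_add, mul_assoc]
      have := ra d11 y1
      have h2 := ra d22 y2
      have h3 : y1 * (T * (x * y2)) = 0 := by rw [← mul_assoc T, ra d12, zero_mul]
      have h4 : y2 * (x * y1) = 0 := by rw [ra d21, zero_mul]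
      have h5 : y2 * (T * (x * y2)) = y2 := by rw [← mul_assoc T, ra d22, gy2]
      rw [this, h3, h4, h5, gy1]; simp
    rw [← mul_assoc, e1, mul_assoc _ N w, add_mul, mul_assoc x, y1N, mul_assoc (T * x), y2N]
  · rw [hNuN]
    have wf : w * (c' * c) = 0 := by rw [← mul_assoc, wc', zero_mul]
    have h1 : w * ((g - c' * c) * N) = w * N := by
      rw [← mul_assoc, mul_sub, wg, wf, sub_zero]
    have h2 : w * N = T * x * y2 + c' * c := by
      calc w * N = w * N * g := by rw [mul_assoc, Ng]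
        _ = w * N * (x * y1 + T * x * y2 + c' * c) := by rw [c'c]; congr 1; abel
        _ = w * (N * x) * y1 + w * (N * (T * x)) * y2 + w * (N * c') * c := by noncomm_ring
        _ = _ := by rw [wNx, wNTx, wNc']; simp
    rw [h1, mul_sub]
    have h3 : w * N * (x * y1) = 0 := by
      rw [mul_assoc, ← mul_assoc N, ← mul_assoc w, wNx, zero_mul]
    rw [h3, sub_zero, mul_assoc, Ng, h2, c'c]; abel
  · rw [hu, mul_neg, mul_smul_comm, ← mul_assoc, gx]
  · rw [hu, neg_mul, smul_mul_assoc, mul_assoc, cg]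

/-- The two-block lemma. -/
theorem blockA {g T X Y c c' Qi Vi : R} {l b r : ℂ} (hl : l ≠ 0) (hbr : r * b = l * (1 - l))
    (hg : g * g = g) (gT : g * T = T) (Tg : T * g = T) (gX : g * X = X) (Xg : X * g = X)
    (gY : g * Y = Y) (Yg : Y * g = Y)
    (gc : g * c = c) (cg : c * g = c) (gc' : g * c' = c') (c'g : c' * g = c')
    (YX : Y * X = g) (cc' : c * c' = g) (c'c : c' * c = g - X * Y)
    (q1 : (c * (T * X) - r • g) * Qi = g) (q2 : Qi * (c * (T * X) - r • g) = g)
    (v1 : (Y * (T * c') - b • g - (Y * (T * X) - l • g) * Qi *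
      (c * (T * c') - (1 - l) • g)) * Vi = g)
    (v2 : Vi * (Y * (T * c') - b • g - (Y * (T * X) - l • g) * Qi *
      (c * (T * c') - (1 - l) • g)) = g) :
    CC g T := by
  have cX : c * X = 0 := by
    have h : c * X = c * ((c' * c) * X) := by
      rw [← mul_assoc, ← mul_assoc, cc', gc]
    rw [h, c'c, sub_mul, mul_assoc X, YX, gX, Xg]; simp
  have Yc' : Y * c' = 0 := by
    have h : Y * c' = Y * ((c' * c) * c') := by
      rw [mul_assoc, cc', c'g]
    rw [h, c'c, sub_mul, gc', mul_sub, mul_assoc X, ra YX, ra gY]; simp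
  have hb : b / l * r = 1 - l := by
    field_simp
    linear_combination hbr
  have hb2 : b / l * l = b := by field_simp
  obtain ⟨α, hα⟩ : ∃ α, α = l • X + r • c' := ⟨_, rfl⟩
  obtain ⟨β, hβ⟩ : ∃ β, β = Y + (b / l) • c := ⟨_, rfl⟩
  have βX : β * X = g := by rw [hβ, add_mul, YX, smul_mul_assoc, cX]; simp
  have βc' : β * c' = (b / l) • g := by rw [hβ, add_mul, Yc', smul_mul_assoc, cc']; simp
  have cα : c * α = r • g := by rw [hα, mul_add, mul_smul_comm, cX, mul_smul_comm, cc']; simp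
  have Yα : Y * α = l • g := by rw [hα, mul_add, mul_smul_comm, YX, mul_smul_comm, Yc']; simp
  have βα : β * α = g := by
    rw [hβ, add_mul, smul_mul_assoc, cα, Yα, smul_smul, ← add_smul, hb]; simp
  have gα : g * α = α := by rw [hα, mul_add, mul_smul_comm, gX, mul_smul_comm, gc']
  have αg : α * g = α := by rw [hα, add_mul, smul_mul_assoc, Xg, smul_mul_assoc, c'g]
  have gβ : g * β = β := by rw [hβ, mul_add, gY, mul_smul_comm, gc]
  have βg : β * g = β := by rw [hβ, add_mul, Yg, smul_mul_assoc, cg]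
  refine ⟨α * β, ?_, ?_, ?_, ?_⟩
  · rw [mul_assoc α, ra βα, gβ]
  · rw [← mul_assoc, gα]
  · rw [mul_assoc, βg]
  obtain ⟨N, hN⟩ : ∃ N, N = T - α * β := ⟨_, rfl⟩
  rw [← hN]
  have gN : g * N = N := by rw [hN, mul_sub, gT, ← mul_assoc, gα]
  have Ng : N * g = N := by rw [hN, sub_mul, Tg, mul_assoc, βg]
  have NX : N * X = T * X - α := by rw [hN, sub_mul, mul_assoc, βX, αg]
  have Nc' : N * c' = T * c' - (b / l) • α := by
    rw [hN, sub_mul, mul_assoc, βc', mul_smul_comm, αg]
  have cNX : c * (N * X) = c * (T * X) - r • g := by rw [NX, mul_sub, cα]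
  have YNX : Y * (N * X) = Y * (T * X) - l • g := by rw [NX, mul_sub, Yα]
  have cNc' : c * (N * c') = c * (T * c') - (1 - l) • g := by
    rw [Nc', mul_sub, mul_smul_comm, cα, smul_smul, hb]
  have YNc' : Y * (N * c') = Y * (T * c') - b • g := by
    rw [Nc', mul_sub, mul_smul_comm, Yα, smul_smul, hb2]
  have hY : Y * ((N - N * (X * Qi * c) * N) * c') =
      (Y * (T * c') - b • g - (Y * (T * X) - l • g) * Qi *
      (c * (T * c') - (1 - l) • g)) := by
    rw [← YNc', ← YNX, ← cNc']; noncomm_ring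
  apply lemU (u := X * Qi * c) (w := c' * Vi * Y) (e := X * Y) (f := c' * c) (e' := c' * c)
    (f' := X * Y) gN Ng _ _ _ _ hg (by rw [c'c]; abel) (by rw [c'c]; abel)
  · calc X * Qi * c * N * (X * Y) = X * (Qi * (c * (N * X))) * Y := by noncomm_ring
      _ = X * Y := by rw [cNX, q2, Xg]
  · calc c' * c * N * (X * Qi * c) = c' * ((c * (N * X)) * Qi) * c := by noncomm_ring
      _ = c' * c := by rw [cNX, q1, c'g]
  · calc X * Y * (N - N * (X * Qi * c) * N) * (c' * Vi * Y) =
        X * ((Y * ((N - N * (X * Qi * c) * N) * c')) * Vi) * Y := by noncomm_ring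
      _ = X * Y := by rw [hY, v1, Xg]
  · calc c' * Vi * Y * (N - N * (X * Qi * c) * N) * (c' * c) =
        c' * (Vi * (Y * ((N - N * (X * Qi * c) * N) * c'))) * c := by noncomm_ring
      _ = c' * c := by rw [hY, v2, c'g]
  · rw [← mul_assoc, ← mul_assoc, gX]
  · rw [mul_assoc _ c g, cg]
  · rw [← mul_assoc, ← mul_assoc, gc']
  · rw [mul_assoc _ Y g, Yg]

end alg

end Pool.Agent.X205.AW
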