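import Pool.Agent.X205.AW.Half

/-!
General comparability, range projections, the partition lemma.
-/

namespace Pool.Agent.X205.AW

variable {A : Type*} [CStarAlgebra A]

/-- halving isometries of the unit -/
def Prop2 (s1 s2 : A) : Prop :=
  star s1 * s1 = 1 ∧ star s2 * s2 = 1 ∧ star s1 * s2 = 0 ∧ star s2 * s1 = 0

theorem proj_conj {s e : A} (hs : star s * s = 1) (he : IsStarProjection e) :
    IsStarProjection (s * e * star s) := by
  refine ⟨?_, ?_⟩
  · show s * e * star s * (s * e * star s) = s * e * star s
    calc s * e * star s * (s * e * star s) = s * e * (star s * s) * e * star s := by noncomm_ring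
      _ = s * (e * e) * star s := by rw [hs]; noncomm_ring
      _ = _ := by rw [mm he]
  · show star (s * e * star s) = s * e * star s
    rw [star_mul, star_mul, star_star, ss he, mul_assoc]

theorem dom_conj {s e : A} (hs : star s * s = 1) (he : IsStarProjection e) :
    Dom e (s * e * star s) := by
  refine ⟨s * e, ?_, ?_⟩
  · rw [star_mul, ss he]
    calc e * star s * (s * e) = e * (star s * s) * e := by noncomm_ring
      _ = e := by rw [hs, mul_one, mm he]
  · calc s * e * star s * (s * e) = s * e * (star s * s) * e := by noncomm_ring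
      _ = s * (e * e) := by rw [hs]; noncomm_ring
      _ = _ := by rw [mm he]

theorem dom_conj' {s e : A} (hs : star s * s = 1) (he : IsStarProjection e) :
    Dom (s * e * star s) e := by
  refine ⟨e * star s, ?_, by rw [← mul_assoc, mm he]⟩
  rw [star_mul, star_star, ss he]
  calc s * e * (e * star s) = s * (e * e) * star s := by noncomm_ring
    _ = _ := by rw [mm he]

theorem conj_orth {s1 s2 : A} (hs : Prop2 s1 s2) (e f : A) :
    (s1 * e * star s1) * (s2 * f * star s2) = 0 := by
  calc (s1 * e * star s1) * (s2 * f * star s2) = s1 * e * (star s1 * s2) * f * star s2 := by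
        noncomm_ring
    _ = 0 := by rw [hs.2.2.1]; simp

/-- general comparability -/
theorem comp (hA : IsAWStar A) (hF : IsFactor A) {s1 s2 : A} (hs : Prop2 s1 s2) {e f : A}
    (he : IsStarProjection e) (hf : IsStarProjection f) : Dom e f ∨ Dom f e := by
  rcases comp_orth hA hF (proj_conj hs.1 he) (proj_conj hs.2.1 hf) (conj_orth hs e f) with h | h
  · exact Or.inl (((dom_conj hs.1 he).trans h).trans (dom_conj' hs.2.1 hf))
  · exact Or.inr (((dom_conj hs.2.1 hf).trans h).trans (dom_conj' hs.1 he))

theorem sup_conj (hA : IsAWStar A) {ι : Type*} {d : ι → A} {ρ s : A}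
    (hd : ∀ i, IsStarProjection (d i)) (hρ : IsSup (Set.range d) ρ) (hs : star s * s = 1) :
    IsSup (Set.range fun i => s * d i * star s) (s * ρ * star s) := by
  refine ⟨proj_conj hs hρ.1, ?_, ?_⟩
  · rintro _ ⟨i, rfl⟩
    show s * d i * star s * (s * ρ * star s) = s * d i * star s
    calc s * d i * star s * (s * ρ * star s) = s * d i * (star s * s) * ρ * star s := by
          noncomm_ring
      _ = s * (d i * ρ) * star s := by rw [hs]; noncomm_ring
      _ = _ := by rw [hρ.2.1 _ ⟨i, rfl⟩]
  · intro t ht h
    have h1 : ((1 - t) * s) * ρ = 0 := sup_mul hA (by rintro _ ⟨i, rfl⟩; exact hd i) hρ (by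
      rintro _ ⟨i, rfl⟩
      have h2 := h _ ⟨i, rfl⟩
      have h3 := congrArg star h2
      rw [star_mul, ss ht, ss (proj_conj hs (hd i))] at h3
      have h4 : (1 - t) * (s * d i * star s) = 0 := by rw [sub_mul, one_mul, h3, sub_self]
      calc (1 - t) * s * d i = (1 - t) * (s * d i * star s) * s := by
            calc (1 - t) * s * d i = (1 - t) * s * d i * (star s * s) := by rw [hs, mul_one]
              _ = _ := by noncomm_ring
        _ = 0 := by rw [h4, zero_mul])
    have h5 : t * (s * ρ * star s) = s * ρ * star s := by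
      have : (1 - t) * (s * ρ * star s) = 0 := by
        calc (1 - t) * (s * ρ * star s) = ((1 - t) * s * ρ) * star s := by noncomm_ring
          _ = 0 := by rw [h1, zero_mul]
      rw [sub_mul, one_mul, sub_eq_zero] at this
      exact this.symm
    have h6 := congrArg star h5
    rwa [star_mul, ss ht, ss (proj_conj hs hρ.1)] at h6

/-- Right and left range projections, and their equivalence. -/
theorem range_proj (hA : IsAWStar A) {s1 s2 : A} (hs : Prop2 s1 s2) (y : A) :
    ∃ ρ lam : A, IsStarProjection ρ ∧ IsStarProjection lam ∧ y * ρ = y ∧ lam * y = y ∧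
      (∀ z, y * z = 0 → ρ * z = 0) ∧ (∀ z, z * y = 0 → z * lam = 0) ∧
      ∃ w, star w * w = ρ ∧ w * star w = lam := by
  obtain ⟨M, hhM, h1M, hM⟩ := exists_masa_pair (h := star y * y) (g := 1)
    (by rw [star_mul, star_star]) (by simp) (by simp)
  have comm := hM.prop
  have hcut := fun n : ℕ => cut' hA hM hhM h1M (.one A) (t := 1 / ((n : ℝ) + 1)) (by positivity)
  choose p k hp pM _ ks pk kh hk hn _ r rs rr rh pr rp rc using hcut
  -- joins
  obtain ⟨q, q0, qs⟩ : ∃ q : ℕ → A, q 0 = 0 ∧ ∀ n, q (n + 1) = q n + p n - q n * p n :=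
    ⟨fun n => Nat.rec 0 (fun n x => x + p n - x * p n) n, rfl, fun n => rfl⟩
  have qM : ∀ n, q n ∈ M := by
    intro n
    induction n with
    | zero => rw [q0]; exact zero_mem M
    | succ n ih => rw [qs]; exact sub_mem (add_mem ih (pM n)) (mul_mem ih (pM n))
  have qp : ∀ n, IsStarProjection (q n) := by
    intro n
    induction n with
    | zero => rw [q0]; exact .zero A
    | succ n ih =>
      have hc : q n * p n = p n * q n := comm _ (qM n) _ (pM n)
      refine ⟨?_, ?_⟩
      · show q (n + 1) * q (n + 1) = q (n + 1)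
        rw [qs]
        calc (q n + p n - q n * p n) * (q n + p n - q n * p n) =
            q n * q n + q n * p n - (q n * q n) * p n + p n * q n + p n * p n
            - (p n * q n) * p n - (q n * (p n * q n)) - q n * (p n * p n)
            + q n * (p n * q n) * p n := by noncomm_ring
          _ = q n * q n + q n * p n - (q n * q n) * p n + q n * p n + p n * p n
            - q n * (p n * p n) - (q n * q n) * p n - q n * (p n * p n)
            + (q n * q n) * (p n * p n) := by rw [← hc]; noncomm_ring
          _ = _ := by rw [mm ih, mm (hp n)]; abel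
      · show star (q (n + 1)) = q (n + 1)
        rw [qs, star_sub, star_add, star_mul, ss ih, ss (hp n), hc]
  have qq1 : ∀ n, q n * q (n + 1) = q n := by
    intro n
    rw [qs, mul_sub, mul_add, ← mul_assoc, mm (qp n)]; abel
  have qqle : ∀ m n, m ≤ n → q m * q n = q m := by
    intro m n hmn
    induction n, hmn using Nat.le_induction with
    | base => exact mm (qp m)
    | succ n _ ih => rw [← ih, mul_assoc, qq1]
  obtain ⟨d, hd⟩ : ∃ d : ℕ → A, ∀ n, d n = q (n + 1) - q n := ⟨_, fun n => rfl⟩
  have dp : ∀ n, IsStarProjection (d n) := fun n => by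
    rw [hd]; exact proj_sub (qp n) (qp (n + 1)) (qq1 n)
  have dM : ∀ n, d n ∈ M := fun n => by rw [hd]; exact sub_mem (qM (n + 1)) (qM n)
  have dpn : ∀ n, d n * p n = d n := by
    intro n
    rw [hd, qs]
    calc (q n + p n - q n * p n - q n) * p n = p n * p n - q n * (p n * p n) := by noncomm_ring
      _ = _ := by rw [mm (hp n)]; abel
  have pdn : ∀ n, p n * d n = d n := fun n => comm_of_le (dp n) (hp n) (dpn n)
  have dd : ∀ m n, m < n → d m * d n = 0 := by
    intro m n hmn
    rw [hd, hd, sub_mul, mul_sub, mul_sub, qqle (m + 1) (n + 1) (by omega), qqle (m + 1) n (by omega),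
      qqle m (n + 1) (by omega), qqle m n (by omega)]
    simp
  have dd' : ∀ m n, m ≠ n → d m * d n = 0 := by
    intro m n h
    rcases lt_or_gt_of_ne h with h | h
    · exact dd m n h
    · exact orth_symm (dp n) (dp m) (dd n m h)
  have kd : ∀ m n, k m * d n = d n * k m := by
    intro m n
    have e1 : d n * (star y * y) = (star y * y) * d n := comm _ (dM n) _ hhM
    have e2 : d n * p m = p m * d n := comm _ (dM n) _ (pM m)
    have kp : k m * p m = k m := by
      have := congrArg star (pk m); rwa [star_mul, ks, ss (hp m)] at this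
    calc k m * d n = k m * (p m * d n) := by rw [← mul_assoc, kp]
      _ = k m * (d n * ((star y * y) * k m)) := by rw [← e2, hk]
      _ = k m * ((d n * (star y * y)) * k m) := by noncomm_ring
      _ = (k m * (star y * y)) * (d n * k m) := by rw [e1]; noncomm_ring
      _ = p m * d n * k m := by rw [kh]; noncomm_ring
      _ = d n * (p m * k m) := by rw [← e2]; noncomm_ring
      _ = d n * k m := by rw [pk]
  have rd : ∀ m n, r m * d n = d n * r m := fun m n => rc m _ (kd m n)
  -- partial isometries
  obtain ⟨v, hv⟩ : ∃ v : ℕ → A, ∀ n, v n = y * r n * d n := ⟨_, fun n => rfl⟩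
  have vv : ∀ n, star (v n) * v n = d n := by
    intro n
    rw [hv, star_mul, star_mul, ss (dp n), rs]
    calc d n * (r n * star y) * (y * r n * d n) = d n * (r n * (star y * y)) * r n * d n := by
          noncomm_ring
      _ = d n * ((star y * y) * (r n * r n)) * d n := by rw [rh]; noncomm_ring
      _ = d n * p n * d n := by rw [rr, hk]
      _ = d n := by rw [dpn, mm (dp n)]
  have vo1 : ∀ i j, i ≠ j → v i * star (v j) = 0 := by
    intro i j hij
    rw [hv, hv, star_mul, ss (dp j)]
    calc y * r i * d i * (d j * star (y * r j)) = y * r i * (d i * d j) * star (y * r j) := by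
          noncomm_ring
      _ = 0 := by rw [dd' i j hij]; simp
  have vo2 : ∀ i j, i ≠ j → star (v i) * v j = 0 := by
    intro i j hij
    rw [hv, hv, star_mul, star_mul, ss (dp i), rs]
    have e1 : d i * (star y * y) = (star y * y) * d i := comm _ (dM i) _ hhM
    calc d i * (r i * star y) * (y * r j * d j) = (d i * r i) * (star y * y) * (r j * d j) := by
          noncomm_ring
      _ = r i * (d i * (star y * y)) * d j * r j := by rw [← rd, rd j j]; noncomm_ring
      _ = r i * (star y * y) * (d i * d j) * r j := by rw [e1]; noncomm_ring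
      _ = 0 := by rw [dd' i j hij]; simp
  have vp : ∀ n, IsStarProjection (star (v n) * v n) := fun n => by rw [vv]; exact dp n
  have lp : ∀ n, IsStarProjection (v n * star (v n)) := fun n => pi_star (vp n)
  obtain ⟨ρ, hρ⟩ := hA.lub (Set.range d) (by rintro _ ⟨i, rfl⟩; exact dp i) (by
    rintro _ ⟨i, rfl⟩ _ ⟨j, rfl⟩ hij
    exact dd' i j (fun h => hij (by rw [h])))
  have hρ : IsSup _ ρ := hρ
  obtain ⟨lam, hl⟩ := hA.lub (Set.range fun n => v n * star (v n))
    (by rintro _ ⟨i, rfl⟩; exact lp i) (by
    rintro _ ⟨i, rfl⟩ _ ⟨j, rfl⟩ hij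
    have hne : i ≠ j := fun h => hij (by rw [h])
    show v i * star (v i) * (v j * star (v j)) = 0
    calc v i * star (v i) * (v j * star (v j)) = v i * (star (v i) * v j) * star (v j) := by
          noncomm_ring
      _ = 0 := by rw [vo2 i j hne]; simp)
  have hl : IsSup _ lam := hl
  have dpr : ∀ x ∈ Set.range d, IsStarProjection x := by rintro _ ⟨i, rfl⟩; exact dp i
  have lpr : ∀ x ∈ (Set.range fun n => v n * star (v n)), IsStarProjection x := by
    rintro _ ⟨i, rfl⟩; exact lp i
  have dρ : ∀ n, d n * ρ = d n := fun n => hρ.2.1 _ ⟨n, rfl⟩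
  have qρ : ∀ n, q n * ρ = q n := by
    intro n
    induction n with
    | zero => rw [q0, zero_mul]
    | succ n ih =>
      have : q (n + 1) = q n + d n := by rw [hd]; abel
      rw [this, add_mul, ih, dρ]
  have pρ : ∀ n, p n * ρ = p n := by
    intro n
    have h1 : p n * q (n + 1) = p n := by
      have hc : q n * p n = p n * q n := comm _ (qM n) _ (pM n)
      rw [qs, mul_sub, mul_add, mm (hp n), ← mul_assoc, ← hc, mul_assoc, mm (hp n), hc]; abel
    rw [← h1, mul_assoc, qρ]
  have yρ : y * ρ = y := by
    have h1 : y * (1 - ρ) = 0 := by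
      have key : ∀ n : ℕ, ‖y * (1 - ρ)‖ ^ 2 ≤ 1 / ((n : ℝ) + 1) := by
        intro n
        have h2 : y * (1 - ρ) = (y * (1 - p n)) * (1 - ρ) := by
          have : p n * (1 - ρ) = 0 := by rw [mul_sub, mul_one, pρ, sub_self]
          calc y * (1 - ρ) = y * (1 - ρ) - y * (p n * (1 - ρ)) := by rw [this]; simp
            _ = _ := by noncomm_ring
        calc ‖y * (1 - ρ)‖ ^ 2 ≤ (‖y * (1 - p n)‖ * ‖1 - ρ‖) ^ 2 := by
              rw [h2]; exact pow_le_pow_left₀ (norm_nonneg _) (norm_mul_le _ _) 2
          _ ≤ (‖y * (1 - p n)‖ * 1) ^ 2 := by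
              refine pow_le_pow_left₀ (by positivity) ?_ 2
              exact mul_le_mul_of_nonneg_left (proj_norm_le hρ.1.one_sub) (norm_nonneg _)
          _ ≤ _ := by rw [mul_one]; exact hn n
      have h3 : ‖y * (1 - ρ)‖ ^ 2 ≤ 0 :=
        ge_of_tendsto' tendsto_one_div_add_atTop_nhds_zero_nat key
      have : ‖y * (1 - ρ)‖ = 0 :=
        pow_eq_zero_iff (by norm_num) |>.1 (le_antisymm h3 (by positivity))
      exact norm_eq_zero.1 this
    rw [mul_sub, mul_one, sub_eq_zero] at h1
    exact h1.symm
  have ann : ∀ z, y * z = 0 → ρ * z = 0 := by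
    intro z hz
    refine sup_mul' hA dpr hρ ?_
    rintro _ ⟨n, rfl⟩
    calc d n * z = d n * p n * z := by rw [dpn]
      _ = d n * k n * star y * (y * z) := by rw [← kh]; noncomm_ring
      _ = 0 := by rw [hz, mul_zero]
  have ann' : ∀ z, z * y = 0 → z * lam = 0 := by
    intro z hz
    refine sup_mul hA lpr hl ?_
    rintro _ ⟨n, rfl⟩
    show z * (v n * star (v n)) = 0
    calc z * (v n * star (v n)) = (z * y) * (r n * d n * star (v n)) := by
          nth_rewrite 1 [hv]; noncomm_ring
      _ = 0 := by rw [hz, zero_mul]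
  have lv : ∀ n, lam * v n = v n := by
    intro n
    have h1 : lam * (v n * star (v n)) = v n * star (v n) :=
      comm_of_le (lp n) hl.1 (hl.2.1 _ ⟨n, rfl⟩)
    rw [← pi_left (vp n), ← mul_assoc, h1]
  have ly : lam * y = y := by
    have h1 : ((1 - lam) * y) * ρ = 0 := by
      refine sup_mul hA dpr hρ ?_
      rintro _ ⟨n, rfl⟩
      have h2 : y * d n = v n * (r n * (star y * y)) := by
        have e1 : d n * (star y * y) = (star y * y) * d n := comm _ (dM n) _ hhM
        calc y * d n = y * (p n * d n) := by rw [pdn]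
          _ = y * (k n * ((star y * y) * d n)) := by rw [← kh]; noncomm_ring
          _ = y * (r n * r n * (d n * (star y * y))) := by rw [rr, e1]
          _ = y * (r n * (r n * d n) * (star y * y)) := by noncomm_ring
          _ = (y * r n * d n) * (r n * (star y * y)) := by rw [rd]; noncomm_ring
          _ = v n * (r n * (star y * y)) := by rw [hv]
      calc (1 - lam) * y * d n = (1 - lam) * (y * d n) := by noncomm_ring
        _ = (v n - lam * v n) * (r n * (star y * y)) := by rw [h2]; noncomm_ring
        _ = 0 := by rw [lv, sub_self, zero_mul]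
    rw [mul_assoc, yρ, sub_mul, one_mul, sub_eq_zero] at h1
    exact h1.symm
  -- equivalence
  obtain ⟨W, hW1, hW2⟩ := orth_add hA (ι := ℕ) (v := fun n => s2 * v n * star s1)
    (e := s1 * ρ * star s1) (f := s2 * lam * star s2)
    (fun n => by
      show IsStarProjection (star (s2 * v n * star s1) * (s2 * v n * star s1))
      have : star (s2 * v n * star s1) * (s2 * v n * star s1) = s1 * d n * star s1 := by
        rw [star_mul, star_mul, star_star]
        calc s1 * (star (v n) * star s2) * (s2 * v n * star s1) =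
            s1 * (star (v n) * (star s2 * s2) * v n) * star s1 := by noncomm_ring
          _ = _ := by rw [hs.2.1, mul_one, vv]
      rw [this]; exact proj_conj hs.1 (dp n))
    (fun i j hij => by
      show s2 * v i * star s1 * star (s2 * v j * star s1) = 0
      rw [star_mul, star_mul, star_star]
      calc s2 * v i * star s1 * (s1 * (star (v j) * star s2)) =
          s2 * (v i * (star s1 * s1) * star (v j)) * star s2 := by noncomm_ring
        _ = 0 := by rw [hs.1, mul_one, vo1 i j hij]; simp)
    (fun i j hij => by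
      show star (s2 * v i * star s1) * (s2 * v j * star s1) = 0
      rw [star_mul, star_mul, star_star]
      calc s1 * (star (v i) * star s2) * (s2 * v j * star s1) =
          s1 * (star (v i) * (star s2 * s2) * v j) * star s1 := by noncomm_ring
        _ = 0 := by rw [hs.2.1, mul_one, vo2 i j hij]; simp)
    (by
      have h1 := sup_conj hA dp hρ hs.1
      have : (fun i => s1 * d i * star s1) =
          (fun n => star (s2 * v n * star s1) * (s2 * v n * star s1)) := by
        funext n
        rw [star_mul, star_mul, star_star]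
        calc s1 * d n * star s1 = s1 * (star (v n) * (star s2 * s2) * v n) * star s1 := by
              rw [hs.2.1, mul_one, vv]
          _ = _ := by noncomm_ring
      rw [this] at h1; exact h1)
    (by
      have h1 := sup_conj hA lp hl hs.2.1
      have : (fun i => s2 * (v i * star (v i)) * star s2) =
          (fun n => (s2 * v n * star s1) * star (s2 * v n * star s1)) := by
        funext n
        rw [star_mul, star_mul, star_star]
        calc s2 * (v n * star (v n)) * star s2 =
            s2 * (v n * (star s1 * s1) * star (v n)) * star s2 := by rw [hs.1, mul_one]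
          _ = _ := by noncomm_ring
      rw [this] at h1; exact h1) (conj_orth hs ρ lam)
  have hWp : IsStarProjection (star W * W) := by rw [hW1]; exact proj_conj hs.1 hρ.1
  have WW : (s2 * lam * star s2) * W = W := by rw [← hW2]; exact pi_left hWp
  have WW' : W * (s1 * ρ * star s1) = W := by rw [← hW1]; exact pi_mul hWp
  refine ⟨ρ, lam, hρ.1, hl.1, yρ, ly, ann, ann', star s2 * W * s1, ?_, ?_⟩
  · rw [star_mul, star_mul, star_star]
    have e1 : s2 * star s2 * W = W := by
      calc s2 * star s2 * W = s2 * star s2 * ((s2 * lam * star s2) * W) := by rw [WW]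
        _ = s2 * (star s2 * s2) * lam * star s2 * W := by noncomm_ring
        _ = (s2 * lam * star s2) * W := by rw [hs.2.1]; noncomm_ring
        _ = W := WW
    calc star s1 * (star W * s2) * (star s2 * W * s1) =
        star s1 * (star W * (s2 * star s2 * W)) * s1 := by noncomm_ring
      _ = star s1 * (s1 * ρ * star s1) * s1 := by rw [e1, hW1]
      _ = (star s1 * s1) * ρ * (star s1 * s1) := by noncomm_ring
      _ = ρ := by rw [hs.1]; simp
  · rw [star_mul, star_mul, star_star]
    have e1 : W * (s1 * star s1) = W := by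
      calc W * (s1 * star s1) = (W * (s1 * ρ * star s1)) * (s1 * star s1) := by rw [WW']
        _ = W * (s1 * ρ * (star s1 * s1) * star s1) := by noncomm_ring
        _ = W * (s1 * ρ * star s1) := by rw [hs.1]; noncomm_ring
        _ = W := WW'
    calc star s2 * W * s1 * (star s1 * (star W * s2)) =
        star s2 * ((W * (s1 * star s1)) * star W) * s2 := by noncomm_ring
      _ = star s2 * (s2 * lam * star s2) * s2 := by rw [e1, hW2]
      _ = (star s2 * s2) * lam * (star s2 * s2) := by noncomm_ring
      _ = lam := by rw [hs.2.1]; simp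

/-- Partition lemma (Murray-von Neumann). -/
theorem large (hA : IsAWStar A) (hF : IsFactor A) {s1 s2 : A} (hs : Prop2 s1 s2)
    {p q h1 h2 : A} (hp : IsStarProjection p) (hq : IsStarProjection q)
    (hh1 : IsStarProjection h1) (hh2 : IsStarProjection h2) (hpq : p * q = 0)
    (h12 : h1 * h2 = 0) (hl1 : h1 * (p + q) = h1) (hl2 : h2 * (p + q) = h2) :
    Dom h1 q ∨ Dom h2 p := by
  have hqp := orth_symm hp hq hpq
  have h21 := orth_symm hh1 hh2 h12
  obtain ⟨ρ1, l1, hρ1, hl1', y1a, y1b, y1c, y1d, w1, w1a, w1b⟩ := range_proj hA hs (q * h1)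
  obtain ⟨ρ2, l2, hρ2, hl2', y2a, y2b, y2c, y2d, w2, w2a, w2b⟩ := range_proj hA hs (p * h2)
  have ρ1h : ρ1 * h1 = ρ1 := by
    have := y1c (1 - h1) (by rw [mul_assoc, mul_sub, mul_one, mm hh1, sub_self, mul_zero])
    rw [mul_sub, mul_one, sub_eq_zero] at this; exact this.symm
  have ρ2h : ρ2 * h2 = ρ2 := by
    have := y2c (1 - h2) (by rw [mul_assoc, mul_sub, mul_one, mm hh2, sub_self, mul_zero])
    rw [mul_sub, mul_one, sub_eq_zero] at this; exact this.symm
  have l1q : q * l1 = l1 := by
    have := y1d (1 - q) (by rw [← mul_assoc, sub_mul, one_mul, mm hq, sub_self, zero_mul])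
    rw [sub_mul, one_mul, sub_eq_zero] at this; exact this.symm
  have l2p : p * l2 = l2 := by
    have := y2d (1 - p) (by rw [← mul_assoc, sub_mul, one_mul, mm hp, sub_self, zero_mul])
    rw [sub_mul, one_mul, sub_eq_zero] at this; exact this.symm
  have l1q' : l1 * q = l1 := by
    have := congrArg star l1q; rwa [star_mul, ss hq, ss hl1'] at this
  have l2p' : l2 * p = l2 := by
    have := congrArg star l2p; rwa [star_mul, ss hp, ss hl2'] at this
  obtain ⟨a, ha⟩ : ∃ a, a = h1 - ρ1 := ⟨_, rfl⟩
  obtain ⟨c, hc⟩ : ∃ c, c = h2 - ρ2 := ⟨_, rfl⟩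
  have ap : IsStarProjection a := by rw [ha]; exact proj_sub hρ1 hh1 ρ1h
  have cp : IsStarProjection c := by rw [hc]; exact proj_sub hρ2 hh2 ρ2h
  have ah1 : a * h1 = a := by rw [ha, sub_mul, mm hh1, ρ1h]
  have ch2 : c * h2 = c := by rw [hc, sub_mul, mm hh2, ρ2h]
  have h1a : h1 * a = a := comm_of_le ap hh1 ah1
  have h2c : h2 * c = c := comm_of_le cp hh2 ch2
  have qa : q * a = 0 := by
    have h5 : q * h1 * a = q * a := by rw [mul_assoc, h1a]
    have h6 : ρ1 * a = 0 := by rw [ha, mul_sub, ρ1h, mm hρ1, sub_self]
    rw [← h5, ← y1a, mul_assoc, h6, mul_zero]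
  have pc : p * c = 0 := by
    have h5 : p * h2 * c = p * c := by rw [mul_assoc, h2c]
    have h6 : ρ2 * c = 0 := by rw [hc, mul_sub, ρ2h, mm hρ2, sub_self]
    rw [← h5, ← y2a, mul_assoc, h6, mul_zero]
  have aq : a * q = 0 := orth_symm hq ap qa
  have cp0 : c * p = 0 := orth_symm hp cp pc
  have acp : a * p = a := by
    have h5 : a * (p + q) = a := by
      calc a * (p + q) = a * (h1 * (p + q)) := by rw [← mul_assoc, ah1]
        _ = a := by rw [hl1, ah1]
    rwa [mul_add, aq, add_zero] at h5
  have ccq : c * q = c := by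
    have h5 : c * (p + q) = c := by
      calc c * (p + q) = c * (h2 * (p + q)) := by rw [← mul_assoc, ch2]
        _ = c := by rw [hl2, ch2]
    rwa [mul_add, cp0, zero_add] at h5
  have ql : IsStarProjection (q - l1) := proj_sub hl1' hq l1q'
  have pl : IsStarProjection (p - l2) := proj_sub hl2' hp l2p'
  have eh1 : h1 = ρ1 + a := by rw [ha]; abel
  have eh2 : h2 = ρ2 + c := by rw [hc]; abel
  have dρ1 : Dom ρ1 l1 := by
    have := dom_of_equiv (v := w1) (by rw [w1a]; exact hρ1); rwa [w1a, w1b] at this
  have dρ2 : Dom ρ2 l2 := by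
    have := dom_of_equiv (v := w2) (by rw [w2a]; exact hρ2); rwa [w2a, w2b] at this
  rcases comp hA hF hs ap ql with h | h
  · left
    have h7 : l1 * (q - l1) = 0 := by rw [mul_sub, l1q', mm hl1', sub_self]
    have h8 := dom_add hl1' ql h7 dρ1 h
    have h9 : l1 + (q - l1) = q := by abel
    rw [h9, ← eh1] at h8; exact h8
  · right
    have cl : c * l1 = 0 := y1d c (by
      calc c * (q * h1) = (c * q) * h1 := by noncomm_ring
        _ = c * h2 * h1 := by rw [ccq, ch2]
        _ = 0 := by rw [mul_assoc, h21, mul_zero])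
    have al : a * l2 = 0 := y2d a (by
      calc a * (p * h2) = (a * p) * h2 := by noncomm_ring
        _ = a * h1 * h2 := by rw [acp, ah1]
        _ = 0 := by rw [mul_assoc, h12, mul_zero])
    have c1 : Dom c (q - l1) := dom_of_le cp ql (by rw [mul_sub, ccq, cl, sub_zero])
    have a1 : Dom a (p - l2) := dom_of_le ap pl (by rw [mul_sub, acp, al, sub_zero])
    have h7 : l2 * (p - l2) = 0 := by rw [mul_sub, l2p', mm hl2', sub_self]
    have h8 := dom_add hl2' pl h7 dρ2 ((c1.trans h).trans a1)
    have h9 : l2 + (p - l2) = p := by abel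
    rw [h9, ← eh2] at h8; exact h8

/-- If a doubling projection is dominated by a finite orthogonal sum then it is dominated by
one of the summands. -/
theorem large_fin (hA : IsAWStar A) (hF : IsFactor A) {s1 s2 : A} (hs : Prop2 s1 s2)
    {g t1 t2 : A} (hg : IsStarProjection g) (ht1 : star t1 * t1 = g) (ht2 : star t2 * t2 = g)
    (gt1 : g * t1 = t1) (gt2 : g * t2 = t2) (ht : star t1 * t2 = 0) (hg0 : g ≠ 0)
    {ι : Type*} [DecidableEq ι] (q : ι → A) (hq : ∀ i, IsStarProjection (q i))
    (ho : ∀ i j, i ≠ j → q i * q j = 0) (s : Finset ι) (hd : Dom g (∑ i ∈ s, q i)) :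
    ∃ i ∈ s, Dom g (q i) := by
  induction s using Finset.induction_on with
  | empty =>
    exfalso
    obtain ⟨v, hv, hv'⟩ := hd
    rw [Finset.sum_empty, zero_mul] at hv'
    rw [← hv', star_zero, zero_mul] at hv
    exact hg0 hv.symm
  | insert a s ha ih =>
    rw [Finset.sum_insert ha] at hd
    set Q := ∑ i ∈ s, q i with hQ
    have aQ : q a * Q = 0 := by
      rw [hQ, Finset.mul_sum]
      exact Finset.sum_eq_zero fun i hi => ho a i (fun h => ha (h ▸ hi))
    have QQ : ∀ i ∈ s, q i * Q = q i := by
      intro i hi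
      rw [hQ, Finset.mul_sum, Finset.sum_eq_single i (fun j _ hj => ho i j (Ne.symm hj))
        (fun h => absurd hi h), mm (hq i)]
    have Qp : IsStarProjection Q := by
      refine ⟨?_, ?_⟩
      · show Q * Q = Q
        nth_rewrite 1 [hQ]
        rw [Finset.sum_mul]
        exact Finset.sum_congr rfl QQ
      · show star Q = Q
        rw [hQ, star_sum]; exact Finset.sum_congr rfl fun i _ => ss (hq i)
    obtain ⟨v, hv, hv'⟩ := hd
    have vp : IsStarProjection (star v * v) := by rw [hv]; exact hg
    have vg : v * g = v := by rw [← hv]; exact pi_mul vp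
    have m1 : star (v * t1) * (v * t1) = g := by
      rw [star_mul, mul_assoc, ← mul_assoc (star v), hv, gt1, ht1]
    have m2 : star (v * t2) * (v * t2) = g := by
      rw [star_mul, mul_assoc, ← mul_assoc (star v), hv, gt2, ht2]
    have m12 : star (v * t1) * (v * t2) = 0 := by
      rw [star_mul, mul_assoc, ← mul_assoc (star v), hv, gt2, ht]
    have p1 : IsStarProjection ((v * t1) * star (v * t1)) := pi_star (by rw [m1]; exact hg)
    have p2 : IsStarProjection ((v * t2) * star (v * t2)) := pi_star (by rw [m2]; exact hg)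
    have aQp := proj_add (hq a) Qp aQ
    have r1 : (v * t1) * star (v * t1) * (q a + Q) = (v * t1) * star (v * t1) := by
      have h5 : (q a + Q) * ((v * t1) * star (v * t1)) = (v * t1) * star (v * t1) := by
        rw [← mul_assoc, ← mul_assoc (q a + Q), hv']
      have := congrArg star h5
      rwa [star_mul, ss aQp, ss p1] at this
    have r2 : (v * t2) * star (v * t2) * (q a + Q) = (v * t2) * star (v * t2) := by
      have h5 : (q a + Q) * ((v * t2) * star (v * t2)) = (v * t2) * star (v * t2) := by
        rw [← mul_assoc, ← mul_assoc (q a + Q), hv']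
      have := congrArg star h5
      rwa [star_mul, ss aQp, ss p2] at this
    have r12 : (v * t1) * star (v * t1) * ((v * t2) * star (v * t2)) = 0 := by
      calc (v * t1) * star (v * t1) * ((v * t2) * star (v * t2)) =
          (v * t1) * (star (v * t1) * (v * t2)) * star (v * t2) := by noncomm_ring
        _ = 0 := by rw [m12]; simp
    have d1 : Dom g ((v * t1) * star (v * t1)) := by
      have := dom_of_equiv (v := v * t1) (by rw [m1]; exact hg); rwa [m1] at this
    have d2 : Dom g ((v * t2) * star (v * t2)) := by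
      have := dom_of_equiv (v := v * t2) (by rw [m2]; exact hg); rwa [m2] at this
    rcases large hA hF hs (hq a) Qp p1 p2 aQ r12 r1 r2 with h | h
    · obtain ⟨i, hi, hi'⟩ := ih (d1.trans h)
      exact ⟨i, Finset.mem_insert_of_mem hi, hi'⟩
    · exact ⟨a, Finset.mem_insert_self _ _, d2.trans h⟩

end Pool.Agent.X205.AW
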