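import Pool.Agent.X205.AW.Defs
import Pool.Agent.X205.AW.Ring

/-!
Masas, spectral decomposition, cuts.
-/

namespace Pool.Agent.X205.AW

variable {A : Type*} [CStarAlgebra A]

abbrev IsMasa (M : StarSubalgebra ℂ A) : Prop :=
  Maximal (fun N : StarSubalgebra ℂ A => ∀ x ∈ N, ∀ y ∈ N, x * y = y * x) M

theorem exists_masa (N : StarSubalgebra ℂ A) (hN : ∀ x ∈ N, ∀ y ∈ N, x * y = y * x) :
    ∃ M, N ≤ M ∧ IsMasa M := by
  obtain ⟨M, h1, h2⟩ := zorn_le_nonempty₀
    {N : StarSubalgebra ℂ A | ∀ x ∈ N, ∀ y ∈ N, x * y = y * x} (by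
      intro c hc hch y hy
      have two : ∀ x ∈ ⋃ S ∈ c, (S : Set A), ∀ z ∈ ⋃ S ∈ c, (S : Set A),
          ∃ S ∈ c, x ∈ S ∧ z ∈ S := by
        intro x hx z hz
        simp only [Set.mem_iUnion, SetLike.mem_coe, exists_prop] at hx hz
        obtain ⟨S, hS, hx⟩ := hx
        obtain ⟨S', hS', hz⟩ := hz
        rcases hch.total hS hS' with h | h
        · exact ⟨S', hS', h hx, hz⟩
        · exact ⟨S, hS, hx, h hz⟩
      have mem : ∀ S ∈ c, ∀ x ∈ S, x ∈ ⋃ S ∈ c, (S : Set A) := by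
        intro S hS x hx
        simp only [Set.mem_iUnion, SetLike.mem_coe, exists_prop]
        exact ⟨S, hS, hx⟩
      let U : StarSubalgebra ℂ A :=
        { carrier := ⋃ S ∈ c, (S : Set A)
          mul_mem' := by
            intro a b ha hb
            obtain ⟨S, hS, h1, h2⟩ := two a ha b hb
            exact mem S hS _ (mul_mem h1 h2)
          one_mem' := mem y hy _ (one_mem y)
          add_mem' := by
            intro a b ha hb
            obtain ⟨S, hS, h1, h2⟩ := two a ha b hb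
            exact mem S hS _ (add_mem h1 h2)
          zero_mem' := mem y hy _ (zero_mem y)
          algebraMap_mem' := fun r => mem y hy _ (algebraMap_mem y r)
          star_mem' := by
            intro a ha
            obtain ⟨S, hS, h1, h2⟩ := two a ha a ha
            exact mem S hS _ (star_mem h1) }
      refine ⟨U, ?_, ?_⟩
      · intro x hx z hz
        obtain ⟨S, hS, h1, h2⟩ := two x hx z hz
        exact hc hS x h1 z h2
      · intro S hS x hx
        exact mem S hS x hx) N hN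
  exact ⟨M, h1, h2⟩

theorem exists_masa_pair {h g : A} (hh : star h = h) (hg : star g = g) (hc : h * g = g * h) :
    ∃ M : StarSubalgebra ℂ A, h ∈ M ∧ g ∈ M ∧ IsMasa M := by
  have hcomm : ∀ a ∈ ({h, g} : Set A), ∀ b ∈ ({h, g} : Set A), a * b = b * a := by
    rintro a (rfl | rfl) b (rfl | rfl)
    · rfl
    · exact hc
    · exact hc.symm
    · rfl
  have hcomm' : ∀ a ∈ ({h, g} : Set A), ∀ b ∈ ({h, g} : Set A), a * star b = star b * a := by
    rintro a ha b (rfl | rfl)
    · rw [hh]; exact hcomm a ha _ (by simp)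
    · rw [hg]; exact hcomm a ha _ (by simp)
  obtain ⟨M, h1, h2⟩ := exists_masa (StarAlgebra.adjoin ℂ ({h, g} : Set A)) (by
    intro x hx y hy
    exact (StarAlgebra.adjoinCommRingOfComm ℂ hcomm hcomm').mul_comm ⟨x, hx⟩ ⟨y, hy⟩ |>
      congrArg Subtype.val)
  exact ⟨M, h1 (StarAlgebra.subset_adjoin ℂ _ (by simp)),
    h1 (StarAlgebra.subset_adjoin ℂ _ (by simp)), h2⟩

/-- finite spectral sums inside `M` -/
def Dec (M : StarSubalgebra ℂ A) (x : A) : Prop :=
  ∃ (ι : Type) (_ : Fintype ι) (p : ι → A) (l : ι → ℂ),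
    (∀ i, IsStarProjection (p i) ∧ p i ∈ M) ∧ (∀ i j, i ≠ j → p i * p j = 0) ∧
      ∑ i, p i = 1 ∧ x = ∑ i, l i • p i

theorem dec_comb {M : StarSubalgebra ℂ A} (hM : ∀ x ∈ M, ∀ y ∈ M, x * y = y * x) {x y : A}
    (hx : Dec M x) (hy : Dec M y) :
    ∃ (ι : Type) (_ : Fintype ι) (p : ι → A) (l m : ι → ℂ),
    (∀ i, IsStarProjection (p i) ∧ p i ∈ M) ∧ (∀ i j, i ≠ j → p i * p j = 0) ∧
      ∑ i, p i = 1 ∧ x = ∑ i, l i • p i ∧ y = ∑ i, m i • p i := by
  obtain ⟨ι, _, p, l, hp, ho, hs, rfl⟩ := hx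
  obtain ⟨κ, _, q, m, hq, ho', hs', rfl⟩ := hy
  have hc : ∀ i j, p i * q j = q j * p i := fun i j => hM _ (hp i).2 _ (hq j).2
  refine ⟨ι × κ, inferInstance, fun i => p i.1 * q i.2, fun i => l i.1, fun i => m i.2, ?_, ?_,
    ?_, ?_, ?_⟩
  · rintro ⟨i, j⟩
    refine ⟨⟨?_, ?_⟩, mul_mem (hp i).2 (hq j).2⟩
    · show p i * q j * (p i * q j) = p i * q j
      calc p i * q j * (p i * q j) = p i * (q j * p i) * q j := by noncomm_ring
        _ = (p i * p i) * (q j * q j) := by rw [← hc]; noncomm_ring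
        _ = _ := by rw [(hp i).1.isIdempotentElem.eq, (hq j).1.isIdempotentElem.eq]
    · show star (p i * q j) = p i * q j
      rw [star_mul, (hp i).1.isSelfAdjoint.star_eq, (hq j).1.isSelfAdjoint.star_eq, hc]
  · rintro ⟨i, j⟩ ⟨i', j'⟩ hij
    show p i * q j * (p i' * q j') = 0
    calc p i * q j * (p i' * q j') = p i * (q j * p i') * q j' := by noncomm_ring
      _ = (p i * p i') * (q j * q j') := by rw [← hc]; noncomm_ring
      _ = 0 := by
        by_cases h : i = i'
        · have : j ≠ j' := fun h' => hij (by rw [h, h'])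
          rw [ho' j j' this, mul_zero]
        · rw [ho i i' h, zero_mul]
  · rw [Fintype.sum_prod_type]
    simp only [← Finset.mul_sum, hs', mul_one, hs]
  · rw [Fintype.sum_prod_type]
    refine Finset.sum_congr rfl fun i _ => ?_
    show l i • p i = ∑ y, l i • (p i * q y)
    rw [← Finset.smul_sum, ← Finset.mul_sum, hs', mul_one]
  · rw [Fintype.sum_prod_type_right]
    refine Finset.sum_congr rfl fun j _ => ?_
    show m j • q j = ∑ y, m j • (p y * q j)
    rw [← Finset.smul_sum, ← Finset.sum_mul, hs, one_mul]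

theorem sum_mul_orth {ι : Type} [Fintype ι] {p : ι → A} (hp : ∀ i, p i * p i = p i)
    (ho : ∀ i j, i ≠ j → p i * p j = 0) (l m : ι → ℂ) :
    (∑ i, l i • p i) * (∑ i, m i • p i) = ∑ i, (l i * m i) • p i := by
  classical
  rw [Finset.sum_mul]
  refine Finset.sum_congr rfl fun i _ => ?_
  rw [Finset.mul_sum, Finset.sum_eq_single i]
  · rw [smul_mul_smul_comm, hp]
  · intro j _ hj
    rw [smul_mul_smul_comm, ho i j (Ne.symm hj), smul_zero]
  · simp

theorem dec_of_adjoin {M : StarSubalgebra ℂ A} (hM : ∀ x ∈ M, ∀ y ∈ M, x * y = y * x) {x : A}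
    (hx : x ∈ StarAlgebra.adjoin ℂ {p : A | p ∈ M ∧ IsStarProjection p}) : Dec M x := by
  induction hx using StarAlgebra.adjoin_induction with
  | mem x hx =>
    refine ⟨Bool, inferInstance, fun b => if b then x else 1 - x, fun b => if b then 1 else 0,
      ?_, ?_, ?_, ?_⟩
    · rintro (_ | _)
      · exact ⟨by simpa using hx.2.one_sub, by simpa using sub_mem (one_mem M) hx.1⟩
      · exact ⟨by simpa using hx.2, by simpa using hx.1⟩
    · have := hx.2.isIdempotentElem.eq
      rintro (_ | _) (_ | _) h <;> simp_all [mul_sub, sub_mul]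
    · simp
    · simp
  | algebraMap r =>
    exact ⟨Unit, inferInstance, fun _ => 1, fun _ => r, fun _ => ⟨.one _, one_mem M⟩,
      fun i j h => absurd (Subsingleton.elim i j) h, by simp, by simp [Algebra.algebraMap_eq_smul_one]⟩
  | add x y _ _ hx hy =>
    obtain ⟨ι, hι, p, l, m, hp, ho, hs, rfl, rfl⟩ := dec_comb hM hx hy
    exact ⟨ι, hι, p, fun i => l i + m i, hp, ho, hs, by
      rw [← Finset.sum_add_distrib]; simp only [add_smul]⟩
  | mul x y _ _ hx hy =>
    obtain ⟨ι, hι, p, l, m, hp, ho, hs, rfl, rfl⟩ := dec_comb hM hx hy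
    exact ⟨ι, hι, p, fun i => l i * m i, hp, ho, hs,
      sum_mul_orth (fun i => (hp i).1.isIdempotentElem.eq) ho l m⟩
  | star x _ hx =>
    obtain ⟨ι, hι, p, l, hp, ho, hs, rfl⟩ := hx
    refine ⟨ι, hι, p, fun i => star (l i), hp, ho, hs, ?_⟩
    rw [star_sum]
    refine Finset.sum_congr rfl fun i _ => ?_
    rw [star_smul, (hp i).1.isSelfAdjoint.star_eq]

/-- Spectral approximation of a self-adjoint element of a masa. -/
theorem spec_approx (hA : IsAWStar A) {M : StarSubalgebra ℂ A} (hM : IsMasa M) {h : A}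
    (hh : star h = h) (hm : h ∈ M) {ε : ℝ} (hε : 0 < ε) :
    ∃ (ι : Type) (_ : Fintype ι) (p : ι → A) (l : ι → ℝ),
    (∀ i, IsStarProjection (p i) ∧ p i ∈ M) ∧ (∀ i j, i ≠ j → p i * p j = 0) ∧
      ∑ i, p i = 1 ∧ ‖h - ∑ i, l i • p i‖ < ε := by
  have h1 : h ∈ closure (StarAlgebra.adjoin ℂ {p : A | p ∈ M ∧ IsStarProjection p} : Set A) := by
    rw [← hA.masa M hM]; exact hm
  obtain ⟨x, hx, hd⟩ := Metric.mem_closure_iff.1 h1 ε hε
  obtain ⟨ι, hι, p, l, hp, ho, hs, rfl⟩ := dec_of_adjoin hM.prop hx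
  refine ⟨ι, hι, p, fun i => (l i).re, hp, ho, hs, ?_⟩
  have h2 : h - ∑ i, (l i).re • p i = (1 / 2 : ℝ) • ((h - ∑ i, l i • p i) +
      star (h - ∑ i, l i • p i)) := by
    rw [star_sub, hh, star_sum]
    have : ∀ i, star (l i • p i) = star (l i) • p i := fun i => by
      rw [star_smul, (hp i).1.isSelfAdjoint.star_eq]
    simp only [this]
    have h3 : ∑ i, (l i).re • p i = (1 / 2 : ℝ) • (∑ i, l i • p i + ∑ i, star (l i) • p i) := by
      rw [← Finset.sum_add_distrib, Finset.smul_sum]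
      refine Finset.sum_congr rfl fun i _ => ?_
      rw [← add_smul]
      have : l i + star (l i) = ((2 * (l i).re : ℝ) : ℂ) := by
        rw [Complex.star_def, Complex.add_conj]
      rw [this, Complex.coe_smul, smul_smul]; congr 1; ring
    rw [h3]
    have : h = (1 / 2 : ℝ) • (h + h) := by rw [← two_smul ℝ h, smul_smul]; norm_num
    nth_rewrite 1 [this]
    rw [← smul_sub]; congr 1; abel
  rw [h2, norm_smul]
  rw [dist_eq_norm] at hd
  calc ‖(1 / 2 : ℝ)‖ * ‖(h - ∑ i, l i • p i) + star (h - ∑ i, l i • p i)‖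
      ≤ (1 / 2) * (‖h - ∑ i, l i • p i‖ + ‖h - ∑ i, l i • p i‖) := by
        rw [Real.norm_of_nonneg (by norm_num)]
        refine mul_le_mul_of_nonneg_left ?_ (by norm_num)
        exact (norm_add_le _ _).trans (by rw [norm_star])
    _ < ε := by linarith

end Pool.Agent.X205.AW
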